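import Pool.Agent.W5h23.HG.Main

set_option autoImplicit false

/-!
The criterion for families indexed by a finite set; polynomials, smooth functions, convex sequences.
-/

namespace Pool.Agent.W5h23.HG

open Finset Filter Polynomial
open Pool.Agent.W147.PS (ff)
open Pool.Agent.W5h23.RG

open Classical in
/-- many cliques with a record gap -/
def CGaps (κ δ ε : ℝ) (N : ℕ) (α : ℝ) {ι : Type} (S : Finset ι) (v : ι → ℤ) (B : Finset ℕ) {r : ℕ}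
    (A : Fin r → Finset ℕ) : Prop :=
  ∀ (P : Fin r → (Fin r → ℕ) → ι → ℕ → Prop) (P' : (Fin r → ℕ) → ι → Prop) (P'' : (Fin r → ℕ) → ℕ → Prop)
    (F : Fin r → (Fin r → ℕ) → ι → ℕ → ℝ) (G : (Fin r → ℕ) → ι → ℝ) (H : (Fin r → ℕ) → ℕ → ℝ),
    (∀ j x t, P j (Function.update x j t) = P j x) → (∀ j x t, F j (Function.update x j t) = F j x) →
    ∀ T : Finset ((Fin r → ℕ) × ι × ℕ), (∀ t, t ∈ T ↔ t.2.1 ∈ S ∧ Clq A B P P' P'' t) →
    (S.card : ℝ) * B.card * (∏ j, ((A j).card : ℝ)) * (N : ℝ) ^ (-δ) ≤ T.card →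
    (∀ t ∈ T, (N : ℝ) ^ ε ≤ val α v F G H t) →
    (T.card : ℝ) * (N : ℝ) ^ (-ε) ≤ ((T.filter fun t => PrimeFree (val α v F G H t) (κ * ff N)).card : ℝ)

lemma CGaps.mono {κ δ δ' ε ε' : ℝ} {N : ℕ} {α : ℝ} {ι : Type} {S : Finset ι} {v : ι → ℤ} {B : Finset ℕ} {r : ℕ}
    {A : Fin r → Finset ℕ} (hN : 1 ≤ N) (hε : ε' ≤ ε) (hδ : δ ≤ δ') (h : CGaps κ δ' ε' N α S v B A) :
    CGaps κ δ ε N α S v B A := by
  classical
  intro P P' P'' F G H hP hF T hT hTc hpos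
  have hNr : (1 : ℝ) ≤ N := by exact_mod_cast hN
  have h1 := h P P' P'' F G H hP hF T hT (by
    refine le_trans ?_ hTc
    apply mul_le_mul_of_nonneg_left _ (by positivity)
    exact Real.rpow_le_rpow_of_exponent_le hNr (by linarith)) (fun t ht =>
      (Real.rpow_le_rpow_of_exponent_le hNr hε).trans (hpos t ht))
  refine le_trans ?_ h1
  apply mul_le_mul_of_nonneg_left _ (by positivity)
  exact Real.rpow_le_rpow_of_exponent_le hNr (by linarith)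

/-- the criterion for finite sets of indices -/
theorem critS (μ ε : ℝ) (hμ : 1 ≤ μ) (hε : 0 < ε) (h r : ℕ) (hh : 1 ≤ h) :
    ∃ κ δ : ℝ, 0 < κ ∧ 0 < δ ∧ ∀ (c : ℝ) (R : ℕ), 0 < c → ∃ N₀ : ℕ, ∀ N : ℕ, N₀ ≤ N → ∀ α : ℝ, Dioph c μ α →
      ∀ (ι : Type) (S : Finset ι) (v : ι → ℤ) (B : Finset ℕ) (A : Fin r → Finset ℕ) (U : Fin r → ℕ),
      (∀ i ∈ S, |v i| ≤ R * N) → (∀ b ∈ B, b ≤ N) → (∀ j, ∀ a ∈ A j, a ≤ U j) → (∀ j, U j ≤ N ^ R) →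
      (∀ j, (N : ℝ) ^ ε ≤ (A j).card) →
      (energy h (fun i : {i // i ∈ S} => v i) : ℝ) * (∏ j, (U j : ℝ)) * (N : ℝ) ^ (2 - 1 / μ + ε) ≤
        (S.card : ℝ) ^ (2 * h) * B.card * ∏ j, ((A j).card : ℝ) →
      CGaps κ δ ε N α S v B A := by
  classical
  obtain ⟨κ, δ, hκ, hδ, hm⟩ := main μ ε hμ hε h r hh
  refine ⟨κ, δ, hκ, hδ, fun c R hc => ?_⟩
  obtain ⟨N₀, h0⟩ := hm c R hc
  refine ⟨N₀, fun N hN α hα ι S v B A U hv hB hA hU hAN hE P P' P'' F G H hP hF T hT hTc hpos => ?_⟩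
  set φ : (Fin r → ℕ) × {i // i ∈ S} × ℕ → (Fin r → ℕ) × ι × ℕ := fun t => (t.1, (t.2.1 : ι), t.2.2) with hφ
  have hφi : Function.Injective φ := by
    rintro ⟨x, i, b⟩ ⟨x', i', b'⟩ heq
    simp only [hφ, Prod.mk.injEq] at heq
    obtain ⟨h1, h2, h3⟩ := heq
    rw [h1, h3, Subtype.ext h2]
  set T₁ : Finset ((Fin r → ℕ) × {i // i ∈ S} × ℕ) := T.preimage φ hφi.injOn with hT₁
  have hmem : ∀ t, t ∈ T₁ ↔ φ t ∈ T := fun t => by rw [hT₁, mem_preimage]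
  have hcard : T₁.card = T.card := by
    apply card_bij (fun t _ => φ t)
    · intro t ht
      exact (hmem t).1 ht
    · intro t _ t' _ h
      exact hφi h
    · intro t ht
      exact ⟨(t.1, ⟨t.2.1, ((hT t).1 ht).1⟩, t.2.2), (hmem _).2 ht, rfl⟩
  obtain ⟨T', hT'1, hT'2, hT'3⟩ := h0 N hN α hα {i // i ∈ S} (fun i => v i) B A U (fun i => hv i i.2) hB hA hU hAN
    (by rw [Fintype.card_coe]; exact hE) (fun j x i b => P j x i b) (fun x i => P' x i) P'' (fun j x t => by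
      funext i b
      rw [hP]) T₁ (fun t => by
        rw [hmem, hT]
        exact ⟨fun h => h.2, fun h => ⟨t.2.1.2, h⟩⟩) (by rw [Fintype.card_coe, hcard]; exact hTc)
    (fun j x i b => F j x i b) (fun x i => G x i) H (fun j x t => by
      funext i b
      rw [hF]) (fun t ht => hpos (φ t) ((hmem t).1 ht))
  rw [hcard] at hT'2
  refine hT'2.trans (Nat.cast_le.2 ?_)
  apply card_le_card_of_injOn φ _ hφi.injOn
  intro t ht
  rw [mem_coe] at ht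
  rw [mem_coe, mem_filter]
  exact ⟨(hmem t).1 (hT'1 ht), hT'3 t ht⟩

/-- from an energy estimate to the condition of the criterion -/
lemma cond (E Y S2 J a u N μ ε : ℝ) (hY : 0 < Y) (hN : 0 < N) (hu : 0 ≤ u) (hS2 : 0 ≤ S2)
    (hE : E * Y ≤ N ^ (ε / 2) * S2) (hc : u * N ^ (2 - 1 / μ + ε) ≤ Y * (J * a)) :
    E * u * N ^ (2 - 1 / μ + ε / 2) ≤ S2 * J * a := by
  have h1 : (E * u * N ^ (2 - 1 / μ + ε / 2)) * Y ≤ (S2 * J * a) * Y := by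
    calc (E * u * N ^ (2 - 1 / μ + ε / 2)) * Y = (E * Y) * (u * N ^ (2 - 1 / μ + ε / 2)) := by ring
      _ ≤ (N ^ (ε / 2) * S2) * (u * N ^ (2 - 1 / μ + ε / 2)) := mul_le_mul_of_nonneg_right hE (by positivity)
      _ = S2 * (u * (N ^ (2 - 1 / μ + ε / 2) * N ^ (ε / 2))) := by ring
      _ = S2 * (u * N ^ (2 - 1 / μ + ε)) := by
          rw [← Real.rpow_add hN]
          congr 3
          ring
      _ ≤ S2 * (Y * (J * a)) := mul_le_mul_of_nonneg_left hc hS2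
      _ = _ := by ring
  exact le_of_mul_le_mul_right h1 hY

/-- energies of polynomials -/
lemma en_poly (ε : ℝ) (hε : 0 < ε) (F : ℤ[X]) (hF : 1 ≤ F.natDegree) :
    ∃ (p : ℕ) (δ : ℝ), 1 ≤ p ∧ 0 < δ ∧ ∃ M₀ : ℕ, ∀ M : ℕ, M₀ ≤ M → ∀ S : Finset ℕ, S ⊆ Finset.Icc 1 M →
      (M : ℝ) ^ (1 - δ) ≤ S.card →
      (energy p (fun i : {i // i ∈ S} => F.eval (((i : ℕ) : ℤ))) : ℝ) * ((M ^ F.natDegree : ℕ) : ℝ) ≤
        ((M ^ F.natDegree : ℕ) : ℝ) ^ (ε / 2) * (S.card : ℝ) ^ (2 * p) := by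
  classical
  obtain ⟨p₀, C, hC, hen⟩ := Pool.Agent.TH212.PL.energy_poly' F hF
  have hp : 1 ≤ p₀ := by
    by_contra hp0
    have hp0' : p₀ = 0 := by omega
    subst hp0'
    obtain ⟨x, hx⟩ := exists_nat_gt C
    have h1 := hen (x + 1) (by omega)
    have h2 : Pool.Agent.H373R2.T7.energy 0 (x + 1) (fun m => F.eval (m : ℤ)) = 1 := by
      unfold Pool.Agent.H373R2.T7.energy
      simp
    rw [h2] at h1
    have h3 : ((x + 1 : ℕ) : ℝ) ≤ ((x + 1 : ℕ) : ℝ) ^ F.natDegree := by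
      apply le_self_pow₀ _ (by omega)
      push_cast
      have : (0 : ℝ) ≤ x := Nat.cast_nonneg x
      linarith
    push_cast at h1 h3
    simp only [one_mul, mul_zero, pow_zero, mul_one] at h1
    linarith
  have hp0 : (0 : ℝ) < p₀ := by exact_mod_cast hp
  obtain ⟨N₁, h1⟩ := large (ε / 4) C (by linarith)
  refine ⟨p₀, ε / (8 * p₀), hp, by positivity, N₁ + 1, fun M hM S hS hcard => ?_⟩
  have hM1 : 1 ≤ M := by omega
  have hMN : M ≤ M ^ F.natDegree := Nat.le_self_pow (by omega) M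
  have hMr : (1 : ℝ) ≤ M := by exact_mod_cast hM1
  have hM0 : (0 : ℝ) < M := by linarith
  obtain ⟨N, hN⟩ : ∃ N : ℕ, N = M ^ F.natDegree := ⟨_, rfl⟩
  rw [← hN] at hMN ⊢
  have hNr' : (N : ℝ) = (M : ℝ) ^ F.natDegree := by rw [hN]; push_cast; rfl
  obtain ⟨hCN, hN1⟩ := h1 N (by omega)
  have hNr : (1 : ℝ) ≤ N := by exact_mod_cast hN1
  have hN0 : (0 : ℝ) < N := by linarith
  have e1 := energy_le_T7 p₀ M (fun m => F.eval (m : ℤ)) S hS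
  have e2 := hen M hM1
  rw [← hNr'] at e2
  have e3 : (energy p₀ (fun i : {i // i ∈ S} => F.eval (((i : ℕ) : ℤ))) : ℝ) * N ≤ C * (M : ℝ) ^ (2 * p₀) :=
    (mul_le_mul_of_nonneg_right (Nat.cast_le.2 e1) hN0.le).trans e2
  have e4 : (M : ℝ) ^ (2 * p₀) ≤ (N : ℝ) ^ (ε / 4) * (S.card : ℝ) ^ (2 * p₀) := by
    have t1 : (M : ℝ) ≤ (M : ℝ) ^ (ε / (8 * p₀)) * S.card := by
      calc (M : ℝ) = (M : ℝ) ^ (ε / (8 * p₀)) * (M : ℝ) ^ (1 - ε / (8 * p₀)) := by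
            rw [← Real.rpow_add hM0, add_sub_cancel, Real.rpow_one]
        _ ≤ _ := mul_le_mul_of_nonneg_left hcard (by positivity)
    calc (M : ℝ) ^ (2 * p₀) ≤ ((M : ℝ) ^ (ε / (8 * p₀)) * S.card) ^ (2 * p₀) := pow_le_pow_left₀ hM0.le t1 _
      _ = ((M : ℝ) ^ (ε / (8 * p₀))) ^ (2 * p₀) * (S.card : ℝ) ^ (2 * p₀) := mul_pow _ _ _
      _ = (M : ℝ) ^ (ε / 4) * (S.card : ℝ) ^ (2 * p₀) := by
          rw [← Real.rpow_natCast ((M : ℝ) ^ (ε / (8 * p₀))), ← Real.rpow_mul hM0.le]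
          congr 2
          push_cast
          field_simp
          ring
      _ ≤ _ := by
          apply mul_le_mul_of_nonneg_right _ (by positivity)
          exact Real.rpow_le_rpow hM0.le (by exact_mod_cast hMN) (by linarith)
  refine e3.trans ?_
  calc C * (M : ℝ) ^ (2 * p₀) ≤ (N : ℝ) ^ (ε / 4) * ((N : ℝ) ^ (ε / 4) * (S.card : ℝ) ^ (2 * p₀)) :=
        mul_le_mul hCN e4 (by positivity) (by positivity)
    _ = _ := by
        rw [← mul_assoc, ← Real.rpow_add hN0]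
        congr 2
        ring

/-- energies of smooth functions -/
lemma en_smooth (ε : ℝ) (hε : 0 < ε) (Q : ℕ) (c0 C0 : ℝ) (hQ : 1 ≤ Q) (hc0 : 0 < c0) (hC0 : 1 ≤ C0) :
    ∃ (p : ℕ) (δ : ℝ), 1 ≤ p ∧ 0 < δ ∧ δ ≤ 1 ∧ ∃ N₀ : ℕ, ∀ N : ℕ, N₀ ≤ N → ∀ (M : ℕ) (A : ℝ) (F : ℝ → ℝ),
      (N : ℝ) ^ (1 - δ) ≤ A → A ≤ (M : ℝ) ^ Q → Pool.Agent.W5h23.SF.Smooth (Q + 2) c0 C0 M A F →
      ∀ S : Finset ℕ, S ⊆ Finset.Ico M (2 * M) → (M : ℝ) ≤ (N : ℝ) ^ δ * S.card →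
      (energy p (fun i : {i // i ∈ S} => ⌊F ((i : ℕ) : ℝ)⌋) : ℝ) * N ≤ (N : ℝ) ^ (ε / 2) * (S.card : ℝ) ^ (2 * p) := by
  classical
  obtain ⟨p, hp, hen⟩ := Pool.Agent.W5h23.SF.energy_pow Q hQ c0 C0 hc0 hC0
  obtain ⟨δ, hδ⟩ : ∃ δ : ℝ, δ = min (ε / (4 * p + 4)) 1 := ⟨_, rfl⟩
  have hδ0 : 0 < δ := by rw [hδ]; positivity
  have hδε : δ * (2 * p + 2) ≤ ε / 2 := by
    have : δ ≤ ε / (4 * p + 4) := by rw [hδ]; exact min_le_left _ _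
    have h2 : δ * (4 * p + 4) ≤ ε := by rwa [le_div_iff₀ (by positivity)] at this
    linarith
  have hδ1 : δ ≤ 1 := by rw [hδ]; exact min_le_right _ _
  obtain ⟨N₁, h1⟩ := hen δ hδ0
  refine ⟨p, δ, hp, hδ0, hδ1, N₁ + 1, fun N hN M A F hA hAQ hF S hS hcard => ?_⟩
  have hN1 : 1 ≤ N := by omega
  have hNr : (1 : ℝ) ≤ N := by exact_mod_cast hN1
  have hN0 : (0 : ℝ) < N := by linarith
  have hA1 : 1 ≤ A := (Real.one_le_rpow hNr (by linarith)).trans hA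
  have hM : 1 ≤ M := by
    rcases Nat.eq_zero_or_pos M with h | h
    · subst h
      rw [Nat.cast_zero, zero_pow (by omega)] at hAQ
      linarith
    · exact h
  have hNA : (N : ℝ) ≤ (N : ℝ) ^ δ * A := by
    calc (N : ℝ) = (N : ℝ) ^ δ * (N : ℝ) ^ (1 - δ) := by
          rw [← Real.rpow_add hN0, add_sub_cancel, Real.rpow_one]
      _ ≤ _ := mul_le_mul_of_nonneg_left hA (by positivity)
  have hE := h1 M N A F (by omega) hM hA1 hAQ hNA hF S hS hcard 0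
  have hE' : (energy p (fun i : {i // i ∈ S} => ⌊F ((i : ℕ) : ℝ)⌋) : ℝ) * N ≤
      (N : ℝ) ^ (δ * (2 * p + 2)) * (S.card : ℝ) ^ (2 * p) := by
    rw [Fintype.card_coe] at hE
    unfold energy
    simpa only [zero_add] using hE
  refine hE'.trans ?_
  apply mul_le_mul_of_nonneg_right _ (by positivity)
  exact Real.rpow_le_rpow_of_exponent_le hNr hδε

/-- energies of convex sequences -/
lemma en_convex (ε : ℝ) (hε : 0 < ε) : ∃ p : ℕ, 1 ≤ p ∧ ∀ R : ℕ, ∃ N₀ : ℕ, ∀ N : ℕ, N₀ ≤ N → ∀ (n : ℕ) (a : ℕ → ℤ),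
    1 ≤ n → Pool.Agent.W5h23.SF.Main.ConvexOrConcave n a → (∀ i < n, |a i| ≤ R * N) →
    (energy p (fun i : {i // i ∈ range n} => a i) : ℝ) * (n : ℝ) ^ 2 ≤ (N : ℝ) ^ (ε / 2) * (n : ℝ) ^ (2 * p) := by
  classical
  obtain ⟨p, hp⟩ := exists_pow_lt_of_lt_one (by positivity : (0 : ℝ) < min (ε / 16) 1) (by norm_num : (1 / 2 : ℝ) < 1)
  have hpε : (1 / 2 : ℝ) ^ p ≤ ε / 16 := hp.le.trans (min_le_left _ _)
  have hp1 : (1 / 2 : ℝ) ^ p ≤ 1 := hp.le.trans (min_le_right _ _)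
  refine ⟨p + 1, by omega, fun R => ?_⟩
  obtain ⟨N₁, h1⟩ := large (ε / 4) (2304 * (4 * R + 4)) (by linarith)
  refine ⟨N₁ + 1, fun N hN n a hn1 ha hb => ?_⟩
  obtain ⟨hCN, hN1⟩ := h1 N (by omega)
  have hNr : (1 : ℝ) ≤ N := by exact_mod_cast hN1
  have hN0 : (0 : ℝ) < N := by linarith
  have hn0 : (0 : ℝ) < n := by exact_mod_cast hn1
  have hnN : (n : ℝ) ≤ (4 * R + 4) * N := by
    have h2 := convex_len n (R * N) a ha (fun i hi => by have := hb i hi; push_cast; exact this)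
    have h3 : n ≤ (4 * R + 4) * N := by nlinarith
    exact_mod_cast h3
  -- the energy
  have e1 : energy (p + 1) (fun i : {i // i ∈ range n} => a i) ≤ Pool.Agent.W5h23.Conv.en n (p + 1) a := by
    have t1 : energy (p + 1) (fun i : Fin n => a i) = Pool.Agent.W5h23.Conv.en n (p + 1) a := by
      unfold energy Pool.Agent.W5h23.Conv.en Pool.Agent.W5h23.Conv.pairs
      rw [Nat.card_eq_fintype_card, Fintype.card_subtype, univ_product_univ]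
    rw [← t1]
    exact energy_inj (p + 1) (fun i : Fin n => a i) (fun i : {i // i ∈ range n} => ⟨i, mem_range.1 i.2⟩)
      (fun i j hij => Subtype.ext (congrArg Fin.val hij))
  have e2 : (Pool.Agent.W5h23.Conv.en n (p + 1) a : ℝ) ≤ 2304 * (n : ℝ) ^ (2 * ((p + 1 : ℕ) : ℝ) - 2 + 2 * (1 / 2) ^ (p + 1)) := by
    rcases ha with ha | ha
    · exact Pool.Agent.W5h23.Conv.en_convex n hn1 a ha (p + 1)
    · rw [← Pool.Agent.W5h23.SF.Main.en_neg]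
      exact Pool.Agent.W5h23.Conv.en_convex n hn1 (fun i => -a i) (fun i hi => by
        have := ha i hi
        show -a (i + 1) - -a i < -a (i + 2) - -a (i + 1)
        linarith) (p + 1)
  obtain ⟨δ, hδ⟩ : ∃ δ : ℝ, δ = (1 / 2) ^ p := ⟨_, rfl⟩
  rw [← hδ] at hpε hp1
  have hδ0 : 0 < δ := by rw [hδ]; positivity
  have e3 : (n : ℝ) ^ (2 * ((p + 1 : ℕ) : ℝ) - 2 + 2 * (1 / 2) ^ (p + 1)) * (n : ℝ) ^ 2 = (n : ℝ) ^ (2 * (p + 1)) * (n : ℝ) ^ δ := by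
    rw [← Real.rpow_natCast (n : ℝ) 2, ← Real.rpow_natCast (n : ℝ) (2 * (p + 1)), ← Real.rpow_add hn0, ← Real.rpow_add hn0, hδ]
    congr 1
    push_cast
    rw [pow_succ]
    ring
  have e4 : 2304 * (n : ℝ) ^ δ ≤ (N : ℝ) ^ (ε / 4) * (N : ℝ) ^ (ε / 16) := by
    have t1 : (n : ℝ) ^ δ ≤ (4 * R + 4) * (N : ℝ) ^ (ε / 16) := by
      calc (n : ℝ) ^ δ ≤ ((4 * R + 4) * N) ^ δ := Real.rpow_le_rpow hn0.le hnN hδ0.le
        _ = (4 * R + 4 : ℝ) ^ δ * (N : ℝ) ^ δ := Real.mul_rpow (by positivity) hN0.le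
        _ ≤ (4 * R + 4) * (N : ℝ) ^ (ε / 16) := by
            apply mul_le_mul _ (Real.rpow_le_rpow_of_exponent_le hNr hpε) (by positivity) (by positivity)
            calc (4 * R + 4 : ℝ) ^ δ ≤ (4 * R + 4 : ℝ) ^ (1 : ℝ) := by
                  apply Real.rpow_le_rpow_of_exponent_le _ hp1
                  have : (0 : ℝ) ≤ R := Nat.cast_nonneg R
                  linarith
              _ = _ := Real.rpow_one _
    calc 2304 * (n : ℝ) ^ δ ≤ 2304 * ((4 * R + 4) * (N : ℝ) ^ (ε / 16)) := mul_le_mul_of_nonneg_left t1 (by norm_num)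
      _ = (2304 * (4 * R + 4)) * (N : ℝ) ^ (ε / 16) := by ring
      _ ≤ _ := mul_le_mul_of_nonneg_right hCN (by positivity)
  have hE : (energy (p + 1) (fun i : {i // i ∈ range n} => a i) : ℝ) ≤
      2304 * (n : ℝ) ^ (2 * ((p + 1 : ℕ) : ℝ) - 2 + 2 * (1 / 2) ^ (p + 1)) := (Nat.cast_le.2 e1).trans e2
  have hn2 : (0 : ℝ) < (n : ℝ) ^ 2 := by positivity
  calc _ ≤ 2304 * (n : ℝ) ^ (2 * ((p + 1 : ℕ) : ℝ) - 2 + 2 * (1 / 2) ^ (p + 1)) * (n : ℝ) ^ 2 :=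
        mul_le_mul_of_nonneg_right hE hn2.le
    _ = (n : ℝ) ^ (2 * (p + 1)) * (2304 * (n : ℝ) ^ δ) := by
        rw [mul_assoc, e3]
        ring
    _ ≤ (n : ℝ) ^ (2 * (p + 1)) * ((N : ℝ) ^ (ε / 4) * (N : ℝ) ^ (ε / 16)) := mul_le_mul_of_nonneg_left e4 (by positivity)
    _ ≤ (n : ℝ) ^ (2 * (p + 1)) * (N : ℝ) ^ (ε / 2) := by
        apply mul_le_mul_of_nonneg_left _ (by positivity)
        rw [← Real.rpow_add hN0]
        exact Real.rpow_le_rpow_of_exponent_le hNr (by linarith)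
    _ = _ := by ring

lemma prod_nonneg_nat {r : ℕ} (U : Fin r → ℕ) : (0 : ℝ) ≤ ∏ j, (U j : ℝ) := prod_nonneg fun _ _ => Nat.cast_nonneg _

/-- values of polynomials -/
theorem cgaps_poly (μ ε : ℝ) (hμ : 1 ≤ μ) (hε : 0 < ε) (r : ℕ) (F : ℤ[X]) (hF : 1 ≤ F.natDegree) :
    ∃ κ δ : ℝ, 0 < κ ∧ 0 < δ ∧ ∀ (c : ℝ) (R : ℕ), 0 < c → ∃ M₀ : ℕ, ∀ M : ℕ, M₀ ≤ M → ∀ α : ℝ, Dioph c μ α →
      ∀ S : Finset ℕ, S ⊆ Finset.Icc 1 M → (M : ℝ) ^ (1 - δ) ≤ S.card →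
      ∀ (B : Finset ℕ) (A : Fin r → Finset ℕ) (U : Fin r → ℕ), (∀ b ∈ B, b ≤ M ^ F.natDegree) →
      (∀ j, ∀ a ∈ A j, a ≤ U j) → (∀ j, U j ≤ M ^ R) → (∀ j, ((M ^ F.natDegree : ℕ) : ℝ) ^ ε ≤ (A j).card) →
      (∏ j, (U j : ℝ)) * ((M ^ F.natDegree : ℕ) : ℝ) ^ (1 - 1 / μ + ε) ≤ B.card * ∏ j, ((A j).card : ℝ) →
      CGaps κ δ ε (M ^ F.natDegree) α S (fun m => F.eval (m : ℤ)) B A := by
  classical
  obtain ⟨p, δ₁, hp, hδ₁, M₁, hM₁⟩ := en_poly ε hε F hF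
  obtain ⟨κ, δ, hκ, hδ, hcr⟩ := critS μ (ε / 2) hμ (by linarith) p r hp
  refine ⟨κ, min δ₁ δ, hκ, lt_min hδ₁ hδ, fun c R hc => ?_⟩
  obtain ⟨N₀, h0⟩ := hcr c (Pool.Agent.TH212.PL.cf F + R) hc
  refine ⟨N₀ + M₁ + 1, fun M hM α hα S hS hcard B A U hB hA hU hAN hcond => ?_⟩
  have hM1 : 1 ≤ M := by omega
  have hMN : M ≤ M ^ F.natDegree := Nat.le_self_pow (by omega) M
  have hMr : (1 : ℝ) ≤ M := by exact_mod_cast hM1
  have he := hM₁ M (by omega) S hS ((Real.rpow_le_rpow_of_exponent_le hMr (by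
    have := min_le_left δ₁ δ
    linarith)).trans hcard)
  obtain ⟨N, hN⟩ : ∃ N : ℕ, N = M ^ F.natDegree := ⟨_, rfl⟩
  rw [← hN] at hMN hB hAN hcond he ⊢
  have hN1 : 1 ≤ N := by omega
  have hNr : (1 : ℝ) ≤ N := by exact_mod_cast hN1
  have hN0 : (0 : ℝ) < N := by linarith
  apply CGaps.mono hN1 (show ε / 2 ≤ ε by linarith) (min_le_right δ₁ δ)
  apply h0 N (by omega) α hα ℕ S _ B A U
  · intro m hm
    have h2 := Finset.mem_Icc.1 (hS hm)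
    refine (Pool.Agent.TH212.PL.abs_eval_le F m h2.1).trans ?_
    have h3 : ((m : ℤ)) ^ F.natDegree ≤ (N : ℤ) := by
      rw [hN]
      push_cast
      apply pow_le_pow_left₀ (by positivity)
      exact_mod_cast h2.2
    calc _ ≤ (Pool.Agent.TH212.PL.cf F : ℤ) * (N : ℤ) := mul_le_mul_of_nonneg_left h3 (by positivity)
      _ ≤ _ := by
        apply mul_le_mul_of_nonneg_right _ (by positivity)
        push_cast
        have : (0 : ℤ) ≤ R := by positivity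
        linarith
  · exact hB
  · exact hA
  · intro j
    refine (hU j).trans ?_
    calc M ^ R ≤ N ^ R := Nat.pow_le_pow_left hMN R
      _ ≤ _ := Nat.pow_le_pow_right hN1 (by omega)
  · intro j
    exact (Real.rpow_le_rpow_of_exponent_le hNr (by linarith)).trans (hAN j)
  · refine cond _ N _ _ _ _ _ μ ε hN0 hN0 (prod_nonneg_nat U) (by positivity) he ?_
    have : (N : ℝ) ^ (2 - 1 / μ + ε) = N * (N : ℝ) ^ (1 - 1 / μ + ε) := by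
      conv_rhs => rw [← Real.rpow_one (N : ℝ), ← Real.rpow_mul hN0.le, one_mul, ← Real.rpow_add hN0]
      congr 1
      ring
    rw [this]
    calc (∏ j, (U j : ℝ)) * (N * (N : ℝ) ^ (1 - 1 / μ + ε)) = N * ((∏ j, (U j : ℝ)) * (N : ℝ) ^ (1 - 1 / μ + ε)) := by ring
      _ ≤ _ := mul_le_mul_of_nonneg_left hcond hN0.le

/-- integral parts of smooth functions -/
theorem cgaps_smooth (μ ε : ℝ) (hμ : 1 ≤ μ) (hε : 0 < ε) (r : ℕ) (Q : ℕ) (c0 C0 : ℝ) (hQ : 1 ≤ Q) (hc0 : 0 < c0)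
    (hC0 : 1 ≤ C0) :
    ∃ κ δ : ℝ, 0 < κ ∧ 0 < δ ∧ ∀ (c : ℝ) (R : ℕ), 0 < c → ∃ N₀ : ℕ, ∀ N : ℕ, N₀ ≤ N → ∀ α : ℝ, Dioph c μ α →
      ∀ (M : ℕ) (V : ℝ) (F : ℝ → ℝ), (N : ℝ) ^ (1 - δ) ≤ V → V ≤ (M : ℝ) ^ Q →
      Pool.Agent.W5h23.SF.Smooth (Q + 2) c0 C0 M V F →
      ∀ S : Finset ℕ, S ⊆ Finset.Ico M (2 * M) → (M : ℝ) ≤ (N : ℝ) ^ δ * S.card → (∀ m ∈ S, |⌊F m⌋| ≤ R * N) →
      ∀ (B : Finset ℕ) (A : Fin r → Finset ℕ) (U : Fin r → ℕ), (∀ b ∈ B, b ≤ N) → (∀ j, ∀ a ∈ A j, a ≤ U j) →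
      (∀ j, U j ≤ N ^ R) → (∀ j, (N : ℝ) ^ ε ≤ (A j).card) →
      (∏ j, (U j : ℝ)) * (N : ℝ) ^ (1 - 1 / μ + ε) ≤ B.card * ∏ j, ((A j).card : ℝ) →
      CGaps κ δ ε N α S (fun m => ⌊F m⌋) B A := by
  classical
  obtain ⟨p, δ₁, hp, hδ₁, hδ₁1, M₁, hM₁⟩ := en_smooth ε hε Q c0 C0 hQ hc0 hC0
  obtain ⟨κ, δ, hκ, hδ, hcr⟩ := critS μ (ε / 2) hμ (by linarith) p r hp
  refine ⟨κ, min δ₁ δ, hκ, lt_min hδ₁ hδ, fun c R hc => ?_⟩
  obtain ⟨N₀, h0⟩ := hcr c R hc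
  refine ⟨N₀ + M₁ + 1, fun N hN α hα M V F hV hVQ hF S hS hcard hv B A U hB hA hU hAN hcond => ?_⟩
  have hN1 : 1 ≤ N := by omega
  have hNr : (1 : ℝ) ≤ N := by exact_mod_cast hN1
  have hN0 : (0 : ℝ) < N := by linarith
  have hmin := min_le_left δ₁ δ
  have he := hM₁ N (by omega) M V F ((Real.rpow_le_rpow_of_exponent_le hNr (by linarith)).trans hV) hVQ hF S hS
    (hcard.trans (mul_le_mul_of_nonneg_right (Real.rpow_le_rpow_of_exponent_le hNr hmin) (by positivity)))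
  apply CGaps.mono hN1 (show ε / 2 ≤ ε by linarith) (min_le_right δ₁ δ)
  apply h0 N (by omega) α hα ℕ S _ B A U hv hB hA hU
  · intro j
    exact (Real.rpow_le_rpow_of_exponent_le hNr (by linarith)).trans (hAN j)
  · refine cond _ N _ _ _ _ _ μ ε hN0 hN0 (prod_nonneg_nat U) (by positivity) he ?_
    have : (N : ℝ) ^ (2 - 1 / μ + ε) = N * (N : ℝ) ^ (1 - 1 / μ + ε) := by
      conv_rhs => rw [← Real.rpow_one (N : ℝ), ← Real.rpow_mul hN0.le, one_mul, ← Real.rpow_add hN0]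
      congr 1
      ring
    rw [this]
    calc (∏ j, (U j : ℝ)) * (N * (N : ℝ) ^ (1 - 1 / μ + ε)) = N * ((∏ j, (U j : ℝ)) * (N : ℝ) ^ (1 - 1 / μ + ε)) := by ring
      _ ≤ _ := mul_le_mul_of_nonneg_left hcond hN0.le

/-- strictly convex or concave sequences -/
theorem cgaps_convex (μ ε : ℝ) (hμ : 1 ≤ μ) (hε : 0 < ε) (r : ℕ) :
    ∃ κ δ : ℝ, 0 < κ ∧ 0 < δ ∧ ∀ (c : ℝ) (R : ℕ), 0 < c → ∃ N₀ : ℕ, ∀ N : ℕ, N₀ ≤ N → ∀ α : ℝ, Dioph c μ α →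
      ∀ (n : ℕ) (v : ℕ → ℤ), 1 ≤ n → Pool.Agent.W5h23.SF.Main.ConvexOrConcave n v → (∀ i < n, |v i| ≤ R * N) →
      ∀ (B : Finset ℕ) (A : Fin r → Finset ℕ) (U : Fin r → ℕ), (∀ b ∈ B, b ≤ N) → (∀ j, ∀ a ∈ A j, a ≤ U j) →
      (∀ j, U j ≤ N ^ R) → (∀ j, (N : ℝ) ^ ε ≤ (A j).card) →
      (∏ j, (U j : ℝ)) * (N : ℝ) ^ (2 - 1 / μ + ε) ≤ (n : ℝ) ^ 2 * (B.card * ∏ j, ((A j).card : ℝ)) →
      CGaps κ δ ε N α (range n) v B A := by
  classical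
  obtain ⟨p, hp, hen⟩ := en_convex ε hε
  obtain ⟨κ, δ, hκ, hδ, hcr⟩ := critS μ (ε / 2) hμ (by linarith) p r hp
  refine ⟨κ, δ, hκ, hδ, fun c R hc => ?_⟩
  obtain ⟨N₀, h0⟩ := hcr c R hc
  obtain ⟨N₁, h1⟩ := hen R
  refine ⟨N₀ + N₁ + 1, fun N hN α hα n v hn hv hvb B A U hB hA hU hAN hcond => ?_⟩
  have hN1 : 1 ≤ N := by omega
  have hNr : (1 : ℝ) ≤ N := by exact_mod_cast hN1
  have hN0 : (0 : ℝ) < N := by linarith
  have hn0 : (0 : ℝ) < n := by exact_mod_cast hn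
  have he := h1 N (by omega) n v hn hv hvb
  apply CGaps.mono hN1 (show ε / 2 ≤ ε by linarith) le_rfl
  apply h0 N (by omega) α hα ℕ (range n) v B A U (fun i hi => hvb i (mem_range.1 hi)) hB hA hU
  · intro j
    exact (Real.rpow_le_rpow_of_exponent_le hNr (by linarith)).trans (hAN j)
  · rw [card_range]
    exact cond _ ((n : ℝ) ^ 2) _ _ _ _ _ μ ε (by positivity) hN0 (prod_nonneg_nat U) (by positivity) he hcond

end Pool.Agent.W5h23.HG
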