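import Pool.Agent.W5h23.HG.Clq
import Pool.Agent.W5h23.HG.Inst
import Pool.Agent.W5h23.SF.Poly

set_option autoImplicit false

/-!
The additive energy along cliques, for families indexed by finite sets; polynomials.
-/

namespace Pool.Agent.W5h23.HG

open Finset Filter Polynomial
open Pool.Agent.W5h23.RG

/-- the sizes of the sets -/
def Sizes (N s R : ℕ) {r : ℕ} (X Y : ℕ) (B : Finset ℕ) (A : Fin r → Finset ℕ) (U : Fin r → ℕ) : Prop :=
  (∀ b ∈ B, b ≤ X) ∧ (∀ j, ∀ x ∈ A j, x ≤ U j) ∧ (∀ j, U j ≤ N ^ R) ∧ X ≤ N ^ R ∧ Y ≤ N ^ R ∧ N ≤ X ^ s ∧ N ≤ Y ^ s ∧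
    ∀ j, N ≤ (A j).card ^ s

/-- small energies along cliques -/
def CEn (κ δ : ℝ) (p N : ℕ) (a : ℤ) {ι : Type} (S : Finset ι) (v : ι → ℤ) (B : Finset ℕ) {r : ℕ}
    (A : Fin r → Finset ℕ) : Prop :=
  ∀ (P : Fin r → (Fin r → ℕ) → ι → ℕ → Prop) (P' : (Fin r → ℕ) → ι → Prop) (P'' : (Fin r → ℕ) → ℕ → Prop)
    (F : Fin r → (Fin r → ℕ) → ι → ℕ → ℤ) (G : (Fin r → ℕ) → ι → ℤ) (H : (Fin r → ℕ) → ℕ → ℤ),
    (∀ j x t, P j (Function.update x j t) = P j x) → (∀ j x t, F j (Function.update x j t) = F j x) →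
    ∀ T : Finset ((Fin r → ℕ) × ι × ℕ), (∀ t, t ∈ T ↔ t.2.1 ∈ S ∧ Clq A B P P' P'' t) →
    (S.card : ℝ) * B.card * (∏ j, ((A j).card : ℝ)) * (N : ℝ) ^ (-δ) ≤ T.card →
    (energy p (fun t : {t // t ∈ T} => ival a v F G H t) : ℝ) * N ≤ (N : ℝ) ^ κ * (T.card : ℝ) ^ (2 * p)

theorem energyS (κ : ℝ) (hκ : 0 < κ) (r h s R : ℕ) (hh : 1 ≤ h) (hs : 1 ≤ s) (a : ℤ) (ha : a ≠ 0) :
    ∃ (p : ℕ) (δ : ℝ), 1 ≤ p ∧ 0 < δ ∧ ∃ N₀ : ℕ, ∀ N : ℕ, N₀ ≤ N →
      ∀ (ι : Type) (S : Finset ι) (v : ι → ℤ) (X Y : ℕ) (B : Finset ℕ) (A : Fin r → Finset ℕ) (U : Fin r → ℕ),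
      (∀ i ∈ S, |v i| ≤ Y) → Sizes N s R X Y B A U → (N : ℝ) ^ (1 - δ) ≤ (∏ j, (U j : ℝ)) * X * Y →
      (energy h (fun i : {i // i ∈ S} => v i) : ℝ) * ((∏ j, (U j : ℝ)) * X * Y) ≤
        (N : ℝ) ^ δ * ((S.card : ℝ) ^ (2 * h) * B.card * ∏ j, ((A j).card : ℝ)) →
      CEn κ δ p N a S v B A := by
  classical
  obtain ⟨p, δ, hp, hδ, N₀, h0⟩ := energy_clq κ hκ r h s R hh hs a ha
  refine ⟨p, δ, hp, hδ, N₀, fun N hN ι S v X Y B A U hv hsz hsize hE P P' P'' F G H hP hF T hT hTc => ?_⟩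
  obtain ⟨hB, hA, hU, hXR, hYR, hX, hY, hAc⟩ := hsz
  set φ : (Fin r → ℕ) × {i // i ∈ S} × ℕ → (Fin r → ℕ) × ι × ℕ := fun t => (t.1, (t.2.1 : ι), t.2.2) with hφ
  have hφi : Function.Injective φ := by
    rintro ⟨x, i, b⟩ ⟨x', i', b'⟩ heq
    simp only [hφ, Prod.mk.injEq] at heq
    obtain ⟨h1, h2, h3⟩ := heq
    rw [h1, h3, Subtype.ext h2]
  set T₁ : Finset ((Fin r → ℕ) × {i // i ∈ S} × ℕ) := T.preimage φ hφi.injOn with hT₁
  have hmem : ∀ t, t ∈ T₁ ↔ φ t ∈ T := fun t => by rw [hT₁, mem_preimage]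
  have hcard : T₁.card = T.card := by
    apply card_bij (fun t _ => φ t)
    · intro t ht
      exact (hmem t).1 ht
    · intro t _ t' _ h
      exact hφi h
    · intro t ht
      exact ⟨(t.1, ⟨t.2.1, ((hT t).1 ht).1⟩, t.2.2), (hmem _).2 ht, rfl⟩
  have key := h0 N hN {i // i ∈ S} (fun i => v i) X Y B A U (fun i => hv i i.2) hB hA hU hXR hYR hX hY hAc hsize
    (by rw [Fintype.card_coe]; exact hE) (fun j x i b => P j x i b) (fun x i => P' x i) P'' (fun j x t => by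
      funext i b
      rw [hP]) T₁ (fun t => by
        rw [hmem, hT]
        exact ⟨fun h => h.2, fun h => ⟨t.2.1.2, h⟩⟩) (by rw [Fintype.card_coe, hcard]; exact hTc)
    (fun j x i b => F j x i b) (fun x i => G x i) H (fun j x t => by
      funext i b
      rw [hF])
  rw [hcard] at key
  refine le_trans (mul_le_mul_of_nonneg_right ?_ (Nat.cast_nonneg N)) key
  apply Nat.cast_le.2
  exact energy_inj p (fun t : {t // t ∈ T₁} => ival a (fun i : {i // i ∈ S} => v i) (fun j x i b => F j x i b)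
    (fun x i => G x i) H t)
    (fun t : {t // t ∈ T} => ⟨(t.1.1, ⟨t.1.2.1, ((hT t.1).1 t.2).1⟩, t.1.2.2), (hmem _).2 t.2⟩)
    (fun t t' htt => by
      have h1 := congrArg (fun z : {t // t ∈ T₁} => φ z.1) htt
      exact Subtype.ext h1)

lemma CEn.mono {κ δ δ' : ℝ} {p N : ℕ} {a : ℤ} {ι : Type} {S : Finset ι} {v : ι → ℤ} {B : Finset ℕ} {r : ℕ}
    {A : Fin r → Finset ℕ} (hN : 1 ≤ N) (hδ : δ ≤ δ') (h : CEn κ δ' p N a S v B A) : CEn κ δ p N a S v B A := by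
  intro P P' P'' F G H hP hF T hT hTc
  refine h P P' P'' F G H hP hF T hT (le_trans ?_ hTc)
  apply mul_le_mul_of_nonneg_left _ (by positivity)
  exact Real.rpow_le_rpow_of_exponent_le (by exact_mod_cast hN) (by linarith)

/-- one factor is the value of a polynomial -/
theorem energy_polyS (κ : ℝ) (hκ : 0 < κ) (r s R : ℕ) (hs : 1 ≤ s) (a : ℤ) (ha : a ≠ 0) (F : ℤ[X])
    (hF : 1 ≤ F.natDegree) :
    ∃ (p : ℕ) (δ : ℝ), 1 ≤ p ∧ 0 < δ ∧ ∃ N₀ : ℕ, ∀ N : ℕ, N₀ ≤ N →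
      ∀ (M : ℕ) (S : Finset ℕ) (X : ℕ) (B : Finset ℕ) (A : Fin r → Finset ℕ) (U : Fin r → ℕ),
      S ⊆ Finset.Icc 1 M → (M : ℝ) ^ (1 - δ) ≤ S.card → Sizes N s R X (M ^ F.natDegree) B A U →
      (N : ℝ) ^ (1 - δ) ≤ (∏ j, (U j : ℝ)) * X * ((M ^ F.natDegree : ℕ) : ℝ) →
      (∏ j, (U j : ℝ)) * X ≤ (N : ℝ) ^ δ * (B.card * ∏ j, ((A j).card : ℝ)) →
      CEn κ δ p N a S (fun m => F.eval (m : ℤ)) B A := by
  classical
  -- the order of the energy of the polynomial does not depend on `ε`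
  obtain ⟨q, C, hq, hC, hen⟩ := Pool.Agent.W5h23.SF.energy_poly_pos F hF
  obtain ⟨p, δ₀, hp, hδ₀, N₁, h1⟩ := energyS κ hκ r q s (R + 1) hq hs a ha
  obtain ⟨cf, hcf⟩ : ∃ cf : ℕ, cf = Pool.Agent.TH212.PL.cf F + 1 := ⟨_, rfl⟩
  have hcf1 : 1 ≤ cf := by omega
  obtain ⟨δ, hδ⟩ : ∃ δ : ℝ, δ = δ₀ / (4 * (2 * q * R + 1)) := ⟨_, rfl⟩
  have hδ0 : 0 < δ := by rw [hδ]; positivity
  have hδq : 4 * (2 * q * R + 1) * δ = δ₀ := by rw [hδ]; field_simp
  have hqR : 0 ≤ 2 * (q : ℝ) * R * δ := by positivity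
  have hδ4 : 4 * δ ≤ δ₀ := by nlinarith
  have hqδ : 8 * (q * R * δ) ≤ δ₀ := by nlinarith
  have hlim : ∀ x : ℝ, 0 < x → Tendsto (fun N : ℕ => (N : ℝ) ^ x) atTop atTop := fun x hx =>
    (tendsto_rpow_atTop hx).comp tendsto_natCast_atTop_atTop
  obtain ⟨N₂, h2⟩ := eventually_atTop.1 ((hlim (δ₀ / 4) (by positivity)).eventually_ge_atTop (C * cf))
  refine ⟨p, δ, hp, hδ0, N₁ + N₂ + cf + 1, fun N hN M S X B A U hS hSc hsz hsize hdens => ?_⟩
  have hN1 : 1 ≤ N := by omega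
  have hNr : (1 : ℝ) ≤ N := by exact_mod_cast hN1
  have hN0 : (0 : ℝ) < N := by linarith
  obtain ⟨hB, hA, hU, hXR, hYR, hX, hY, hAc⟩ := hsz
  have hM : 1 ≤ M := by
    rcases Nat.eq_zero_or_pos M with h | h
    · subst h
      rw [zero_pow (by omega), zero_pow (by omega)] at hY
      omega
    · exact h
  have hMr : (1 : ℝ) ≤ M := by exact_mod_cast hM
  have hM0 : (0 : ℝ) < M := by linarith
  obtain ⟨Z, hZ⟩ : ∃ Z : ℕ, Z = M ^ F.natDegree := ⟨_, rfl⟩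
  rw [← hZ] at hYR hY hsize
  have hZ1 : 1 ≤ Z := by rw [hZ]; exact Nat.one_le_pow _ _ hM
  have hZr : (0 : ℝ) < Z := by exact_mod_cast hZ1
  have hMZ : M ≤ Z := by rw [hZ]; exact Nat.le_self_pow (by omega) M
  have hcfr : (1 : ℝ) ≤ cf := by exact_mod_cast hcf1
  apply CEn.mono hN1 (show δ ≤ δ₀ by linarith)
  apply h1 N (by omega) ℕ S _ X (cf * Z) B A U
  · intro m hm
    have h3 := Finset.mem_Icc.1 (hS hm)
    refine (Pool.Agent.TH212.PL.abs_eval_le F m h3.1).trans ?_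
    have h4 : ((m : ℤ)) ^ F.natDegree ≤ (Z : ℤ) := by
      rw [hZ]
      push_cast
      apply pow_le_pow_left₀ (by positivity)
      exact_mod_cast h3.2
    calc _ ≤ (Pool.Agent.TH212.PL.cf F : ℤ) * (Z : ℤ) := mul_le_mul_of_nonneg_left h4 (by positivity)
      _ ≤ _ := by
        push_cast
        apply mul_le_mul_of_nonneg_right _ (by positivity)
        rw [hcf]
        push_cast
        linarith
  · refine ⟨hB, hA, fun j => (hU j).trans (Nat.pow_le_pow_right hN1 (by omega)),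
      hXR.trans (Nat.pow_le_pow_right hN1 (by omega)), ?_, hX, ?_, hAc⟩
    · rw [pow_succ, mul_comm]
      exact Nat.mul_le_mul hYR (by omega)
    · exact hY.trans (Nat.pow_le_pow_left (by nlinarith) s)
  · have h3 : (N : ℝ) ^ (1 - δ₀) ≤ (N : ℝ) ^ (1 - δ) := Real.rpow_le_rpow_of_exponent_le hNr (by linarith)
    refine (h3.trans hsize).trans ?_
    apply mul_le_mul_of_nonneg_left _ (mul_nonneg (prod_nonneg fun _ _ => Nat.cast_nonneg _) (Nat.cast_nonneg _))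
    push_cast
    nlinarith
  · -- the energy
    have e1 := hen M hM
    have e2 : energy q (fun i : {i // i ∈ S} => F.eval (((i : ℕ) : ℤ))) ≤
        Pool.Agent.H373R2.T7.energy q M (fun m => F.eval (m : ℤ)) := energy_le_T7 q M (fun m => F.eval (m : ℤ)) S hS
    have hZ' : (Z : ℝ) = (M : ℝ) ^ F.natDegree := by rw [hZ]; push_cast; rfl
    rw [← hZ'] at e1
    have e3 : (energy q (fun i : {i // i ∈ S} => F.eval (((i : ℕ) : ℤ))) : ℝ) * Z ≤ C * (M : ℝ) ^ (2 * q) :=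
      (mul_le_mul_of_nonneg_right (Nat.cast_le.2 e2) hZr.le).trans e1
    have e4 : (M : ℝ) ^ (2 * q) ≤ (N : ℝ) ^ (δ₀ / 4) * (S.card : ℝ) ^ (2 * q) := by
      have hMN : (M : ℝ) ≤ (N : ℝ) ^ (R : ℝ) := by
        rw [Real.rpow_natCast]
        exact_mod_cast hMZ.trans hYR
      have t1 : (M : ℝ) ≤ (N : ℝ) ^ (R * δ) * S.card := by
        calc (M : ℝ) = (M : ℝ) ^ δ * (M : ℝ) ^ (1 - δ) := by
              rw [← Real.rpow_add hM0, add_sub_cancel, Real.rpow_one]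
          _ ≤ (N : ℝ) ^ (R * δ) * S.card := by
              apply mul_le_mul _ hSc (by positivity) (by positivity)
              rw [Real.rpow_mul hN0.le]
              exact Real.rpow_le_rpow hM0.le hMN hδ0.le
      calc (M : ℝ) ^ (2 * q) ≤ ((N : ℝ) ^ (R * δ) * S.card) ^ (2 * q) := pow_le_pow_left₀ hM0.le t1 _
        _ = (N : ℝ) ^ (2 * (q * R * δ)) * (S.card : ℝ) ^ (2 * q) := by
            rw [mul_pow, ← Real.rpow_natCast ((N : ℝ) ^ (R * δ)), ← Real.rpow_mul hN0.le]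
            congr 2
            push_cast
            ring
        _ ≤ _ := by
            apply mul_le_mul_of_nonneg_right _ (by positivity)
            exact Real.rpow_le_rpow_of_exponent_le hNr (by linarith)
    have e5 := h2 N (by omega)
    have hu0 : (0 : ℝ) ≤ (∏ j, (U j : ℝ)) := prod_nonneg fun _ _ => Nat.cast_nonneg _
    have hb0 : (0 : ℝ) ≤ (B.card : ℝ) * ∏ j, ((A j).card : ℝ) :=
      mul_nonneg (Nat.cast_nonneg _) (prod_nonneg fun _ _ => Nat.cast_nonneg _)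
    calc (energy q (fun i : {i // i ∈ S} => F.eval (((i : ℕ) : ℤ))) : ℝ) * ((∏ j, (U j : ℝ)) * X * ((cf * Z : ℕ) : ℝ))
        = ((energy q (fun i : {i // i ∈ S} => F.eval (((i : ℕ) : ℤ))) : ℝ) * Z) * cf * ((∏ j, (U j : ℝ)) * X) := by
          push_cast
          ring
      _ ≤ (C * ((N : ℝ) ^ (δ₀ / 4) * (S.card : ℝ) ^ (2 * q))) * cf * ((N : ℝ) ^ δ * (B.card * ∏ j, ((A j).card : ℝ))) := by
          apply mul_le_mul _ hdens (mul_nonneg hu0 (Nat.cast_nonneg _)) (by positivity)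
          apply mul_le_mul_of_nonneg_right _ (by positivity)
          exact e3.trans (mul_le_mul_of_nonneg_left e4 hC.le)
      _ = (C * cf) * ((N : ℝ) ^ (δ₀ / 4) * (N : ℝ) ^ δ) * ((S.card : ℝ) ^ (2 * q) * (B.card * ∏ j, ((A j).card : ℝ))) := by ring
      _ ≤ (N : ℝ) ^ (δ₀ / 4) * ((N : ℝ) ^ (δ₀ / 4) * (N : ℝ) ^ δ) *
            ((S.card : ℝ) ^ (2 * q) * (B.card * ∏ j, ((A j).card : ℝ))) := by
          apply mul_le_mul_of_nonneg_right _ (by positivity)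
          exact mul_le_mul_of_nonneg_right e5 (by positivity)
      _ ≤ (N : ℝ) ^ δ₀ * ((S.card : ℝ) ^ (2 * q) * (B.card * ∏ j, ((A j).card : ℝ))) := by
          apply mul_le_mul_of_nonneg_right _ (by positivity)
          rw [← Real.rpow_add hN0, ← Real.rpow_add hN0]
          exact Real.rpow_le_rpow_of_exponent_le hNr (by linarith)
      _ = _ := by ring

end Pool.Agent.W5h23.HG
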