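import Pool.Agent.W5h23.HG.Main
import Pool.Agent.W5h80.Bil.D

set_option autoImplicit false

/-!
Sums of the geometric sums at frequencies near a fraction; the number of the frequencies `t / N` near fractions with small
denominators.
-/

namespace Pool.Agent.W5h23.HG

open Finset Filter
open Pool.Agent.TH668.Bil (full_sum)
open Pool.Agent.H469R2.NK (e norm_e e_add conj_e)
open Pool.Agent.W5h23.RG

/-- frequencies near a fraction -/
lemma ker_rat (β : ℝ) (r : ℚ) (hr : |β - r| ≤ 1 / ((r.den : ℝ) ^ 2)) (M n : ℕ) :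
    ∑ m ∈ Finset.Icc 1 M, ‖∑ j ∈ range n, e (j * (β * m))‖ ≤
      (2 * M / r.den + 1) * (2 * (n + 4 * r.den * (1 + Real.log (2 * r.den)))) := by
  obtain ⟨q, hq⟩ : ∃ q : ℕ, q = r.den := ⟨_, rfl⟩
  have hq1 : 1 ≤ q := by rw [hq]; exact r.den_pos
  have hq0 : (0 : ℝ) < q := by exact_mod_cast hq1
  rw [← hq] at hr ⊢
  have hsep : ∀ k : ℕ, 1 ≤ k → k < q / 2 + 1 → ∀ m : ℤ, 1 / (2 * (q : ℝ)) ≤ |β * k - m| := by
    intro k hk1 hk m
    have hk2 : 2 * k ≤ q := by omega
    have hkq : k < q := by omega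
    have hk0 : (0 : ℝ) < k := by exact_mod_cast hk1
    -- the fraction
    have h1 : 1 / (q : ℝ) ≤ |(r : ℝ) * k - m| := by
      have h2 : (r : ℝ) * k - m = ((r.num * k - m * q : ℤ) : ℝ) / q := by
        have h3 : (r : ℝ) = (r.num : ℝ) / q := by
          rw [hq]
          exact_mod_cast (Rat.num_div_den r).symm
        rw [h3]
        push_cast
        field_simp
      have h3 : r.num * k - m * q ≠ 0 := by
        intro h4
        have h5 : (q : ℤ) ∣ r.num * k := ⟨m, by linarith⟩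
        have h6 : IsCoprime (q : ℤ) r.num := by
          rw [hq]
          have h7 := r.reduced
          rw [Int.isCoprime_iff_gcd_eq_one, Int.gcd_comm]
          exact h7
        have h7 : (q : ℤ) ∣ k := h6.dvd_of_dvd_mul_left h5
        have h8 := Int.le_of_dvd (by omega) h7
        omega
      have h4 : (1 : ℝ) ≤ |((r.num * k - m * q : ℤ) : ℝ)| := by
        rw [← Int.cast_abs]
        exact_mod_cast Int.one_le_abs h3
      rw [h2, abs_div, abs_of_pos hq0]
      exact div_le_div_of_nonneg_right h4 hq0.le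
    have h2 : |(β - r) * k| ≤ 1 / (2 * (q : ℝ)) := by
      rw [abs_mul, abs_of_pos hk0]
      have h3 : (k : ℝ) ≤ q / 2 := by
        rw [le_div_iff₀ (by norm_num)]
        have : k * 2 ≤ q := by omega
        exact_mod_cast this
      calc |β - r| * k ≤ 1 / (q : ℝ) ^ 2 * (q / 2) := mul_le_mul hr h3 hk0.le (by positivity)
        _ = 1 / (2 * (q : ℝ)) := by field_simp
    have h3 : β * k - m = (r : ℝ) * k - m + (β - r) * k := by ring
    have h4 : |(r : ℝ) * k - m| ≤ |β * k - m| + |(β - r) * k| := by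
      have : (r : ℝ) * k - m = (β * k - m) - (β - r) * k := by ring
      rw [this]
      exact abs_sub _ _
    have h5 : 1 / (q : ℝ) = 1 / (2 * q) + 1 / (2 * q) := by field_simp; norm_num
    linarith
  have h1 := full_sum β (q / 2 + 1) M n (by omega) (1 / (2 * (q : ℝ))) (by positivity) hsep
  refine h1.trans ?_
  have h2 : ⌊1 / (1 / (2 * (q : ℝ)))⌋₊ = 2 * q := by
    rw [one_div_one_div]
    have : (2 * (q : ℝ)) = ((2 * q : ℕ) : ℝ) := by push_cast; ring
    rw [this, Nat.floor_natCast]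
  rw [h2]
  have h3 : (M : ℝ) / ((q / 2 + 1 : ℕ) : ℝ) ≤ 2 * M / q := by
    have h4 : (q : ℝ) / 2 ≤ ((q / 2 + 1 : ℕ) : ℝ) := by
      rw [div_le_iff₀ (by norm_num)]
      have : q ≤ (q / 2 + 1) * 2 := by omega
      exact_mod_cast this
    calc (M : ℝ) / ((q / 2 + 1 : ℕ) : ℝ) ≤ M / (q / 2) :=
          div_le_div_of_nonneg_left (Nat.cast_nonneg _) (by positivity) h4
      _ = 2 * M / q := by field_simp
  have h4 : 2 / (1 / (2 * (q : ℝ))) = 4 * q := by field_simp; norm_num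
  rw [h4]
  have h5 : 0 ≤ Real.log (2 * (q : ℝ)) := Real.log_nonneg (by
    have : (1 : ℝ) ≤ q := by exact_mod_cast hq1
    linarith)
  push_cast
  push_cast at h3
  apply mul_le_mul_of_nonneg_right _ (by positivity)
  linarith

/-- the minor arcs -/
lemma ker_minor (β : ℝ) (Q₁ Q₂ M n : ℕ) (h1 : 1 ≤ Q₁) (hn : 1 ≤ n) (r : ℚ) (hr : |β - r| ≤ 1 / ((Q₂ + 1) * (r.den : ℝ)))
    (hr2 : r.den ≤ Q₂) (hr1 : Q₁ < r.den) :
    ∑ m ∈ Finset.Icc 1 M, ‖∑ j ∈ range n, e (j * (β * m))‖ ≤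
      2 * n * (2 * M / Q₁ + 1) + (16 * M + 8 * Q₂) * (1 + Real.log (2 * Q₂)) := by
  obtain ⟨q, hq⟩ : ∃ q : ℕ, q = r.den := ⟨_, rfl⟩
  have hq1 : 1 ≤ q := by rw [hq]; exact r.den_pos
  have hq0 : (0 : ℝ) < q := by exact_mod_cast hq1
  rw [← hq] at hr hr2 hr1
  have hqQ : (q : ℝ) ≤ Q₂ := by exact_mod_cast hr2
  have hQ1 : (1 : ℝ) ≤ Q₁ := by exact_mod_cast h1
  have hQq : (Q₁ : ℝ) ≤ q := by exact_mod_cast hr1.le
  have hr' : |β - r| ≤ 1 / ((r.den : ℝ) ^ 2) := by
    rw [← hq]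
    refine hr.trans ?_
    apply one_div_le_one_div_of_le (by positivity)
    nlinarith
  refine (ker_rat β r hr' M n).trans ?_
  rw [← hq]
  have h2 : Real.log (2 * (q : ℝ)) ≤ Real.log (2 * (Q₂ : ℝ)) := Real.log_le_log (by positivity) (by linarith)
  have h3 : 0 ≤ Real.log (2 * (q : ℝ)) := Real.log_nonneg (by
    have : (1 : ℝ) ≤ q := by exact_mod_cast hq1
    linarith)
  obtain ⟨ℓ, hℓ⟩ : ∃ ℓ : ℝ, ℓ = 1 + Real.log (2 * (Q₂ : ℝ)) := ⟨_, rfl⟩
  have hℓ0 : 0 ≤ ℓ := by rw [hℓ]; linarith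
  have h4 : 2 * (M : ℝ) / q ≤ 2 * M / Q₁ := div_le_div_of_nonneg_left (by positivity) (by linarith) hQq
  calc (2 * (M : ℝ) / q + 1) * (2 * (n + 4 * q * (1 + Real.log (2 * q)))) =
      2 * n * (2 * M / q + 1) + (16 * M + 8 * q) * (1 + Real.log (2 * q)) := by
        field_simp
        ring
    _ ≤ 2 * n * (2 * M / Q₁ + 1) + (16 * M + 8 * Q₂) * ℓ := by
        apply add_le_add
        · apply mul_le_mul_of_nonneg_left _ (by positivity)
          linarith
        · apply mul_le_mul _ _ (by linarith) (by positivity)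
          · linarith
          · rw [hℓ]
            linarith
    _ = _ := by rw [hℓ]

open Classical in
/-- the major arcs -/
noncomputable def maj (N : ℕ) [NeZero N] (a : ℤ) (Q₁ Q₂ : ℕ) : Finset (ZMod N) :=
  univ.filter fun t => ∃ r : ℚ, r.den ≤ Q₁ ∧ |((t.val : ℝ) / N * a) - r| ≤ 1 / ((Q₂ + 1) * (r.den : ℝ))

lemma maj_card (N : ℕ) [NeZero N] (a : ℤ) (ha : a ≠ 0) (Q₁ Q₂ : ℕ) :
    (maj N a Q₁ Q₂).card ≤ Q₁ * ((2 * (N / (Q₂ + 1)) + 1) * (2 * (a.natAbs * Q₁ + N / (Q₂ + 1)) + 1)) := by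
  classical
  have hN : 0 < N := Nat.pos_of_ne_zero (NeZero.ne N)
  obtain ⟨L, hL⟩ : ∃ L : ℕ, L = N / (Q₂ + 1) := ⟨_, rfl⟩
  rw [← hL]
  have hch : ∀ t : ZMod N, t ∈ maj N a Q₁ Q₂ → ∃ r : ℚ, r.den ≤ Q₁ ∧ |((t.val : ℝ) / N * a) - r| ≤ 1 / ((Q₂ + 1) * (r.den : ℝ)) :=
    fun t ht => (mem_filter.1 ht).2
  choose! ρ hρ1 hρ2 using hch
  have hbox : ((Finset.Icc 1 Q₁) ×ˢ ((Finset.Icc (-(L : ℤ)) L) ×ˢ
      (Finset.Icc (-((a.natAbs * Q₁ + L : ℕ) : ℤ)) ((a.natAbs * Q₁ + L : ℕ) : ℤ)))).card =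
      Q₁ * ((2 * L + 1) * (2 * (a.natAbs * Q₁ + L) + 1)) := by
    rw [card_product, card_product, Nat.card_Icc, Int.card_Icc, Int.card_Icc]
    congr 1
    congr 1
    · omega
    · omega
  rw [← hbox]
  apply card_le_card_of_injOn (fun t => ((ρ t).den, ((a * (ρ t).den * (t.val : ℤ) - (ρ t).num * N), (ρ t).num)))
  · intro t ht
    rw [mem_coe] at ht
    have h1 := hρ1 t ht
    have h2 := hρ2 t ht
    obtain ⟨r, hr⟩ : ∃ r : ℚ, r = ρ t := ⟨_, rfl⟩
    rw [← hr] at h1 h2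
    show ((ρ t).den, ((a * (ρ t).den * (t.val : ℤ) - (ρ t).num * N), (ρ t).num)) ∈ (_ : Set _)
    rw [← hr]
    have hd : 0 < r.den := r.den_pos
    have hd0 : (0 : ℝ) < r.den := by exact_mod_cast hd
    have hNr : (0 : ℝ) < N := by exact_mod_cast hN
    have hs : |a * r.den * (t.val : ℤ) - r.num * N| ≤ (L : ℤ) := by
      have h3 : ((|a * r.den * (t.val : ℤ) - r.num * N| : ℤ) : ℝ) ≤ (N : ℝ) / (Q₂ + 1) := by
        rw [Int.cast_abs]
        have h4 : ((a * r.den * (t.val : ℤ) - r.num * N : ℤ) : ℝ) = (((t.val : ℝ) / N * a) - r) * (r.den * N) := by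
          have h5 : (r : ℝ) = (r.num : ℝ) / r.den := by exact_mod_cast (Rat.num_div_den r).symm
          rw [h5]
          push_cast
          field_simp
        rw [h4, abs_mul, abs_of_pos (by positivity : (0 : ℝ) < r.den * N)]
        calc |(t.val : ℝ) / N * a - r| * (r.den * N) ≤ 1 / ((Q₂ + 1) * (r.den : ℝ)) * (r.den * N) :=
              mul_le_mul_of_nonneg_right h2 (by positivity)
          _ = (N : ℝ) / (Q₂ + 1) := by field_simp
      have h5 : (|a * r.den * (t.val : ℤ) - r.num * N|).toNat ≤ L := by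
        rw [hL, Nat.le_div_iff_mul_le (by omega)]
        have h6 : (((|a * r.den * (t.val : ℤ) - r.num * N|).toNat * (Q₂ + 1) : ℕ) : ℝ) ≤ (N : ℝ) := by
          push_cast
          rw [← le_div_iff₀ (by positivity)]
          have h7 : (((|a * r.den * (t.val : ℤ) - r.num * N|).toNat : ℕ) : ℝ) = ((|a * r.den * (t.val : ℤ) - r.num * N| : ℤ) : ℝ) := by
            have h8 := Int.toNat_of_nonneg (abs_nonneg (a * r.den * (t.val : ℤ) - r.num * N))
            exact_mod_cast congrArg (Int.cast : ℤ → ℝ) h8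
          rw [h7]
          exact h3
        exact_mod_cast h6
      have h6 := Int.toNat_of_nonneg (abs_nonneg (a * r.den * (t.val : ℤ) - r.num * N))
      omega
    have hval : (t.val : ℤ) ≤ N := by exact_mod_cast (ZMod.val_lt t).le
    have hnum : |r.num| ≤ ((a.natAbs * Q₁ + L : ℕ) : ℤ) := by
      have h3 : |r.num| * N ≤ ((a.natAbs * Q₁ + L : ℕ) : ℤ) * N := by
        have h4 : |r.num| * N = |r.num * N| := by rw [abs_mul, Nat.abs_cast]
        have h5 : |r.num * N| ≤ |a * r.den * (t.val : ℤ)| + |a * r.den * (t.val : ℤ) - r.num * N| := by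
          have : r.num * N = a * r.den * (t.val : ℤ) - (a * r.den * (t.val : ℤ) - r.num * N) := by ring
          calc |r.num * N| = |a * r.den * (t.val : ℤ) - (a * r.den * (t.val : ℤ) - r.num * N)| := by rw [← this]
            _ ≤ _ := abs_sub _ _
        have h6 : |a * r.den * (t.val : ℤ)| ≤ a.natAbs * Q₁ * N := by
          rw [abs_mul, abs_mul, Nat.abs_cast, Nat.abs_cast, ← Int.natCast_natAbs]
          have h7 : (r.den : ℤ) ≤ Q₁ := by exact_mod_cast h1
          apply mul_le_mul _ hval (by positivity) (by positivity)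
          exact mul_le_mul_of_nonneg_left h7 (by positivity)
        have h7 : (L : ℤ) ≤ L * N := by
          have : (1 : ℤ) ≤ N := by exact_mod_cast hN
          nlinarith [(Nat.cast_nonneg L : (0 : ℤ) ≤ L)]
        rw [h4]
        push_cast
        push_cast at h6
        nlinarith
      exact le_of_mul_le_mul_right h3 (by exact_mod_cast hN)
    rw [mem_coe, mem_product, mem_product, Finset.mem_Icc, Finset.mem_Icc, Finset.mem_Icc]
    exact ⟨⟨hd, h1⟩, abs_le.1 hs, abs_le.1 hnum⟩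
  · intro t ht t' ht' heq
    simp only [Prod.mk.injEq] at heq
    obtain ⟨h1, h2, h3⟩ := heq
    have hd : 0 < (ρ t').den := (ρ t').den_pos
    rw [h1, h3] at h2
    have h4 : a * (ρ t').den * (t.val : ℤ) = a * (ρ t').den * (t'.val : ℤ) := by linarith
    have h5 : a * ((ρ t').den : ℤ) ≠ 0 := mul_ne_zero ha (by exact_mod_cast hd.ne')
    have h6 : (t.val : ℤ) = t'.val := mul_left_cancel₀ h5 h4
    have h7 : t.val = t'.val := by exact_mod_cast h6
    exact ZMod.val_injective N h7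

end Pool.Agent.W5h23.HG
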