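import Pool.Agent.W5h23.HG.Energy

set_option autoImplicit false

/-!
The additive energy of the families `a x₁ ⋯ x_r v(i) b + (functions of all variables but one)` along cliques: the theorem.
-/

namespace Pool.Agent.W5h23.HG

open Finset Filter
open Pool.Agent.H469R2.NK (e norm_e e_add conj_e)
open Pool.Agent.W5h23.RG

lemma root_le (N x s : ℕ) (hs : 1 ≤ s) (h : N ≤ x ^ s) : (N : ℝ) ^ (1 / (s : ℝ)) ≤ x := by
  have hs0 : (0 : ℝ) < s := by exact_mod_cast hs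
  have h1 : (N : ℝ) ≤ (x : ℝ) ^ (s : ℝ) := by
    rw [Real.rpow_natCast]
    exact_mod_cast h
  calc (N : ℝ) ^ (1 / (s : ℝ)) ≤ ((x : ℝ) ^ (s : ℝ)) ^ (1 / (s : ℝ)) := Real.rpow_le_rpow (Nat.cast_nonneg _) h1 (by positivity)
    _ = x := by
        rw [← Real.rpow_mul (Nat.cast_nonneg _), mul_one_div_cancel hs0.ne', Real.rpow_one]

set_option maxHeartbeats 4000000 in
/-- **The additive energy along cliques.** -/
theorem energy_clq (κ : ℝ) (hκ : 0 < κ) (r h s R : ℕ) (hh : 1 ≤ h) (hs : 1 ≤ s) (a : ℤ) (ha : a ≠ 0) :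
    ∃ (p : ℕ) (δ : ℝ), 1 ≤ p ∧ 0 < δ ∧ ∃ N₀ : ℕ, ∀ N : ℕ, N₀ ≤ N →
      ∀ (ι : Type) [Fintype ι] (v : ι → ℤ) (X Y : ℕ) (B : Finset ℕ) (A : Fin r → Finset ℕ) (U : Fin r → ℕ),
      (∀ i, |v i| ≤ Y) → (∀ b ∈ B, b ≤ X) → (∀ j, ∀ x ∈ A j, x ≤ U j) → (∀ j, U j ≤ N ^ R) → X ≤ N ^ R → Y ≤ N ^ R →
      N ≤ X ^ s → N ≤ Y ^ s → (∀ j, N ≤ (A j).card ^ s) →
      (N : ℝ) ^ (1 - δ) ≤ (∏ j, (U j : ℝ)) * X * Y →
      (energy h v : ℝ) * ((∏ j, (U j : ℝ)) * X * Y) ≤
        (N : ℝ) ^ δ * ((Fintype.card ι : ℝ) ^ (2 * h) * B.card * ∏ j, ((A j).card : ℝ)) →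
      ∀ (P : Fin r → (Fin r → ℕ) → ι → ℕ → Prop) (P' : (Fin r → ℕ) → ι → Prop) (P'' : (Fin r → ℕ) → ℕ → Prop),
      (∀ j x t, P j (Function.update x j t) = P j x) →
      ∀ T : Finset ((Fin r → ℕ) × ι × ℕ), (∀ t, t ∈ T ↔ Clq A B P P' P'' t) →
      (Fintype.card ι : ℝ) * B.card * (∏ j, ((A j).card : ℝ)) * (N : ℝ) ^ (-δ) ≤ T.card →
      ∀ (F : Fin r → (Fin r → ℕ) → ι → ℕ → ℤ) (G : (Fin r → ℕ) → ι → ℤ) (H : (Fin r → ℕ) → ℕ → ℤ),
      (∀ j x t, F j (Function.update x j t) = F j x) →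
      (energy p (fun t : {t // t ∈ T} => ival a v F G H t) : ℝ) * N ≤ (N : ℝ) ^ κ * (T.card : ℝ) ^ (2 * p) := by
  classical
  have hs0 : (0 : ℝ) < s := by exact_mod_cast hs
  obtain ⟨σ, hσ⟩ : ∃ σ : ℝ, σ = 1 / (s : ℝ) := ⟨_, rfl⟩
  have hσ0 : 0 < σ := by rw [hσ]; positivity
  have hσ1 : σ ≤ 1 := by
    rw [hσ, div_le_one hs0]
    exact_mod_cast hs
  obtain ⟨c, hc⟩ : ∃ c : ℝ, c = min (κ / 8) (min σ (1 / 4)) := ⟨_, rfl⟩
  have hc0 : 0 < c := by rw [hc]; positivity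
  have hcκ : 8 * c ≤ κ := by
    have : c ≤ κ / 8 := by rw [hc]; exact min_le_left _ _
    linarith
  have hcσ : c ≤ σ := by rw [hc]; exact (min_le_right _ _).trans (min_le_left _ _)
  have hc4 : c ≤ 1 / 4 := by rw [hc]; exact (min_le_right _ _).trans (min_le_right _ _)
  obtain ⟨δ₁, hδ₁⟩ : ∃ δ₁ : ℝ, δ₁ = c / 8 := ⟨_, rfl⟩
  have hδ₁0 : 0 < δ₁ := by rw [hδ₁]; positivity
  obtain ⟨t₀, ht₀⟩ := exists_nat_ge (2 / c)
  have ht₀1 : (1 : ℝ) ≤ t₀ * (c / 2) := by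
    rw [div_le_iff₀ hc0] at ht₀
    linarith
  have ht₀0 : 1 ≤ t₀ := by
    by_contra h0
    have : t₀ = 0 := by omega
    rw [this] at ht₀1
    norm_num at ht₀1
  obtain ⟨m, hm⟩ : ∃ m : ℕ, m = 4 * h * 2 ^ r := ⟨_, rfl⟩
  obtain ⟨p, hp⟩ : ∃ p : ℕ, p = 2 * h * 2 ^ r * t₀ := ⟨_, rfl⟩
  have hmp : 2 * p = m * t₀ := by rw [hm, hp]; ring
  have hp1 : 1 ≤ p := by
    rw [hp]
    exact Nat.one_le_iff_ne_zero.mpr (by positivity)
  have hp0 : (0 : ℝ) < p := by exact_mod_cast hp1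
  obtain ⟨δ, hδ⟩ : ∃ δ : ℝ, δ = min δ₁ (c / (2 * p)) := ⟨_, rfl⟩
  have hδ0 : 0 < δ := by rw [hδ]; positivity
  have hδ1 : δ ≤ δ₁ := by rw [hδ]; exact min_le_left _ _
  have hδp : 2 * p * δ ≤ c := by
    have : δ ≤ c / (2 * p) := by rw [hδ]; exact min_le_right _ _
    rw [le_div_iff₀ (by positivity)] at this
    linarith
  refine ⟨p, δ, hp1, hδ0, ?_⟩
  -- the divisor bound
  obtain ⟨η₁, hη₁⟩ : ∃ η₁ : ℝ, η₁ = δ₁ / 2 / (r * (r * R + R) + 1) := ⟨_, rfl⟩
  have hη₁0 : 0 < η₁ := by rw [hη₁]; positivity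
  have hη₁r : r * ((r * R + R) * η₁) ≤ δ₁ / 2 := by
    have : (r * (r * R + R) + 1) * η₁ = δ₁ / 2 := by
      rw [hη₁]
      field_simp
    nlinarith
  obtain ⟨Cd, hCd0, hCd⟩ := Pool.Agent.H369R2.divisor_bound η₁ hη₁0
  obtain ⟨D, hD⟩ : ∃ D : ℝ, D = r + (2 * h + 1) * 2 ^ (r + 1) := ⟨_, rfl⟩
  have hD0 : 0 ≤ D := by rw [hD]; positivity
  have hlim : ∀ x : ℝ, 0 < x → Tendsto (fun N : ℕ => (N : ℝ) ^ x) atTop atTop := fun x hx =>
    (tendsto_rpow_atTop hx).comp tendsto_natCast_atTop_atTop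
  have hlog : ∀ᶠ N : ℕ in atTop, 1 + Real.log (2 * ((2 * h + 1 : ℝ) * (N : ℝ) ^ (r * R + 2 * R))) ≤ (N : ℝ) ^ δ₁ := by
    have h1 : Tendsto (fun N : ℝ => Real.log N / N ^ δ₁) atTop (nhds 0) :=
      (isLittleO_log_rpow_atTop hδ₁0).tendsto_div_nhds_zero
    have h2 : ∀ᶠ N : ℝ in atTop, Real.log N / N ^ δ₁ < 1 / (2 * (r * R + 2 * R + 1)) :=
      h1.eventually (gt_mem_nhds (by positivity))
    filter_upwards [(tendsto_natCast_atTop_atTop (R := ℝ)).eventually h2, eventually_ge_atTop 1,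
      (hlim δ₁ hδ₁0).eventually_ge_atTop (2 * (1 + Real.log (2 * (2 * h + 1))))] with N hN hN1 hN3
    have hN0 : (0 : ℝ) < N := by exact_mod_cast hN1
    have hNη : 0 < (N : ℝ) ^ δ₁ := by positivity
    rw [div_lt_iff₀ hNη] at hN
    have hlogN : 0 ≤ Real.log (N : ℝ) := Real.log_natCast_nonneg _
    have e1 : Real.log (2 * ((2 * h + 1 : ℝ) * (N : ℝ) ^ (r * R + 2 * R))) =
        Real.log (2 * (2 * h + 1)) + (r * R + 2 * R : ℕ) * Real.log N := by
      rw [← mul_assoc, Real.log_mul (by positivity) (by positivity), Real.log_pow]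
    rw [e1]
    push_cast
    have e2 : (r * R + 2 * R : ℝ) * Real.log N ≤ (N : ℝ) ^ δ₁ / 2 := by
      have e3 : (r * R + 2 * R : ℝ) * Real.log N ≤ (r * R + 2 * R + 1 : ℝ) * Real.log N :=
        mul_le_mul_of_nonneg_right (by linarith) hlogN
      have e4 : (r * R + 2 * R + 1 : ℝ) * Real.log N ≤ (r * R + 2 * R + 1 : ℝ) * (1 / (2 * (r * R + 2 * R + 1)) * (N : ℝ) ^ δ₁) :=
        mul_le_mul_of_nonneg_left hN.le (by positivity)
      have e5 : (r * R + 2 * R + 1 : ℝ) * (1 / (2 * (r * R + 2 * R + 1)) * (N : ℝ) ^ δ₁) = (N : ℝ) ^ δ₁ / 2 := by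
        field_simp
      linarith
    linarith
  apply eventually_atTop.mp
  filter_upwards [hlog, eventually_ge_atTop 2, (hlim (δ₁ / 2) (by positivity)).eventually_ge_atTop (Cd ^ r),
    (hlim δ₁ hδ₁0).eventually_ge_atTop (33 * D),
    (hlim c hc0).eventually_ge_atTop (24 * (a.natAbs : ℝ) + 19)] with N hNlog hN2 hNC hND hNa
  intro ι _ v X Y B A U hv hB hA hU hXR hYR hX hY hAc hsize hE P P' P'' hP T hT hTc F G H hF
  have hN1 : 1 ≤ N := by omega
  have hNr : (1 : ℝ) ≤ N := by exact_mod_cast hN1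
  have hN0 : (0 : ℝ) < N := by linarith
  haveI : NeZero N := ⟨by omega⟩
  have hmom := energy_moment N p T (fun t => ival a v F G H t)
  -- the trivial case
  rcases T.eq_empty_or_nonempty with hT0 | hTne
  · refine hmom.trans ?_
    rw [hT0]
    simp only [sum_empty, norm_zero, card_empty, Nat.cast_zero]
    rw [zero_pow (by omega)]
    simp
  have hi0 : 0 < Fintype.card ι := by
    obtain ⟨t, _⟩ := hTne
    exact Fintype.card_pos_iff.2 ⟨t.2.1⟩
  have hb0 : 0 < B.card := by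
    obtain ⟨t, ht⟩ := hTne
    exact card_pos.2 ⟨t.2.2, ((hT t).1 ht).2.1⟩
  have hA2 : ∀ j, 2 ≤ (A j).card := by
    intro j
    have h1 := hAc j
    by_contra h2
    have h3 : (A j).card ≤ 1 := by omega
    have h4 : (A j).card ^ s ≤ 1 := Nat.pow_le_one_iff (by omega) |>.2 h3
    omega
  have hA0 : ∀ j, 0 < (A j).card := fun j => by have := hA2 j; omega
  have hAU : ∀ j, (A j).card ≤ 2 * U j := by
    intro j
    have h1 : (A j).card ≤ U j + 1 := by
      have h2 : A j ⊆ range (U j + 1) := fun x hx => by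
        rw [mem_range]
        have := hA j x hx
        omega
      have := card_le_card h2
      rwa [card_range] at this
    have := hA2 j
    omega
  have hU1 : ∀ j, 1 ≤ U j := by
    intro j
    have h1 := hAU j
    have h2 := hA2 j
    omega
  obtain ⟨I, hIdef⟩ : ∃ I : ℝ, I = (Fintype.card ι : ℝ) := ⟨_, rfl⟩
  obtain ⟨J, hJdef⟩ : ∃ J : ℝ, J = (B.card : ℝ) := ⟨_, rfl⟩
  obtain ⟨a₀, hadef⟩ : ∃ a₀ : ℝ, a₀ = ∏ j, ((A j).card : ℝ) := ⟨_, rfl⟩
  obtain ⟨u, hudef⟩ : ∃ u : ℝ, u = ∏ j, (U j : ℝ) := ⟨_, rfl⟩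
  obtain ⟨E, hEdef⟩ : ∃ E : ℝ, E = (energy h v : ℝ) := ⟨_, rfl⟩
  rw [← hIdef, ← hJdef, ← hadef, ← hudef, ← hEdef] at hE
  rw [← hudef] at hsize
  rw [← hIdef, ← hJdef, ← hadef] at hTc
  have hI : 0 < I := by rw [hIdef]; exact_mod_cast hi0
  have hJ : 0 < J := by rw [hJdef]; exact_mod_cast hb0
  have ha₀ : 0 < a₀ := by rw [hadef]; exact prod_pos fun j _ => by exact_mod_cast hA0 j
  have hu : 0 < u := by rw [hudef]; exact prod_pos fun j _ => by exact_mod_cast hU1 j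
  have hW1 : 1 ≤ ∏ j, U j := Nat.one_le_iff_ne_zero.mpr (prod_ne_zero_iff.2 fun j _ => by have := hU1 j; omega)
  have huW : u = ((∏ j, U j : ℕ) : ℝ) := by rw [hudef]; push_cast; rfl
  have hu1 : 1 ≤ u := by rw [huW]; exact_mod_cast hW1
  have hE0 : 0 ≤ E := by rw [hEdef]; exact Nat.cast_nonneg _
  have hau : a₀ ≤ 2 ^ r * u := by
    have h1 : a₀ ≤ ∏ j : Fin r, (2 * (U j : ℝ)) := by
      rw [hadef]
      exact prod_le_prod (fun _ _ => Nat.cast_nonneg _) fun j _ => by exact_mod_cast hAU j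
    rw [prod_mul_distrib, prod_const, card_univ, Fintype.card_fin, ← hudef] at h1
    exact h1
  have hXσ : (N : ℝ) ^ σ ≤ X := by rw [hσ]; exact root_le N X s hs hX
  have hYσ : (N : ℝ) ^ σ ≤ Y := by rw [hσ]; exact root_le N Y s hs hY
  have hNσ : 1 ≤ (N : ℝ) ^ σ := Real.one_le_rpow hNr hσ0.le
  have hX1 : (1 : ℝ) ≤ X := hNσ.trans hXσ
  have hY1 : (1 : ℝ) ≤ Y := hNσ.trans hYσ
  obtain ⟨K, hKdef⟩ : ∃ K : ℝ, K = 2 * E / (I ^ (2 * h) * J) := ⟨_, rfl⟩
  have hK0 : 0 ≤ K := by rw [hKdef]; positivity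
  have hKeq : K * (I ^ (2 * h) * J) = 2 * E := by
    rw [hKdef]
    field_simp
  have hNδ : (N : ℝ) ^ δ ≤ (N : ℝ) ^ δ₁ := Real.rpow_le_rpow_of_exponent_le hNr hδ1
  have hK1 : K * (u * X * Y) ≤ 2 * (N : ℝ) ^ δ₁ * a₀ := by
    have hIJ : 0 < I ^ (2 * h) * J := by positivity
    have h1 : (K * (u * X * Y)) * (I ^ (2 * h) * J) ≤ (2 * (N : ℝ) ^ δ₁ * a₀) * (I ^ (2 * h) * J) := by
      calc (K * (u * X * Y)) * (I ^ (2 * h) * J) = (K * (I ^ (2 * h) * J)) * (u * X * Y) := by ring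
        _ = 2 * (E * (u * X * Y)) := by rw [hKeq]; ring
        _ ≤ 2 * ((N : ℝ) ^ δ * (I ^ (2 * h) * J * a₀)) := by linarith
        _ ≤ 2 * ((N : ℝ) ^ δ₁ * (I ^ (2 * h) * J * a₀)) := by
            have := mul_le_mul_of_nonneg_right hNδ (by positivity : 0 ≤ I ^ (2 * h) * J * a₀)
            linarith
        _ = _ := by ring
    exact le_of_mul_le_mul_right h1 hIJ
  have hKXY : K * X * Y ≤ 2 ^ (r + 1) * (N : ℝ) ^ δ₁ := by
    have y1 : (K * X * Y) * u ≤ (2 ^ (r + 1) * (N : ℝ) ^ δ₁) * u := by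
      calc (K * X * Y) * u = K * (u * X * Y) := by ring
        _ ≤ 2 * (N : ℝ) ^ δ₁ * a₀ := hK1
        _ ≤ 2 * (N : ℝ) ^ δ₁ * (2 ^ r * u) := mul_le_mul_of_nonneg_left hau (by positivity)
        _ = _ := by ring
    exact le_of_mul_le_mul_right y1 hu
  -- the sizes
  obtain ⟨H₀, hH₀⟩ : ∃ H₀ : ℕ, H₀ = h * Y := ⟨_, rfl⟩
  obtain ⟨n, hn⟩ : ∃ n : ℕ, n = 2 * H₀ + 1 := ⟨_, rfl⟩
  obtain ⟨M, hM⟩ : ∃ M : ℕ, M = (∏ j, U j) * X := ⟨_, rfl⟩
  have hMr : (M : ℝ) = u * X := by rw [hM, huW]; push_cast; rfl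
  have hn1 : 1 ≤ n := by omega
  have hnr : (n : ℝ) ≤ (2 * h + 1) * Y := by
    rw [hn, hH₀]
    push_cast
    nlinarith
  have hnY : (Y : ℝ) ≤ n := by
    rw [hn, hH₀]
    push_cast
    have : (1 : ℝ) ≤ h := by exact_mod_cast hh
    nlinarith
  have hn0 : (0 : ℝ) < n := by exact_mod_cast hn1
  have hM0 : (0 : ℝ) < M := by rw [hMr]; positivity
  have hMX : (X : ℝ) ≤ M := by rw [hMr]; nlinarith
  have hMn : (N : ℝ) ^ (1 - δ) ≤ M * n := by
    refine hsize.trans ?_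
    rw [hMr]
    exact mul_le_mul_of_nonneg_left hnY (by positivity)
  have hNc : 0 < (N : ℝ) ^ c := by positivity
  obtain ⟨Q₁, hQ₁⟩ : ∃ Q₁ : ℕ, Q₁ = ⌈(N : ℝ) ^ c⌉₊ := ⟨_, rfl⟩
  obtain ⟨Q₂, hQ₂⟩ : ∃ Q₂ : ℕ, Q₂ = ⌊(M : ℝ) * n / (N : ℝ) ^ c⌋₊ := ⟨_, rfl⟩
  have hQ₁le : (N : ℝ) ^ c ≤ Q₁ := by rw [hQ₁]; exact Nat.le_ceil _
  have hNc1 : 1 ≤ (N : ℝ) ^ c := Real.one_le_rpow hNr hc0.le
  have hQ₁up : (Q₁ : ℝ) ≤ 2 * (N : ℝ) ^ c := by
    rw [hQ₁]
    have := Nat.ceil_lt_add_one (show 0 ≤ (N : ℝ) ^ c by positivity)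
    linarith
  have hQ₁1 : 1 ≤ Q₁ := by
    have : (1 : ℝ) ≤ Q₁ := hNc1.trans hQ₁le
    exact_mod_cast this
  have hQ₂le : (Q₂ : ℝ) ≤ M * n / (N : ℝ) ^ c := by rw [hQ₂]; exact Nat.floor_le (by positivity)
  have hQ₂gt : (M : ℝ) * n / (N : ℝ) ^ c < Q₂ + 1 := by rw [hQ₂]; exact Nat.lt_floor_add_one _
  have hδc : δ + c ≤ 1 := by linarith
  have hQ₂1 : 1 ≤ Q₂ := by
    have h1 : (1 : ℝ) ≤ M * n / (N : ℝ) ^ c := by
      rw [le_div_iff₀ hNc, one_mul]
      refine le_trans ?_ hMn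
      exact Real.rpow_le_rpow_of_exponent_le hNr (by linarith)
    rw [hQ₂]
    exact Nat.one_le_floor_iff _ |>.2 h1
  -- the major arcs
  have hmaj : ((maj N a Q₁ Q₂).card : ℝ) + 1 ≤ (24 * (a.natAbs : ℝ) + 19) * (N : ℝ) ^ (3 * c + 2 * δ₁) := by
    have h1 := maj_card N a ha Q₁ Q₂
    obtain ⟨L, hL⟩ : ∃ L : ℕ, L = N / (Q₂ + 1) := ⟨_, rfl⟩
    rw [← hL] at h1
    have hLr : (L : ℝ) ≤ (N : ℝ) ^ (c + δ₁) := by
      have h2 : (L : ℝ) ≤ N / (Q₂ + 1) := by
        rw [hL]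
        have := @Nat.cast_div_le ℝ _ _ _ N (Q₂ + 1)
        push_cast at this
        exact this
      refine h2.trans ?_
      rw [div_le_iff₀ (by positivity)]
      have h3 : (N : ℝ) ≤ (N : ℝ) ^ (c + δ₁) * (M * n / (N : ℝ) ^ c) := by
        calc (N : ℝ) = (N : ℝ) ^ δ * (N : ℝ) ^ (1 - δ) := by
              rw [← Real.rpow_add hN0, add_sub_cancel, Real.rpow_one]
          _ ≤ (N : ℝ) ^ δ₁ * (M * n) := mul_le_mul hNδ hMn (by positivity) (by positivity)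
          _ = (N : ℝ) ^ (c + δ₁) * (M * n / (N : ℝ) ^ c) := by
              rw [Real.rpow_add hN0]
              field_simp
      refine h3.trans ?_
      exact mul_le_mul_of_nonneg_left hQ₂gt.le (by positivity)
    have h2 : ((maj N a Q₁ Q₂).card : ℝ) ≤ Q₁ * ((2 * L + 1) * (2 * (a.natAbs * Q₁ + L) + 1)) := by exact_mod_cast h1
    obtain ⟨α, hα⟩ : ∃ α : ℝ, α = (a.natAbs : ℝ) := ⟨_, rfl⟩
    have hα0 : 0 ≤ α := by rw [hα]; exact Nat.cast_nonneg _
    rw [← hα] at h2 ⊢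
    obtain ⟨x, hx⟩ : ∃ x : ℝ, x = (N : ℝ) ^ c := ⟨_, rfl⟩
    obtain ⟨y, hy⟩ : ∃ y : ℝ, y = (N : ℝ) ^ (c + δ₁) := ⟨_, rfl⟩
    have hxy : x ≤ y := by rw [hx, hy]; exact Real.rpow_le_rpow_of_exponent_le hNr (by linarith)
    have hx1 : 1 ≤ x := by rw [hx]; exact hNc1
    rw [← hx] at hQ₁up
    rw [← hy] at hLr
    have hL0 : (0 : ℝ) ≤ L := Nat.cast_nonneg _
    have hQ0 : (0 : ℝ) ≤ Q₁ := Nat.cast_nonneg _
    have hx0 : 0 ≤ x := by linarith
    have hy0 : 0 ≤ y := by linarith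
    have h3 : (Q₁ : ℝ) * ((2 * L + 1) * (2 * (α * Q₁ + L) + 1)) ≤ (2 * x) * ((3 * y) * ((4 * α + 3) * y)) := by
      apply mul_le_mul hQ₁up _ (by positivity) (by positivity)
      apply mul_le_mul (by linarith) _ (by positivity) (by positivity)
      have h4 : α * Q₁ ≤ α * (2 * y) := mul_le_mul_of_nonneg_left (by linarith) hα0
      nlinarith
    have h5 : x * (y * y) = (N : ℝ) ^ (3 * c + 2 * δ₁) := by
      rw [hx, hy, ← Real.rpow_add hN0, ← Real.rpow_add hN0]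
      congr 1
      ring
    have h6 : 1 ≤ x * (y * y) := by
      have : 1 ≤ y := by linarith
      nlinarith
    rw [← h5]
    calc ((maj N a Q₁ Q₂).card : ℝ) + 1 ≤ (2 * x) * ((3 * y) * ((4 * α + 3) * y)) + x * (y * y) := by linarith
      _ = (24 * α + 19) * (x * (y * y)) := by ring
  -- the bound for one frequency
  have hP0 : 0 ≤ I * J * a₀ := by positivity
  have hsv : ∀ x : Fin h → ι, |∑ j, v (x j)| ≤ (H₀ : ℤ) := by
    intro x
    refine (abs_sum_le_sum_abs _ _).trans ?_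
    refine (sum_le_sum fun j _ => hv (x j)).trans (le_of_eq ?_)
    rw [sum_const, card_univ, Fintype.card_fin, nsmul_eq_mul, hH₀]
    push_cast
    ring
  have hone : ∀ t : ZMod N, ‖∑ x ∈ T, e ((t.val : ℝ) / N * ((ival a v F G H x : ℤ) : ℝ))‖ ^ (2 * p) ≤
      (I * J * a₀) ^ (2 * p) * (if t ∈ maj N a Q₁ Q₂ then 1 else (N : ℝ) ^ (-(1 : ℝ))) := by
    intro t
    obtain ⟨cc, hcc, hsum⟩ := sum_iclq A B P P' P'' hP T hT a ((t.val : ℝ) / N) v F G H hF
    rw [hsum]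
    split_ifs with ht
    · rw [mul_one]
      apply pow_le_pow_left₀ (norm_nonneg _)
      have h1 := Sm_trivial A B v ((t.val : ℝ) / N * a) cc hcc
      rw [← hIdef, ← hJdef, ← hadef] at h1
      exact h1
    · -- a rational approximation
      obtain ⟨ρ, hρ1, hρ2⟩ := Real.exists_rat_abs_sub_le_and_den_le ((t.val : ℝ) / N * a) (show 0 < Q₂ by omega)
      have hρ3 : Q₁ < ρ.den := by
        by_contra hcon
        apply ht
        unfold maj
        rw [mem_filter]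
        exact ⟨mem_univ _, ρ, by omega, hρ1⟩
      have hS := ker_minor ((t.val : ℝ) / N * a) Q₁ Q₂ M n hQ₁1 hn1 ρ hρ1 hρ2 hρ3
      have hbd := Sm_bound h H₀ X hh v hsv B hB hi0 hb0 K hK0 (by rw [← hIdef, ← hJdef, ← hEdef]; exact hKeq.ge)
        r A U hA hA0 ((t.val : ℝ) / N * a) cc hcc
      rw [← hm, ← hIdef, ← hJdef, ← hadef] at hbd
      have g1 := Gs_le U H₀ X ((t.val : ℝ) / N * a) Cd η₁ hCd0.le hη₁0.le hCd
      obtain ⟨S, hSdef⟩ : ∃ S : ℝ, S = ∑ m ∈ Finset.Icc 1 M, ‖∑ j ∈ range n, e (j * ((t.val : ℝ) / N * a * m))‖ := ⟨_, rfl⟩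
      have hS0 : 0 ≤ S := by rw [hSdef]; exact sum_nonneg fun _ _ => norm_nonneg _
      have g3 : ∑ m ∈ Finset.Icc 1 ((∏ j, U j) * X), ker H₀ ((t.val : ℝ) / N * a * m) = S := by
        rw [hSdef, ← hM]
        refine sum_congr rfl fun m _ => ?_
        unfold Pool.Agent.W5h23.RG.ker
        rw [← hn]
      rw [g3, ← hM] at g1
      rw [← hSdef] at hS
      have g4 : (Cd * (M : ℝ) ^ η₁) ^ r ≤ (N : ℝ) ^ δ₁ := by
        rw [mul_pow]
        have g5 : (M : ℝ) ≤ (N : ℝ) ^ ((r * R + R : ℕ) : ℝ) := by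
          rw [Real.rpow_natCast]
          have g6 : ∏ j, U j ≤ ∏ _j : Fin r, N ^ R := prod_le_prod' fun j _ => hU j
          rw [prod_const, card_univ, Fintype.card_fin, ← pow_mul] at g6
          have g7 : M ≤ N ^ (r * R + R) := by
            rw [hM, pow_add, mul_comm r R]
            exact Nat.mul_le_mul g6 hXR
          exact_mod_cast g7
        have g8 : ((M : ℝ) ^ η₁) ^ r ≤ (N : ℝ) ^ (δ₁ / 2) := by
          calc ((M : ℝ) ^ η₁) ^ r ≤ (((N : ℝ) ^ ((r * R + R : ℕ) : ℝ)) ^ η₁) ^ r := by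
                apply pow_le_pow_left₀ (by positivity)
                exact Real.rpow_le_rpow (by positivity) g5 hη₁0.le
            _ = (N : ℝ) ^ (r * ((r * R + R) * η₁)) := by
                rw [← Real.rpow_mul hN0.le, ← Real.rpow_natCast, ← Real.rpow_mul hN0.le]
                congr 1
                push_cast
                ring
            _ ≤ _ := Real.rpow_le_rpow_of_exponent_le hNr hη₁r
        calc Cd ^ r * ((M : ℝ) ^ η₁) ^ r ≤ (N : ℝ) ^ (δ₁ / 2) * (N : ℝ) ^ (δ₁ / 2) :=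
              mul_le_mul hNC g8 (by positivity) (by positivity)
          _ = (N : ℝ) ^ δ₁ := by
              rw [← Real.rpow_add hN0]
              congr 1
              ring
      obtain ⟨Γ, hΓ⟩ : ∃ Γ : ℝ, Γ = Gs U H₀ X ((t.val : ℝ) / N * a) := ⟨_, rfl⟩
      rw [← hΓ] at g1 hbd
      have hℓ : 1 + Real.log (2 * (Q₂ : ℝ)) ≤ (N : ℝ) ^ δ₁ := by
        refine le_trans ?_ hNlog
        have hQ₂0 : (0 : ℝ) < Q₂ := by exact_mod_cast hQ₂1
        have l1 : (Q₂ : ℝ) ≤ (2 * h + 1 : ℝ) * (N : ℝ) ^ (r * R + 2 * R) := by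
          refine hQ₂le.trans ((div_le_self (by positivity) hNc1).trans ?_)
          have l2 : (M : ℝ) ≤ (N : ℝ) ^ (r * R + R) := by
            have g6 : ∏ j, U j ≤ ∏ _j : Fin r, N ^ R := prod_le_prod' fun j _ => hU j
            rw [prod_const, card_univ, Fintype.card_fin, ← pow_mul] at g6
            have g7 : M ≤ N ^ (r * R + R) := by
              rw [hM, pow_add, mul_comm r R]
              exact Nat.mul_le_mul g6 hXR
            exact_mod_cast g7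
          have l3 : (n : ℝ) ≤ (2 * h + 1) * (N : ℝ) ^ R := by
            refine hnr.trans ?_
            apply mul_le_mul_of_nonneg_left _ (by positivity)
            exact_mod_cast hYR
          calc (M : ℝ) * n ≤ (N : ℝ) ^ (r * R + R) * ((2 * h + 1) * (N : ℝ) ^ R) :=
                mul_le_mul l2 l3 (by positivity) (by positivity)
            _ = (2 * h + 1 : ℝ) * ((N : ℝ) ^ (r * R + R) * (N : ℝ) ^ R) := by ring
            _ = _ := by
                rw [← pow_add]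
                congr 2
                ring
        have l4 : Real.log (2 * (Q₂ : ℝ)) ≤ Real.log (2 * ((2 * h + 1 : ℝ) * (N : ℝ) ^ (r * R + 2 * R))) :=
          Real.log_le_log (by positivity) (by linarith)
        linarith
      have hℓ0 : 0 ≤ 1 + Real.log (2 * (Q₂ : ℝ)) := by
        have : 0 ≤ Real.log (2 * (Q₂ : ℝ)) := Real.log_nonneg (by
          have : (1 : ℝ) ≤ Q₂ := by exact_mod_cast hQ₂1
          linarith)
        linarith
      have z := minor_num δ₁ c σ N (∑ j, 1 / ((A j).card : ℝ)) K n u X Y M (2 ^ r / a₀) Γ S D Q₁ Q₂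
        (1 + Real.log (2 * (Q₂ : ℝ))) 0 hNr hc0 hδ₁ hcσ hK0 hn0 hM0 hQ₁le hQ₂le (hXσ.trans hMX) (hYσ.trans hnY) hℓ0 hℓ
        (by
          -- the sum of the reciprocals
          have y1 : ∑ j, 1 / ((A j).card : ℝ) ≤ r * (N : ℝ) ^ (-σ) := by
            calc ∑ j, 1 / ((A j).card : ℝ) ≤ ∑ _j : Fin r, (N : ℝ) ^ (-σ) := by
                  refine sum_le_sum fun j _ => ?_
                  rw [Real.rpow_neg hN0.le, ← one_div]
                  apply one_div_le_one_div_of_le (by positivity)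
                  rw [hσ]
                  exact root_le N (A j).card s hs (hAc j)
              _ = _ := by rw [sum_const, card_univ, Fintype.card_fin, nsmul_eq_mul]
          refine y1.trans ?_
          apply mul_le_mul_of_nonneg_right _ (by positivity)
          rw [hD]
          have : (0 : ℝ) ≤ (2 * h + 1) * 2 ^ (r + 1) := by positivity
          linarith)
        (by
          have hX0 : (0 : ℝ) < X := by linarith
          have y1 : K * n * X ≤ D * (N : ℝ) ^ δ₁ := by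
            calc K * n * X ≤ K * ((2 * h + 1) * Y) * X := by
                  apply mul_le_mul_of_nonneg_right _ hX0.le
                  exact mul_le_mul_of_nonneg_left hnr hK0
              _ = (2 * h + 1) * (K * X * Y) := by ring
              _ ≤ (2 * h + 1) * (2 ^ (r + 1) * (N : ℝ) ^ δ₁) := mul_le_mul_of_nonneg_left hKXY (by positivity)
              _ = ((2 * h + 1) * 2 ^ (r + 1)) * (N : ℝ) ^ δ₁ := by ring
              _ ≤ D * (N : ℝ) ^ δ₁ := by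
                  apply mul_le_mul_of_nonneg_right _ (by positivity)
                  rw [hD]
                  have : (0 : ℝ) ≤ r := Nat.cast_nonneg r
                  linarith
          have y2 : K * n * (N : ℝ) ^ σ ≤ D * (N : ℝ) ^ δ₁ :=
            (mul_le_mul_of_nonneg_left hXσ (by positivity)).trans y1
          rw [Real.rpow_sub hN0, ← mul_div_assoc, le_div_iff₀ (by positivity)]
          exact y2)
        (by positivity)
        (by
          calc K * (2 ^ r / a₀) * (M * n) ≤ K * (2 ^ r / a₀) * (u * X * ((2 * h + 1) * Y)) := by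
                apply mul_le_mul_of_nonneg_left _ (by positivity)
                rw [hMr]
                exact mul_le_mul_of_nonneg_left hnr (by positivity)
            _ = (2 * h + 1) * (2 ^ r / a₀) * (K * (u * X * Y)) := by ring
            _ ≤ (2 * h + 1) * (2 ^ r / a₀) * (2 * (N : ℝ) ^ δ₁ * a₀) := mul_le_mul_of_nonneg_left hK1 (by positivity)
            _ = ((2 * h + 1) * 2 ^ (r + 1)) * (N : ℝ) ^ δ₁ := by
                field_simp
                ring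
            _ ≤ D * (N : ℝ) ^ δ₁ := by
                apply mul_le_mul_of_nonneg_right _ (by positivity)
                rw [hD]
                have : (0 : ℝ) ≤ r := Nat.cast_nonneg r
                linarith)
        (g1.trans (mul_le_mul_of_nonneg_right g4 hS0)) hS hS0 hD0 hND
      have z2 : ‖Sm A B v ((t.val : ℝ) / N * a) cc‖ ^ m ≤ (I * J * a₀) ^ m * (N : ℝ) ^ (-(c / 2)) := by
        refine hbd.trans ?_
        apply mul_le_mul_of_nonneg_left _ (by positivity)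
        rw [← hn]
        exact z
      rw [hmp, pow_mul]
      calc (‖Sm A B v ((t.val : ℝ) / N * a) cc‖ ^ m) ^ t₀ ≤ ((I * J * a₀) ^ m * (N : ℝ) ^ (-(c / 2))) ^ t₀ :=
            pow_le_pow_left₀ (by positivity) z2 _
        _ = (I * J * a₀) ^ (m * t₀) * (N : ℝ) ^ (-(t₀ * (c / 2))) := by
            rw [mul_pow, ← pow_mul, ← Real.rpow_natCast ((N : ℝ) ^ (-(c / 2))), ← Real.rpow_mul hN0.le]
            congr 2
            ring
        _ ≤ _ := by
            apply mul_le_mul_of_nonneg_left _ (by positivity)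
            exact Real.rpow_le_rpow_of_exponent_le hNr (by linarith)
  -- the sum
  have hsum : ∑ t : ZMod N, ‖∑ x ∈ T, e ((t.val : ℝ) / N * ((ival a v F G H x : ℤ) : ℝ))‖ ^ (2 * p) ≤
      (I * J * a₀) ^ (2 * p) * ((maj N a Q₁ Q₂).card + 1) := by
    refine (sum_le_sum fun t _ => hone t).trans ?_
    rw [← mul_sum]
    apply mul_le_mul_of_nonneg_left _ (by positivity)
    have h1 : ∀ t : ZMod N, (if t ∈ maj N a Q₁ Q₂ then (1 : ℝ) else (N : ℝ) ^ (-(1 : ℝ))) ≤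
        (if t ∈ maj N a Q₁ Q₂ then (1 : ℝ) else 0) + (N : ℝ) ^ (-(1 : ℝ)) := by
      intro t
      have : 0 < (N : ℝ) ^ (-(1 : ℝ)) := by positivity
      split_ifs
      · linarith
      · linarith
    refine (sum_le_sum fun t _ => h1 t).trans (le_of_eq ?_)
    rw [sum_add_distrib, sum_boole, sum_const, card_univ, ZMod.card, nsmul_eq_mul, Real.rpow_neg_one,
      mul_inv_cancel₀ hN0.ne']
    congr 2
    rw [filter_mem_eq_inter, univ_inter]
  refine (hmom.trans hsum).trans ?_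
  have hT2 : (I * J * a₀) ^ (2 * p) ≤ (T.card : ℝ) ^ (2 * p) * (N : ℝ) ^ c := by
    have h1 : I * J * a₀ ≤ T.card * (N : ℝ) ^ δ := by
      calc I * J * a₀ = (I * J * a₀ * (N : ℝ) ^ (-δ)) * (N : ℝ) ^ δ := by
            rw [mul_assoc (I * J * a₀), ← Real.rpow_add hN0, neg_add_cancel, Real.rpow_zero, mul_one]
        _ ≤ _ := mul_le_mul_of_nonneg_right hTc (by positivity)
    calc (I * J * a₀) ^ (2 * p) ≤ (T.card * (N : ℝ) ^ δ) ^ (2 * p) := pow_le_pow_left₀ hP0 h1 _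
      _ = (T.card : ℝ) ^ (2 * p) * (N : ℝ) ^ (2 * p * δ) := by
          rw [mul_pow, ← Real.rpow_natCast ((N : ℝ) ^ δ), ← Real.rpow_mul hN0.le]
          congr 2
          push_cast
          ring
      _ ≤ _ := by
          apply mul_le_mul_of_nonneg_left _ (by positivity)
          exact Real.rpow_le_rpow_of_exponent_le hNr hδp
  calc (I * J * a₀) ^ (2 * p) * ((maj N a Q₁ Q₂).card + 1) ≤
      ((T.card : ℝ) ^ (2 * p) * (N : ℝ) ^ c) * ((N : ℝ) ^ c * (N : ℝ) ^ (3 * c + 2 * δ₁)) := by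
        apply mul_le_mul hT2 _ (by positivity) (by positivity)
        exact hmaj.trans (mul_le_mul_of_nonneg_right hNa (by positivity))
    _ = (N : ℝ) ^ (5 * c + 2 * δ₁) * (T.card : ℝ) ^ (2 * p) := by
        have : (N : ℝ) ^ (5 * c + 2 * δ₁) = (N : ℝ) ^ c * ((N : ℝ) ^ c * (N : ℝ) ^ (3 * c + 2 * δ₁)) := by
          rw [← Real.rpow_add hN0, ← Real.rpow_add hN0]
          congr 1
          ring
        rw [this]
        ring
    _ ≤ _ := by
        apply mul_le_mul_of_nonneg_right _ (by positivity)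
        apply Real.rpow_le_rpow_of_exponent_le hNr
        linarith

end Pool.Agent.W5h23.HG
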