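import Pool.Agent.W5h23.HG.Arc

set_option autoImplicit false

/-!
The additive energy of the families `a x₁ ⋯ x_r v(i) b + (functions of all variables but one)` along cliques.
-/

namespace Pool.Agent.W5h23.HG

open Finset Filter
open Pool.Agent.H469R2.NK (e norm_e e_add conj_e)
open Pool.Agent.W5h23.RG

/-- the values, integers -/
def ival {r : ℕ} {ι : Type} (a : ℤ) (v : ι → ℤ) (F : Fin r → (Fin r → ℕ) → ι → ℕ → ℤ)
    (G : (Fin r → ℕ) → ι → ℤ) (H : (Fin r → ℕ) → ℕ → ℤ) (t : (Fin r → ℕ) × ι × ℕ) : ℤ :=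
  a * (∏ j, (t.1 j : ℤ)) * v t.2.1 * t.2.2 + ∑ j, F j t.1 t.2.1 t.2.2 + G t.1 t.2.1 + H t.1 t.2.2

lemma char_eq (N : ℕ) [NeZero N] (t : ZMod N) (w : ℤ) :
    Pool.Agent.W5h80.Bil.e t w = e ((t.val : ℝ) / N * w) := by
  unfold Pool.Agent.W5h80.Bil.e e
  have h1 : t * (w : ZMod N) = (((t.val : ℤ) * w : ℤ) : ZMod N) := by
    push_cast
    rw [ZMod.natCast_zmod_val]
  rw [h1, ZMod.stdAddChar_coe]
  congr 1
  push_cast
  ring

/-- the energy and the moments -/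
lemma energy_moment (N : ℕ) [NeZero N] (p : ℕ) {Ω : Type} (T : Finset Ω) (w : Ω → ℤ) :
    (energy p (fun t : {t // t ∈ T} => w t) : ℝ) * N ≤ ∑ t : ZMod N, ‖∑ x ∈ T, e ((t.val : ℝ) / N * w x)‖ ^ (2 * p) := by
  classical
  have h1 := Pool.Agent.W5h80.Bil.energy_le_moment (M := N) p (fun t : {t // t ∈ T} => w t)
  have h2 : ∀ t : ZMod N, ∑ i : {t // t ∈ T}, Pool.Agent.W5h80.Bil.e t (w i) = ∑ x ∈ T, e ((t.val : ℝ) / N * w x) := by
    intro t
    rw [← sum_coe_sort T]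
    exact sum_congr rfl fun i _ => char_eq N t (w i)
  rw [sum_congr rfl fun t _ => by rw [h2 t]] at h1
  exact h1

lemma sum_iclq {r : ℕ} {ι : Type} [Fintype ι] (A : Fin r → Finset ℕ) (B : Finset ℕ)
    (P : Fin r → (Fin r → ℕ) → ι → ℕ → Prop) (P' : (Fin r → ℕ) → ι → Prop) (P'' : (Fin r → ℕ) → ℕ → Prop)
    (hP : ∀ j x t, P j (Function.update x j t) = P j x)
    (T : Finset ((Fin r → ℕ) × ι × ℕ)) (hT : ∀ t, t ∈ T ↔ Clq A B P P' P'' t)
    (a : ℤ) (κ : ℝ) (v : ι → ℤ) (F : Fin r → (Fin r → ℕ) → ι → ℕ → ℤ)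
    (G : (Fin r → ℕ) → ι → ℤ) (H : (Fin r → ℕ) → ℕ → ℤ) (hF : ∀ j x t, F j (Function.update x j t) = F j x) :
    ∃ c : (Fin r → ℕ) → ι → ℕ → ℂ, Cyl c ∧ ∑ t ∈ T, e (κ * (ival a v F G H t : ℝ)) = Sm A B v (κ * a) c := by
  obtain ⟨c, hc, h1⟩ := sum_clq A B P P' P'' hP T hT a κ v (fun j x i b => (F j x i b : ℝ)) (fun x i => (G x i : ℝ))
    (fun x b => (H x b : ℝ)) (fun j x t => by
      funext i b
      rw [hF])
  refine ⟨c, hc, ?_⟩
  rw [← h1]
  refine sum_congr rfl fun t _ => ?_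
  congr 2
  unfold ival val
  push_cast
  ring

/-- numerical: the value of the bound on the minor arcs -/
lemma minor_num (δ c σ N s1 K n u X Y M a2 Γ S D Q₁ Q₂ ℓ C : ℝ) (hN : 1 ≤ N) (hc0 : 0 < c) (hδ : δ = c / 8)
    (hσ : c ≤ σ) (hK : 0 ≤ K) (hn : 0 < n) (hM : 0 < M) (hQ1 : N ^ c ≤ Q₁)
    (hQ2 : Q₂ ≤ M * n / N ^ c) (hMX : N ^ σ ≤ M) (hnY : N ^ σ ≤ n) (hℓ : 0 ≤ ℓ) (hℓ2 : ℓ ≤ N ^ δ)
    (h1 : s1 ≤ D * N ^ (-σ)) (h2 : K * n ≤ D * N ^ (δ - σ)) (ha2 : 0 ≤ a2) (h3 : K * a2 * (M * n) ≤ D * N ^ δ)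
    (hΓ : Γ ≤ N ^ δ * S) (hS : S ≤ 2 * n * (2 * M / Q₁ + 1) + (16 * M + 8 * Q₂) * ℓ) (hS0 : 0 ≤ S)
    (hD : 0 ≤ D) (hC : 33 * D ≤ N ^ δ) :
    s1 + K * (n + a2 * Γ) ≤ N ^ (-(c / 2)) := by
  have hN0 : 0 < N := by linarith
  have hNc : 0 < N ^ c := by positivity
  have hQ10 : 0 < Q₁ := by linarith
  -- `S ≤ M n (30 N ^ (- c) ℓ ...)`
  have e1 : S ≤ (M * n) * (30 * N ^ (δ - c)) := by
    have t1 : 2 * n * (2 * M / Q₁) ≤ (M * n) * (4 * N ^ (-c)) := by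
      have : M / Q₁ ≤ M * N ^ (-c) := by
        rw [Real.rpow_neg hN0.le, div_eq_mul_inv]
        exact mul_le_mul_of_nonneg_left (inv_anti₀ hNc hQ1) hM.le
      calc 2 * n * (2 * M / Q₁) = 4 * n * (M / Q₁) := by ring
        _ ≤ 4 * n * (M * N ^ (-c)) := mul_le_mul_of_nonneg_left this (by positivity)
        _ = _ := by ring
    have t2 : 1 ≤ M * N ^ (-c) := by
      calc (1 : ℝ) = N ^ (0 : ℝ) := (Real.rpow_zero _).symm
        _ ≤ N ^ (σ + -c) := Real.rpow_le_rpow_of_exponent_le hN (by linarith)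
        _ = N ^ σ * N ^ (-c) := Real.rpow_add hN0 _ _
        _ ≤ M * N ^ (-c) := mul_le_mul_of_nonneg_right hMX (by positivity)
    have t3 : 1 ≤ n * N ^ (-c) := by
      calc (1 : ℝ) = N ^ (0 : ℝ) := (Real.rpow_zero _).symm
        _ ≤ N ^ (σ + -c) := Real.rpow_le_rpow_of_exponent_le hN (by linarith)
        _ = N ^ σ * N ^ (-c) := Real.rpow_add hN0 _ _
        _ ≤ n * N ^ (-c) := mul_le_mul_of_nonneg_right hnY (by positivity)
    have t4 : 2 * n ≤ (M * n) * (2 * N ^ (-c)) := by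
      calc 2 * n = 2 * n * 1 := by ring
        _ ≤ 2 * n * (M * N ^ (-c)) := mul_le_mul_of_nonneg_left t2 (by positivity)
        _ = _ := by ring
    have t5 : 16 * M + 8 * Q₂ ≤ (M * n) * (24 * N ^ (-c)) := by
      have t6 : 16 * M ≤ (M * n) * (16 * N ^ (-c)) := by
        calc 16 * M = 16 * M * 1 := by ring
          _ ≤ 16 * M * (n * N ^ (-c)) := mul_le_mul_of_nonneg_left t3 (by positivity)
          _ = _ := by ring
      have t7 : 8 * Q₂ ≤ (M * n) * (8 * N ^ (-c)) := by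
        rw [Real.rpow_neg hN0.le]
        calc 8 * Q₂ ≤ 8 * (M * n / N ^ c) := by linarith
          _ = _ := by ring
      linarith
    have hℓ1 : (1 : ℝ) ≤ N ^ δ := Real.one_le_rpow hN (by rw [hδ]; positivity)
    have t8 : (16 * M + 8 * Q₂) * ℓ ≤ (M * n) * (24 * N ^ (-c)) * N ^ δ := by
      calc (16 * M + 8 * Q₂) * ℓ ≤ (M * n) * (24 * N ^ (-c)) * ℓ := mul_le_mul_of_nonneg_right t5 hℓ
        _ ≤ _ := mul_le_mul_of_nonneg_left hℓ2 (by positivity)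
    have t9 : (M * n) * (6 * N ^ (-c)) ≤ (M * n) * (6 * N ^ (-c)) * N ^ δ :=
      le_mul_of_one_le_right (by positivity) hℓ1
    have t10 : N ^ (-c) * N ^ δ = N ^ (δ - c) := by
      rw [← Real.rpow_add hN0]
      congr 1
      ring
    calc S ≤ 2 * n * (2 * M / Q₁ + 1) + (16 * M + 8 * Q₂) * ℓ := hS
      _ = 2 * n * (2 * M / Q₁) + 2 * n + (16 * M + 8 * Q₂) * ℓ := by ring
      _ ≤ (M * n) * (4 * N ^ (-c)) + (M * n) * (2 * N ^ (-c)) + (M * n) * (24 * N ^ (-c)) * N ^ δ := by linarith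
      _ ≤ (M * n) * (6 * N ^ (-c)) * N ^ δ + (M * n) * (24 * N ^ (-c)) * N ^ δ := by linarith
      _ = (M * n) * (30 * (N ^ (-c) * N ^ δ)) := by ring
      _ = _ := by rw [t10]
  have e2 : K * (a2 * Γ) ≤ 30 * D * N ^ (3 * δ - c) := by
    calc K * (a2 * Γ) ≤ K * (a2 * (N ^ δ * S)) := by
          apply mul_le_mul_of_nonneg_left _ hK
          exact mul_le_mul_of_nonneg_left hΓ ha2
      _ ≤ K * (a2 * (N ^ δ * ((M * n) * (30 * N ^ (δ - c))))) := by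
          apply mul_le_mul_of_nonneg_left _ hK
          apply mul_le_mul_of_nonneg_left _ ha2
          exact mul_le_mul_of_nonneg_left e1 (by positivity)
      _ = (K * a2 * (M * n)) * (30 * (N ^ δ * N ^ (δ - c))) := by ring
      _ ≤ (D * N ^ δ) * (30 * (N ^ δ * N ^ (δ - c))) := mul_le_mul_of_nonneg_right h3 (by positivity)
      _ = 30 * D * (N ^ δ * (N ^ δ * N ^ (δ - c))) := by ring
      _ = _ := by
          rw [← Real.rpow_add hN0, ← Real.rpow_add hN0]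
          congr 2
          ring
  have e3 : D * N ^ (-σ) ≤ D * N ^ (3 * δ - c) := by
    apply mul_le_mul_of_nonneg_left _ hD
    apply Real.rpow_le_rpow_of_exponent_le hN
    have : 0 < δ := by rw [hδ]; positivity
    linarith
  have e4 : D * N ^ (δ - σ) ≤ D * N ^ (3 * δ - c) := by
    apply mul_le_mul_of_nonneg_left _ hD
    apply Real.rpow_le_rpow_of_exponent_le hN
    have : 0 < δ := by rw [hδ]; positivity
    linarith
  calc s1 + K * (n + a2 * Γ) = s1 + K * n + K * (a2 * Γ) := by ring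
    _ ≤ D * N ^ (3 * δ - c) + D * N ^ (3 * δ - c) + 30 * D * N ^ (3 * δ - c) := by linarith
    _ = 32 * D * N ^ (3 * δ - c) := by ring
    _ ≤ 33 * D * N ^ (3 * δ - c) := by
        apply mul_le_mul_of_nonneg_right _ (by positivity)
        linarith
    _ ≤ N ^ δ * N ^ (3 * δ - c) := mul_le_mul_of_nonneg_right hC (by positivity)
    _ = N ^ (-(c / 2)) := by
        rw [← Real.rpow_add hN0]
        congr 1
        rw [hδ]
        ring

end Pool.Agent.W5h23.HG
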