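import Pool.Agent.W5h23.HG.Rec

set_option autoImplicit false

/-!
Bounds for the sums of the geometric sums. The first lemma is a form of a lemma of `Pool.Agent.TH668.Bil.Main` (starting
library).
-/

namespace Pool.Agent.W5h23.HG

open Finset Filter
open Pool.Agent.TH668.Bil (full_sum)
open Pool.Agent.H469R2.NK (e norm_e e_add conj_e)
open Pool.Agent.W5h23.RG

/-- bound for the sum of geometric sums -/
lemma F_boundW (μ η c : ℝ) (D : ℕ) (hμ : 1 ≤ μ) (hη : 0 < η) (hc : 0 < c) :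
    ∀ᶠ N : ℕ in atTop, ∀ α : ℝ,
      (∀ q : ℕ, 1 ≤ q → ∀ p : ℤ, c * (q : ℝ) ^ (-μ) ≤ |(q : ℝ) * α - p|) →
      ∀ q h : ℕ, 1 ≤ q → (q : ℝ) ≤ (N : ℝ) ^ η → 1 ≤ h → (h : ℝ) ≤ (N : ℝ) ^ (4 * η) →
      ∀ n : ℕ, n ≤ D * N → ∀ W : ℕ, 1 ≤ W →
        ∑ d ∈ Finset.Icc 1 (W * N), ‖∑ j ∈ range n, e (j * ((h : ℝ) / q * α * d))‖ ≤
        W * (N : ℝ) ^ (2 - 1 / μ + (4 * μ + 3) * η) := by
  have hμ0 : 0 < μ := by linarith
  set ν : ℝ := 1 + η + 4 * η * μ with hν
  have hν0 : 0 < ν := by positivity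
  have hμi : 0 < 1 / μ := by positivity
  have hμ1 : 1 / μ ≤ 1 := by
    rw [div_le_one hμ0]
    exact hμ
  -- logarithm
  have hlog : ∀ᶠ N : ℝ in atTop, 1 + Real.log (1 / (c * N ^ (-ν))) ≤ N ^ η := by
    have h1 : Tendsto (fun N : ℝ => Real.log N / N ^ η) atTop (nhds 0) :=
      (isLittleO_log_rpow_atTop hη).tendsto_div_nhds_zero
    have h2 : ∀ᶠ N : ℝ in atTop, Real.log N / N ^ η < 1 / (4 * ν) :=
      h1.eventually (gt_mem_nhds (by positivity))
    filter_upwards [h2, eventually_ge_atTop (1 : ℝ),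
      (tendsto_rpow_atTop hη).eventually_ge_atTop (2 * (1 + Real.log (1 / c)))] with N hN hN1 hN3
    have hN0 : 0 < N := by linarith
    have hNη : 0 < N ^ η := by positivity
    rw [div_lt_iff₀ hNη] at hN
    have e1 : Real.log (1 / (c * N ^ (-ν))) = Real.log (1 / c) + ν * Real.log N := by
      rw [one_div, Real.log_inv, Real.log_mul hc.ne' (by positivity), Real.log_rpow hN0, one_div,
        Real.log_inv]
      ring
    rw [e1]
    have e2 : ν * Real.log N ≤ N ^ η / 4 := by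
      have := mul_lt_mul_of_pos_left hN hν0
      have e3 : ν * (1 / (4 * ν) * N ^ η) = N ^ η / 4 := by field_simp
      linarith
    linarith
  have hlogN := tendsto_natCast_atTop_atTop (R := ℝ) |>.eventually hlog
  have hlim : ∀ s : ℝ, 0 < s → Tendsto (fun N : ℕ => (N : ℝ) ^ s) atTop atTop := fun s hs =>
    (tendsto_rpow_atTop hs).comp tendsto_natCast_atTop_atTop
  filter_upwards [hlogN, eventually_ge_atTop 1,
    (hlim η hη).eventually_ge_atTop (3 * (2 * (D + 2 / c))),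
    (hlim (1 / μ) hμi).eventually_ge_atTop 2] with N hlg hN1 hNη hN2
  intro α hα q h hq hqN hh hhN n hn W hW
  have hWr : (1 : ℝ) ≤ W := by exact_mod_cast hW
  have hNr : (1 : ℝ) ≤ N := by exact_mod_cast hN1
  have hN0 : (0 : ℝ) < N := by linarith
  set δ : ℝ := c * (N : ℝ) ^ (-ν) with hδ
  have hδ0 : 0 < δ := by positivity
  set K : ℕ := ⌊(N : ℝ) ^ (1 / μ)⌋₊ with hK
  have hKup : (K : ℝ) ≤ (N : ℝ) ^ (1 / μ) := Nat.floor_le (by positivity)
  have hKlow : (N : ℝ) ^ (1 / μ) / 2 ≤ K := by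
    have := Nat.lt_floor_add_one ((N : ℝ) ^ (1 / μ))
    linarith
  have hK0 : (0 : ℝ) < K := by linarith
  have hK1 : 1 ≤ K := by exact_mod_cast hK0
  have hq0 : (0 : ℝ) < q := by exact_mod_cast hq
  have hh0 : (0 : ℝ) < h := by exact_mod_cast hh
  have hsep : ∀ k : ℕ, 1 ≤ k → k < K → ∀ m : ℤ, δ ≤ |(h : ℝ) / q * α * k - m| := by
    intro k hk1 hkK m
    have hk0 : (0 : ℝ) < k := by exact_mod_cast hk1
    have h1 := hα (h * k) (Nat.one_le_iff_ne_zero.mpr (by positivity)) (q * m)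
    have e1 : |(h : ℝ) / q * α * k - m| = |((h * k : ℕ) : ℝ) * α - ((q * m : ℤ) : ℝ)| / q := by
      rw [eq_div_iff hq0.ne', ← abs_of_pos hq0, ← abs_mul, abs_of_pos hq0]
      congr 1
      push_cast
      field_simp
    rw [e1, le_div_iff₀ hq0]
    refine le_trans ?_ h1
    have hkN : (k : ℝ) ≤ (N : ℝ) ^ (1 / μ) := by
      have : (k : ℝ) ≤ K := by exact_mod_cast hkK.le
      linarith
    have h2 : ((h * k : ℕ) : ℝ) ≤ (N : ℝ) ^ (4 * η + 1 / μ) := by
      push_cast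
      rw [Real.rpow_add hN0]
      gcongr
    have h3 : (N : ℝ) ^ (-(4 * η * μ + 1)) ≤ ((h * k : ℕ) : ℝ) ^ (-μ) := by
      calc (N : ℝ) ^ (-(4 * η * μ + 1)) = ((N : ℝ) ^ (4 * η + 1 / μ)) ^ (-μ) := by
            rw [← Real.rpow_mul hN0.le]
            congr 1
            field_simp
        _ ≤ _ := by
            apply Real.rpow_le_rpow_of_nonpos _ h2 (by linarith)
            push_cast
            positivity
    calc δ * q ≤ c * (N : ℝ) ^ (-ν) * (N : ℝ) ^ η := by rw [hδ]; gcongr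
      _ = c * (N : ℝ) ^ (-(4 * η * μ + 1)) := by
          rw [mul_assoc, ← Real.rpow_add hN0]
          congr 2
          rw [hν]
          ring
      _ ≤ _ := by gcongr
  have hfull := full_sum ((h : ℝ) / q * α) K (W * N) n hK1 δ hδ0 hsep
  refine hfull.trans ?_
  have h0 : ((W * N : ℕ) : ℝ) / K + 1 ≤ W * ((N : ℝ) / K + 1) := by
    push_cast
    have : (W : ℝ) * N / K = W * (N / K) := by ring
    rw [this]
    linarith
  have h1 : (N : ℝ) / K + 1 ≤ 3 * (N : ℝ) ^ (1 - 1 / μ) := by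
    have e1 : (N : ℝ) / K ≤ 2 * (N : ℝ) ^ (1 - 1 / μ) := by
      rw [div_le_iff₀ hK0]
      calc (N : ℝ) = 2 * (N : ℝ) ^ (1 - 1 / μ) * ((N : ℝ) ^ (1 / μ) / 2) := by
            rw [show 2 * (N : ℝ) ^ (1 - 1 / μ) * ((N : ℝ) ^ (1 / μ) / 2) =
              (N : ℝ) ^ (1 - 1 / μ) * (N : ℝ) ^ (1 / μ) by ring, ← Real.rpow_add hN0,
              sub_add_cancel, Real.rpow_one]
        _ ≤ _ := by gcongr
    have e2 : (1 : ℝ) ≤ (N : ℝ) ^ (1 - 1 / μ) := Real.one_le_rpow hNr (by linarith)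
    linarith
  have h2 : 1 + Real.log ⌊1 / δ⌋₊ ≤ (N : ℝ) ^ η := by
    refine le_trans ?_ hlg
    rcases Nat.eq_zero_or_pos ⌊1 / δ⌋₊ with h0 | h0
    · have e3 : 0 ≤ Real.log (1 / δ) := by
        -- `δ ≤ 1` follows from the separation for `k = 1`, or the floor is positive
        by_contra hcon
        rw [not_le] at hcon
        have hd1 : 1 < δ := by
          by_contra h5
          rw [not_lt] at h5
          have : 0 ≤ Real.log (1 / δ) := Real.log_nonneg (by rw [le_div_iff₀ hδ0]; linarith)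
          linarith
        have h6 := hα 1 le_rfl (round α)
        have h7 := abs_sub_round α
        have h8 : c ≤ 1 / 2 := by
          have : c * ((1 : ℕ) : ℝ) ^ (-μ) = c := by simp
          rw [this] at h6
          push_cast at h6
          rw [one_mul] at h6
          linarith
        have h9 : (N : ℝ) ^ (-ν) ≤ 1 := Real.rpow_le_one_of_one_le_of_nonpos hNr (by linarith)
        have : δ ≤ 1 := by
          rw [hδ]
          nlinarith
        linarith
      rw [h0]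
      simp only [Nat.cast_zero, Real.log_zero, add_zero]
      linarith
    · have e4 : Real.log ⌊1 / δ⌋₊ ≤ Real.log (1 / δ) :=
        Real.log_le_log (by exact_mod_cast h0) (Nat.floor_le (by positivity))
      linarith
  have h3 : ((n : ℝ) + 2 / δ * (1 + Real.log ⌊1 / δ⌋₊)) ≤
      (D + 2 / c) * (N : ℝ) ^ (ν + η) := by
    have e1 : (n : ℝ) ≤ D * (N : ℝ) ^ (ν + η) := by
      have hn' : (n : ℝ) ≤ D * N := by exact_mod_cast hn
      have hD0 : (0 : ℝ) ≤ D := Nat.cast_nonneg D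
      have : (N : ℝ) ≤ (N : ℝ) ^ (ν + η) := by
        calc (N : ℝ) = (N : ℝ) ^ (1 : ℝ) := (Real.rpow_one _).symm
          _ ≤ _ := by
            apply Real.rpow_le_rpow_of_exponent_le hNr
            have : 0 ≤ 4 * η * μ := by positivity
            linarith
      exact hn'.trans (mul_le_mul_of_nonneg_left this hD0)
    have e2 : 2 / δ * (1 + Real.log ⌊1 / δ⌋₊) ≤ 2 / c * (N : ℝ) ^ (ν + η) := by
      calc 2 / δ * (1 + Real.log ⌊1 / δ⌋₊) ≤ 2 / δ * (N : ℝ) ^ η := by gcongr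
        _ = 2 / c * (N : ℝ) ^ (ν + η) := by
            have e5 : (N : ℝ) ^ (ν + η) = (N : ℝ) ^ ν * (N : ℝ) ^ η := Real.rpow_add hN0 ν η
            have e6 : δ = c * ((N : ℝ) ^ ν)⁻¹ := by rw [hδ, Real.rpow_neg hN0.le]
            have e7 : (0 : ℝ) < (N : ℝ) ^ ν := by positivity
            rw [e5, e6]
            generalize (N : ℝ) ^ ν = X at *
            generalize (N : ℝ) ^ η = Y at *
            field_simp
    calc _ ≤ D * (N : ℝ) ^ (ν + η) + 2 / c * (N : ℝ) ^ (ν + η) := add_le_add e1 e2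
      _ = _ := by ring
  have hlog0 : 0 ≤ Real.log ⌊1 / δ⌋₊ := Real.log_natCast_nonneg _
  refine (mul_le_mul_of_nonneg_right h0 (by positivity)).trans ?_
  rw [mul_assoc]
  apply mul_le_mul_of_nonneg_left _ (by positivity)
  calc ((N : ℝ) / K + 1) * (2 * ((n : ℝ) + 2 / δ * (1 + Real.log ⌊1 / δ⌋₊))) ≤
      (3 * (N : ℝ) ^ (1 - 1 / μ)) * (2 * ((D + 2 / c) * (N : ℝ) ^ (ν + η))) := by
        apply mul_le_mul h1 _ (by positivity) (by positivity)
        exact mul_le_mul_of_nonneg_left h3 (by norm_num)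
    _ = (3 * (2 * (D + 2 / c))) * ((N : ℝ) ^ (1 - 1 / μ) * (N : ℝ) ^ (ν + η)) := by ring
    _ ≤ (N : ℝ) ^ η * ((N : ℝ) ^ (1 - 1 / μ) * (N : ℝ) ^ (ν + η)) := by gcongr
    _ = (N : ℝ) ^ (2 - 1 / μ + (4 * μ + 3) * η) := by
        rw [← Real.rpow_add hN0, ← Real.rpow_add hN0]
        congr 1
        rw [hν]
        ring



/-- the products have few factorizations -/
lemma Gs_le {r : ℕ} (U : Fin r → ℕ) (H N : ℕ) (θ : ℝ) (C η : ℝ) (hC : 0 ≤ C) (hη : 0 ≤ η)
    (hdiv : ∀ n : ℕ, 1 ≤ n → (n.divisors.card : ℝ) ≤ C * (n : ℝ) ^ η) :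
    Gs U H N θ ≤ (C * (((∏ j, U j) * N : ℕ) : ℝ) ^ η) ^ r * ∑ m ∈ Finset.Icc 1 ((∏ j, U j) * N), ker H (θ * m) := by
  classical
  set Ω : Finset ((Fin r → ℕ) × ℕ) := Fintype.piFinset (fun j => Finset.Icc 1 (U j)) ×ˢ Finset.Icc 1 N with hΩ
  have h1 : Gs U H N θ = ∑ p ∈ Ω, ker H (θ * (((∏ j, p.1 j) * p.2 : ℕ) : ℝ)) := by
    unfold Gs
    rw [hΩ, sum_product]
    refine sum_congr rfl fun x _ => sum_congr rfl fun d _ => ?_
    congr 1
    push_cast
    ring
  have hmap : ∀ p ∈ Ω, (∏ j, p.1 j) * p.2 ∈ Finset.Icc 1 ((∏ j, U j) * N) := by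
    intro p hp
    rw [hΩ, mem_product, Fintype.mem_piFinset, Finset.mem_Icc] at hp
    rw [Finset.mem_Icc]
    constructor
    · apply Nat.one_le_iff_ne_zero.mpr
      apply mul_ne_zero
      · rw [prod_ne_zero_iff]
        intro j _
        have := (Finset.mem_Icc.1 (hp.1 j)).1
        omega
      · omega
    · apply Nat.mul_le_mul _ hp.2.2
      exact prod_le_prod' fun j _ => (Finset.mem_Icc.1 (hp.1 j)).2
  rw [h1, ← sum_fiberwise_of_maps_to hmap, mul_sum]
  refine sum_le_sum fun m hm => ?_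
  rw [Finset.mem_Icc] at hm
  have h2 : ∑ p ∈ Ω.filter (fun p => (∏ j, p.1 j) * p.2 = m), ker H (θ * (((∏ j, p.1 j) * p.2 : ℕ) : ℝ)) =
      ((Ω.filter (fun p => (∏ j, p.1 j) * p.2 = m)).card : ℝ) * ker H (θ * m) := by
    rw [← nsmul_eq_mul, ← sum_const]
    refine sum_congr rfl fun p hp => ?_
    rw [mem_filter] at hp
    rw [hp.2]
  rw [h2]
  apply mul_le_mul_of_nonneg_right _ (ker_nonneg _ _)
  have h3 : (Ω.filter (fun p => (∏ j, p.1 j) * p.2 = m)).card ≤ m.divisors.card ^ r := by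
    have h4 : (Fintype.piFinset (fun _ : Fin r => m.divisors)).card = m.divisors.card ^ r := by
      rw [Fintype.card_piFinset, prod_const, card_univ, Fintype.card_fin]
    rw [← h4]
    apply card_le_card_of_injOn (fun p => p.1)
    · intro p hp
      rw [mem_coe, mem_filter] at hp
      rw [mem_coe, Fintype.mem_piFinset]
      intro j
      rw [Nat.mem_divisors]
      refine ⟨?_, by omega⟩
      rw [← hp.2]
      exact (dvd_prod_of_mem _ (mem_univ j)).mul_right _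
    · intro p hp p' hp' heq
      rw [mem_coe, mem_filter] at hp hp'
      have heq' : p.1 = p'.1 := heq
      refine Prod.ext heq' ?_
      have h5 : 0 < ∏ j, p.1 j := by
        rcases Nat.eq_zero_or_pos (∏ j, p.1 j) with h | h
        · exfalso
          have := hp.2
          rw [h, zero_mul] at this
          omega
        · exact h
      have h6 : (∏ j, p.1 j) * p.2 = (∏ j, p.1 j) * p'.2 := by
        rw [hp.2, ← hp'.2, heq']
      exact Nat.eq_of_mul_eq_mul_left h5 h6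
  calc ((Ω.filter (fun p => (∏ j, p.1 j) * p.2 = m)).card : ℝ) ≤ ((m.divisors.card ^ r : ℕ) : ℝ) := by exact_mod_cast h3
    _ = (m.divisors.card : ℝ) ^ r := by push_cast; rfl
    _ ≤ (C * (m : ℝ) ^ η) ^ r := pow_le_pow_left₀ (Nat.cast_nonneg _) (hdiv m hm.1) r
    _ ≤ _ := by
        apply pow_le_pow_left₀ (by positivity)
        apply mul_le_mul_of_nonneg_left _ hC
        exact Real.rpow_le_rpow (Nat.cast_nonneg _) (by exact_mod_cast hm.2) hη

end Pool.Agent.W5h23.HG
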