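import Pool.Agent.W5h23.HG.Geo
import Pool.Agent.W5h23.RG.Inst

set_option autoImplicit false

/-!
Record prime gaps around `α x₁ ⋯ x_r v(i) b + (functions of all variables but one)`.
-/

namespace Pool.Agent.W5h23.HG

open Finset Filter
open Pool.Agent.H469R2.NK (e norm_e e_add conj_e e_zero)
open Pool.Agent.W147.PS (ff ev_pow)
open Pool.Agent.W5h23.RG

/-- the values -/
noncomputable def val {r : ℕ} {ι : Type} (α : ℝ) (v : ι → ℤ) (F : Fin r → (Fin r → ℕ) → ι → ℕ → ℝ)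
    (G : (Fin r → ℕ) → ι → ℝ) (H : (Fin r → ℕ) → ℕ → ℝ) (t : (Fin r → ℕ) × ι × ℕ) : ℝ :=
  α * (∏ j, (t.1 j : ℝ)) * v t.2.1 * t.2.2 + ∑ j, F j t.1 t.2.1 t.2.2 + G t.1 t.2.1 + H t.1 t.2.2

/-- the cliques -/
def Clq {r : ℕ} {ι : Type} (A : Fin r → Finset ℕ) (B : Finset ℕ) (P : Fin r → (Fin r → ℕ) → ι → ℕ → Prop)
    (P' : (Fin r → ℕ) → ι → Prop) (P'' : (Fin r → ℕ) → ℕ → Prop) (t : (Fin r → ℕ) × ι × ℕ) : Prop :=
  (∀ j, t.1 j ∈ A j) ∧ t.2.2 ∈ B ∧ (∀ j, P j t.1 t.2.1 t.2.2) ∧ P' t.1 t.2.1 ∧ P'' t.1 t.2.2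

lemma sum_clq {r : ℕ} {ι : Type} [Fintype ι] (A : Fin r → Finset ℕ) (B : Finset ℕ)
    (P : Fin r → (Fin r → ℕ) → ι → ℕ → Prop) (P' : (Fin r → ℕ) → ι → Prop) (P'' : (Fin r → ℕ) → ℕ → Prop)
    (hP : ∀ j x t, P j (Function.update x j t) = P j x)
    (T : Finset ((Fin r → ℕ) × ι × ℕ)) (hT : ∀ t, t ∈ T ↔ Clq A B P P' P'' t)
    (α κ : ℝ) (v : ι → ℤ) (F : Fin r → (Fin r → ℕ) → ι → ℕ → ℝ)
    (G : (Fin r → ℕ) → ι → ℝ) (H : (Fin r → ℕ) → ℕ → ℝ) (hF : ∀ j x t, F j (Function.update x j t) = F j x) :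
    ∃ c : (Fin r → ℕ) → ι → ℕ → ℂ, Cyl c ∧ ∑ t ∈ T, e (κ * val α v F G H t) = Sm A B v (κ * α) c := by
  classical
  refine ⟨fun x i b => (∏ j, (if P j x i b then e (κ * F j x i b) else 0)) * (if P' x i then e (κ * G x i) else 0) *
    (if P'' x b then e (κ * H x b) else 0), ⟨fun j x i b => if P j x i b then e (κ * F j x i b) else 0,
    fun x i => if P' x i then e (κ * G x i) else 0, fun x b => if P'' x b then e (κ * H x b) else 0, ?_, ?_, ?_, ?_, ?_⟩, ?_⟩
  · intro j x i b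
    dsimp only
    split_ifs
    · rw [norm_e]
    · rw [norm_zero]
      norm_num
  · intro x i
    dsimp only
    split_ifs
    · rw [norm_e]
    · rw [norm_zero]
      norm_num
  · intro x b
    dsimp only
    split_ifs
    · rw [norm_e]
    · rw [norm_zero]
      norm_num
  · intro j x t
    funext i b
    dsimp only
    rw [hP, hF]
  · intro x i b
    rfl
  · have hTe : T = ((Fintype.piFinset A) ×ˢ ((univ : Finset ι) ×ˢ B)).filter
        (fun t => (∀ j, P j t.1 t.2.1 t.2.2) ∧ P' t.1 t.2.1 ∧ P'' t.1 t.2.2) := by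
      ext t
      rw [hT, mem_filter, mem_product, mem_product, Fintype.mem_piFinset]
      unfold Clq
      constructor
      · rintro ⟨h1, h2, h3⟩
        exact ⟨⟨h1, mem_univ _, h2⟩, h3⟩
      · rintro ⟨⟨h1, _, h2⟩, h3⟩
        exact ⟨h1, h2, h3⟩
    rw [hTe, sum_filter, sum_product]
    unfold Sm
    refine sum_congr rfl fun x _ => ?_
    rw [sum_product]
    refine sum_congr rfl fun i _ => sum_congr rfl fun b _ => ?_
    dsimp only
    by_cases h1 : ∀ j, P j x i b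
    · by_cases h2 : P' x i
      · by_cases h3 : P'' x b
        · rw [if_pos ⟨h1, h2, h3⟩, if_pos h2, if_pos h3]
          have e1 : (∏ j, (if P j x i b then e (κ * F j x i b) else 0)) = e (∑ j, κ * F j x i b) := by
            rw [e_sum]
            exact prod_congr rfl fun j _ => if_pos (h1 j)
          rw [e1, ← e_add, ← e_add, ← e_add]
          congr 1
          unfold val
          dsimp only
          rw [← mul_sum]
          ring
        · rw [if_neg (fun h => h3 h.2.2), if_neg h3, mul_zero, zero_mul]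
      · rw [if_neg (fun h => h2 h.2.1), if_neg h2, mul_zero, zero_mul, zero_mul]
    · rw [if_neg (fun h => h1 h.1)]
      push Not at h1
      obtain ⟨j, hj⟩ := h1
      have e1 : (∏ j, (if P j x i b then e (κ * F j x i b) else 0)) = 0 :=
        prod_eq_zero (mem_univ j) (if_neg hj)
      rw [e1, zero_mul, zero_mul, zero_mul]

set_option maxHeartbeats 4000000 in
/-- **The criterion.** -/
theorem main (μ ε : ℝ) (hμ : 1 ≤ μ) (hε : 0 < ε) (h r : ℕ) (hh : 1 ≤ h) :
    ∃ κ δ : ℝ, 0 < κ ∧ 0 < δ ∧ ∀ (c : ℝ) (R : ℕ), 0 < c → ∃ N₀ : ℕ, ∀ N : ℕ, N₀ ≤ N → ∀ α : ℝ, Dioph c μ α →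
      ∀ (ι : Type) [Fintype ι] (v : ι → ℤ) (B : Finset ℕ) (A : Fin r → Finset ℕ) (U : Fin r → ℕ),
      (∀ i, |v i| ≤ R * N) → (∀ b ∈ B, b ≤ N) → (∀ j, ∀ a ∈ A j, a ≤ U j) → (∀ j, U j ≤ N ^ R) →
      (∀ j, (N : ℝ) ^ ε ≤ (A j).card) →
      (energy h v : ℝ) * (∏ j, (U j : ℝ)) * (N : ℝ) ^ (2 - 1 / μ + ε) ≤
        (Fintype.card ι : ℝ) ^ (2 * h) * B.card * ∏ j, ((A j).card : ℝ) →
      ∀ (P : Fin r → (Fin r → ℕ) → ι → ℕ → Prop) (P' : (Fin r → ℕ) → ι → Prop) (P'' : (Fin r → ℕ) → ℕ → Prop),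
      (∀ j x t, P j (Function.update x j t) = P j x) →
      ∀ T : Finset ((Fin r → ℕ) × ι × ℕ), (∀ t, t ∈ T ↔ Clq A B P P' P'' t) →
      (Fintype.card ι : ℝ) * B.card * (∏ j, ((A j).card : ℝ)) * (N : ℝ) ^ (-δ) ≤ T.card →
      ∀ (F : Fin r → (Fin r → ℕ) → ι → ℕ → ℝ) (G : (Fin r → ℕ) → ι → ℝ) (H : (Fin r → ℕ) → ℕ → ℝ),
      (∀ j x t, F j (Function.update x j t) = F j x) → (∀ t ∈ T, (N : ℝ) ^ ε ≤ val α v F G H t) →
      ∃ T' ⊆ T, (T.card : ℝ) * (N : ℝ) ^ (-ε) ≤ T'.card ∧ ∀ t ∈ T', PrimeFree (val α v F G H t) (κ * ff N) := by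
  classical
  have hμ0 : 0 < μ := by linarith
  have hμi : 0 < 1 / μ := by positivity
  have hμ1 : 1 / μ ≤ 1 := by
    rw [div_le_one hμ0]
    exact hμ
  obtain ⟨m, hm⟩ : ∃ m : ℕ, m = 4 * h * 2 ^ r := ⟨_, rfl⟩
  have hm1 : 1 ≤ m := by
    rw [hm]
    exact Nat.one_le_iff_ne_zero.mpr (by positivity)
  have hm1r : (1 : ℝ) ≤ m := by exact_mod_cast hm1
  set η : ℝ := min ε 1 / (4 * μ + 6 * m + 10) with hη
  have hmin : 0 < min ε 1 := lt_min hε one_pos
  have hη0 : 0 < η := by positivity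
  have hηm : (4 * μ + 6 * m + 10) * η = min ε 1 := by
    rw [hη]
    field_simp
  have hηε : (4 * μ + 6 * m + 10) * η ≤ ε := by rw [hηm]; exact min_le_left _ _
  have hη1 : (4 * μ + 6 * m + 10) * η ≤ 1 := by rw [hηm]; exact min_le_right _ _
  have hmη : 0 < m * η := by positivity
  have hμη : 0 < μ * η := by positivity
  have hηle : η ≤ ε := by nlinarith
  have hηle1 : η ≤ 1 := by nlinarith
  obtain ⟨κ, hκ, hcrit⟩ := Pool.Agent.Y565.RG.crit_count η hη0 hηle1
  refine ⟨κ, η, hκ, hη0, fun c R hc => ?_⟩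
  -- the divisor bound
  obtain ⟨η₁, hη₁⟩ : ∃ η₁ : ℝ, η₁ = η / (r * (r * R + 1) + 1) := ⟨_, rfl⟩
  have hη₁0 : 0 < η₁ := by rw [hη₁]; positivity
  have hη₁r : r * ((r * R + 1) * η₁) ≤ η := by
    have : (r * (r * R + 1) + 1) * η₁ = η := by
      rw [hη₁]
      field_simp
    nlinarith
  obtain ⟨Cd, hCd0, hCd⟩ := Pool.Agent.H369R2.divisor_bound η₁ hη₁0
  have hlim : ∀ s : ℝ, 0 < s → Tendsto (fun N : ℕ => (N : ℝ) ^ s) atTop atTop := fun s hs =>
    (tendsto_rpow_atTop hs).comp tendsto_natCast_atTop_atTop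
  apply eventually_atTop.mp
  filter_upwards [tendsto_natCast_atTop_atTop (R := ℝ) |>.eventually hcrit,
    F_boundW μ η c (2 * (h * R) + 1) hμ hη0 hc, eventually_ge_atTop 1,
    (hlim η hη0).eventually_ge_atTop (4 * (2 ^ (r + 1) * (2 * (h * R) + 1))),
    (hlim η hη0).eventually_ge_atTop (Cd ^ r), (hlim η hη0).eventually_ge_atTop (2 * r),
    (hlim η hη0).eventually_ge_atTop 8, (hlim ε hε).eventually_gt_atTop 1] with N hcr hFb hN1 hNa hNC hNr2 hN8 hNε
  intro α hα ι _ v B A U hv hB hA hU hAN hE P P' P'' hP T hT hTc F G H hF hpos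
  have hNr : (1 : ℝ) ≤ N := by exact_mod_cast hN1
  have hN0 : (0 : ℝ) < N := by linarith
  -- the trivial case
  rcases T.eq_empty_or_nonempty with hT0 | hTne
  · refine ⟨∅, empty_subset _, ?_, fun t ht => absurd ht (notMem_empty t)⟩
    rw [hT0]
    simp
  have hi0 : 0 < Fintype.card ι := by
    obtain ⟨t, _⟩ := hTne
    exact Fintype.card_pos_iff.2 ⟨t.2.1⟩
  have hb0 : 0 < B.card := by
    obtain ⟨t, ht⟩ := hTne
    exact card_pos.2 ⟨t.2.2, ((hT t).1 ht).2.1⟩
  have hA0 : ∀ j, 0 < (A j).card := by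
    intro j
    have h1 := hAN j
    have : (0 : ℝ) < (A j).card := by linarith
    exact_mod_cast this
  have hAU : ∀ j, ((A j).card : ℝ) ≤ 2 * U j := by
    intro j
    have h1 : (A j).card ≤ U j + 1 := by
      have h2 : A j ⊆ range (U j + 1) := fun a ha => by
        rw [mem_range]
        have := hA j a ha
        omega
      have := card_le_card h2
      rwa [card_range] at this
    have h2 := hAN j
    have h3 : (1 : ℝ) < (A j).card := by linarith
    have h4 : 1 < (A j).card := by exact_mod_cast h3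
    have h5 : (A j).card ≤ 2 * U j := by omega
    exact_mod_cast h5
  have hU1 : ∀ j, 1 ≤ U j := by
    intro j
    have h1 := hAU j
    have h2 := hA0 j
    have h3 : (A j).card ≤ 2 * U j := by exact_mod_cast h1
    omega
  obtain ⟨I, hIdef⟩ : ∃ I : ℝ, I = (Fintype.card ι : ℝ) := ⟨_, rfl⟩
  obtain ⟨J, hJdef⟩ : ∃ J : ℝ, J = (B.card : ℝ) := ⟨_, rfl⟩
  obtain ⟨a, hadef⟩ : ∃ a : ℝ, a = ∏ j, ((A j).card : ℝ) := ⟨_, rfl⟩
  obtain ⟨u, hudef⟩ : ∃ u : ℝ, u = ∏ j, (U j : ℝ) := ⟨_, rfl⟩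
  obtain ⟨E, hEdef⟩ : ∃ E : ℝ, E = (energy h v : ℝ) := ⟨_, rfl⟩
  rw [← hIdef, ← hJdef, ← hadef, ← hudef, ← hEdef] at hE
  rw [← hIdef, ← hJdef, ← hadef] at hTc
  have hI : 0 < I := by rw [hIdef]; exact_mod_cast hi0
  have hJ : 0 < J := by rw [hJdef]; exact_mod_cast hb0
  have ha : 0 < a := by rw [hadef]; exact prod_pos fun j _ => by exact_mod_cast hA0 j
  have hu : 0 < u := by rw [hudef]; exact prod_pos fun j _ => by exact_mod_cast hU1 j
  have hE0 : 0 ≤ E := by rw [hEdef]; exact Nat.cast_nonneg _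
  have hau : a ≤ 2 ^ r * u := by
    have h1 : a ≤ ∏ j : Fin r, (2 * (U j : ℝ)) := by
      rw [hadef]
      exact prod_le_prod (fun _ _ => Nat.cast_nonneg _) fun j _ => hAU j
    rw [prod_mul_distrib, prod_const, card_univ, Fintype.card_fin, ← hudef] at h1
    exact h1
  obtain ⟨K, hKdef⟩ : ∃ K : ℝ, K = 2 * E / (I ^ (2 * h) * J) := ⟨_, rfl⟩
  have hK0 : 0 ≤ K := by rw [hKdef]; positivity
  have hKeq : K * (I ^ (2 * h) * J) = 2 * E := by
    rw [hKdef]
    field_simp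
  have hK1 : K * u * (N : ℝ) ^ (2 - 1 / μ + ε) ≤ 2 * a := by
    have hIJ : 0 < I ^ (2 * h) * J := by positivity
    have h1 : (K * u * (N : ℝ) ^ (2 - 1 / μ + ε)) * (I ^ (2 * h) * J) ≤ (2 * a) * (I ^ (2 * h) * J) := by
      calc (K * u * (N : ℝ) ^ (2 - 1 / μ + ε)) * (I ^ (2 * h) * J) = (K * (I ^ (2 * h) * J)) * u * (N : ℝ) ^ (2 - 1 / μ + ε) := by ring
        _ = 2 * (E * u * (N : ℝ) ^ (2 - 1 / μ + ε)) := by rw [hKeq]; ring
        _ ≤ 2 * (I ^ (2 * h) * J * a) := by linarith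
        _ = _ := by ring
    exact le_of_mul_le_mul_right h1 hIJ
  have hsv : ∀ x : Fin h → ι, |∑ j, v (x j)| ≤ ((h * R * N : ℕ) : ℤ) := by
    intro x
    refine (abs_sum_le_sum_abs _ _).trans ?_
    refine (sum_le_sum fun j _ => hv (x j)).trans (le_of_eq ?_)
    rw [sum_const, card_univ, Fintype.card_fin, nsmul_eq_mul]
    push_cast
    ring
  obtain ⟨T', hT'1, hT'2, hT'3⟩ := hcr ((Fin r → ℕ) × ι × ℕ) T (fun t => val α v F G H t) hTne
    (fun t ht => (Real.rpow_le_rpow_of_exponent_le hNr hηle).trans (hpos t ht)) (by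
      intro q k hq hqN hk hkN
      obtain ⟨cc, hcc, hsum⟩ := sum_clq A B P P' P'' hP T hT α ((k : ℝ) / q) v F G H hF
      rw [hsum]
      have hbd := Sm_bound h (h * R * N) N hh v hsv B hB hi0 hb0 K hK0 (by rw [← hIdef, ← hJdef, ← hEdef]; exact hKeq.ge)
        r A U hA hA0 ((k : ℝ) / q * α) cc hcc
      rw [← hm, ← hIdef, ← hJdef, ← hadef] at hbd
      -- the sum of the geometric sums
      have hH : 2 * (h * R * N) + 1 ≤ (2 * (h * R) + 1) * N := by nlinarith
      obtain ⟨X, hX⟩ : ∃ X : ℝ, X = (N : ℝ) ^ (2 - 1 / μ + (4 * μ + 3) * η) := ⟨_, rfl⟩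
      have hX0 : 0 < X := by rw [hX]; positivity
      have hW1 : 1 ≤ ∏ j, U j := Nat.one_le_iff_ne_zero.mpr (prod_ne_zero_iff.2 fun j _ => by have := hU1 j; omega)
      have hGs : Gs U (h * R * N) N ((k : ℝ) / q * α) ≤ ((N : ℝ) ^ η * (N : ℝ) ^ η) * (u * X) := by
        have g1 := Gs_le U (h * R * N) N ((k : ℝ) / q * α) Cd η₁ hCd0.le hη₁0.le hCd
        have g2 := hFb α hα q k hq hqN hk hkN (2 * (h * R * N) + 1) hH (∏ j, U j) hW1
        have g3 : ∑ m ∈ Finset.Icc 1 ((∏ j, U j) * N), ker (h * R * N) ((k : ℝ) / q * α * m) ≤ u * X := by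
          refine (le_of_eq ?_).trans (g2.trans (le_of_eq ?_))
          · rfl
          · rw [hudef, hX]
            push_cast
            rfl
        have g4 : (Cd * (((∏ j, U j) * N : ℕ) : ℝ) ^ η₁) ^ r ≤ (N : ℝ) ^ η * (N : ℝ) ^ η := by
          rw [mul_pow]
          apply mul_le_mul hNC _ (by positivity) (by positivity)
          have g5 : (((∏ j, U j) * N : ℕ) : ℝ) ≤ (N : ℝ) ^ ((r * R + 1 : ℕ) : ℝ) := by
            rw [Real.rpow_natCast]
            have g6 : ∏ j, U j ≤ ∏ _j : Fin r, N ^ R := prod_le_prod' fun j _ => hU j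
            rw [prod_const, card_univ, Fintype.card_fin, ← pow_mul] at g6
            have g7 : (∏ j, U j) * N ≤ N ^ (r * R + 1) := by
              rw [pow_succ, mul_comm r R]
              exact Nat.mul_le_mul_right _ g6
            exact_mod_cast g7
          calc ((((∏ j, U j) * N : ℕ) : ℝ) ^ η₁) ^ r ≤ (((N : ℝ) ^ ((r * R + 1 : ℕ) : ℝ)) ^ η₁) ^ r := by
                apply pow_le_pow_left₀ (by positivity)
                exact Real.rpow_le_rpow (by positivity) g5 hη₁0.le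
            _ = (N : ℝ) ^ (r * ((r * R + 1) * η₁)) := by
                rw [← Real.rpow_mul hN0.le, ← Real.rpow_natCast, ← Real.rpow_mul hN0.le]
                congr 1
                push_cast
                ring
            _ ≤ _ := Real.rpow_le_rpow_of_exponent_le hNr hη₁r
        refine g1.trans ?_
        apply mul_le_mul g4 g3 (sum_nonneg fun _ _ => ker_nonneg _ _) (by positivity)
      obtain ⟨Γ, hΓ⟩ : ∃ Γ : ℝ, Γ = Gs U (h * R * N) N ((k : ℝ) / q * α) := ⟨_, rfl⟩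
      have hΓ0 : 0 ≤ Γ := by rw [hΓ]; exact Gs_nonneg _ _ _ _
      rw [← hΓ] at hGs hbd
      -- the three terms
      have z1 : ∑ j, 1 / ((A j).card : ℝ) ≤ (N : ℝ) ^ (-(6 * m * η)) / 2 := by
        have y1 : ∑ j, 1 / ((A j).card : ℝ) ≤ r * (N : ℝ) ^ (-ε) := by
          calc ∑ j, 1 / ((A j).card : ℝ) ≤ ∑ _j : Fin r, (N : ℝ) ^ (-ε) := by
                refine sum_le_sum fun j _ => ?_
                rw [Real.rpow_neg hN0.le, ← one_div]
                exact one_div_le_one_div_of_le (by positivity) (hAN j)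
            _ = _ := by rw [sum_const, card_univ, Fintype.card_fin, nsmul_eq_mul]
        have y2 : (N : ℝ) ^ (-ε) * (N : ℝ) ^ η ≤ (N : ℝ) ^ (-(6 * m * η)) := by
          rw [← Real.rpow_add hN0]
          apply Real.rpow_le_rpow_of_exponent_le hNr
          nlinarith
        have y3 : 2 * (r * (N : ℝ) ^ (-ε)) ≤ (N : ℝ) ^ (-ε) * (N : ℝ) ^ η := by
          calc 2 * (r * (N : ℝ) ^ (-ε)) = (N : ℝ) ^ (-ε) * (2 * r) := by ring
            _ ≤ _ := mul_le_mul_of_nonneg_left hNr2 (by positivity)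
        linarith
      have hKN : K * (N : ℝ) ^ (2 - 1 / μ + ε) ≤ 2 ^ (r + 1) := by
        have y1 : (K * (N : ℝ) ^ (2 - 1 / μ + ε)) * u ≤ 2 ^ (r + 1) * u := by
          calc (K * (N : ℝ) ^ (2 - 1 / μ + ε)) * u = K * u * (N : ℝ) ^ (2 - 1 / μ + ε) := by ring
            _ ≤ 2 * a := hK1
            _ ≤ 2 * (2 ^ r * u) := by linarith
            _ = _ := by ring
        exact le_of_mul_le_mul_right y1 hu
      have z2 : K * ((2 * (h * R * N) + 1 : ℕ) : ℝ) ≤ (N : ℝ) ^ (-(6 * m * η)) / 4 := by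
        have y1 : ((2 * (h * R * N) + 1 : ℕ) : ℝ) ≤ (2 * (h * R) + 1 : ℝ) * N := by exact_mod_cast hH
        have y2 : K * N ≤ 2 ^ (r + 1) * (N : ℝ) ^ (-ε) := by
          calc K * N = K * (N : ℝ) ^ (1 : ℝ) := by rw [Real.rpow_one]
            _ ≤ K * (N : ℝ) ^ ((2 - 1 / μ + ε) + (-ε)) := by
                apply mul_le_mul_of_nonneg_left _ hK0
                apply Real.rpow_le_rpow_of_exponent_le hNr
                linarith
            _ = K * (N : ℝ) ^ (2 - 1 / μ + ε) * (N : ℝ) ^ (-ε) := by rw [Real.rpow_add hN0, mul_assoc]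
            _ ≤ _ := mul_le_mul_of_nonneg_right hKN (by positivity)
        have y3 : (N : ℝ) ^ (-ε) * (N : ℝ) ^ η ≤ (N : ℝ) ^ (-(6 * m * η)) := by
          rw [← Real.rpow_add hN0]
          apply Real.rpow_le_rpow_of_exponent_le hNr
          nlinarith
        calc K * ((2 * (h * R * N) + 1 : ℕ) : ℝ) ≤ K * ((2 * (h * R) + 1 : ℝ) * N) := mul_le_mul_of_nonneg_left y1 hK0
          _ = (2 * (h * R) + 1 : ℝ) * (K * N) := by ring
          _ ≤ (2 * (h * R) + 1 : ℝ) * (2 ^ (r + 1) * (N : ℝ) ^ (-ε)) := mul_le_mul_of_nonneg_left y2 (by positivity)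
          _ = (N : ℝ) ^ (-ε) * (4 * (2 ^ (r + 1) * (2 * (h * R) + 1))) / 4 := by ring
          _ ≤ (N : ℝ) ^ (-ε) * (N : ℝ) ^ η / 4 := by
              apply div_le_div_of_nonneg_right _ (by norm_num)
              exact mul_le_mul_of_nonneg_left hNa (by positivity)
          _ ≤ _ := by linarith
      have z3 : K * (2 ^ r / a * Γ) ≤ (N : ℝ) ^ (-(6 * m * η)) / 4 := by
        have y0 : (4 : ℝ) * 2 ^ (r + 1) ≤ (N : ℝ) ^ η := by
          refine le_trans ?_ hNa
          have : (1 : ℝ) ≤ 2 * (h * R) + 1 := by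
            have : (0 : ℝ) ≤ h * R := by positivity
            linarith
          have y00 : (0 : ℝ) < 4 * 2 ^ (r + 1) := by positivity
          nlinarith
        calc K * (2 ^ r / a * Γ) ≤
            K * (2 ^ r / a * (((N : ℝ) ^ η * (N : ℝ) ^ η) * (u * X))) := by
              apply mul_le_mul_of_nonneg_left _ hK0
              exact mul_le_mul_of_nonneg_left hGs (by positivity)
          _ = 2 ^ r / a * (K * u * (N : ℝ) ^ (2 - 1 / μ + ε)) * (N : ℝ) ^ ((4 * μ + 5) * η - ε) := by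
              have : (N : ℝ) ^ η * (N : ℝ) ^ η * X = (N : ℝ) ^ (2 - 1 / μ + ε) * (N : ℝ) ^ ((4 * μ + 5) * η - ε) := by
                rw [hX, ← Real.rpow_add hN0, ← Real.rpow_add hN0, ← Real.rpow_add hN0]
                congr 1
                ring
              calc _ = 2 ^ r / a * (K * u) * ((N : ℝ) ^ η * (N : ℝ) ^ η * X) := by ring
                _ = _ := by rw [this]; ring
          _ ≤ 2 ^ r / a * (2 * a) * (N : ℝ) ^ ((4 * μ + 5) * η - ε) := by
              apply mul_le_mul_of_nonneg_right _ (by positivity)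
              exact mul_le_mul_of_nonneg_left hK1 (by positivity)
          _ = (4 * 2 ^ (r + 1)) * (N : ℝ) ^ ((4 * μ + 5) * η - ε) / 4 := by
              field_simp
              ring
          _ ≤ (N : ℝ) ^ η * (N : ℝ) ^ ((4 * μ + 5) * η - ε) / 4 := by
              apply div_le_div_of_nonneg_right _ (by norm_num)
              exact mul_le_mul_of_nonneg_right y0 (by positivity)
          _ ≤ _ := by
              apply div_le_div_of_nonneg_right _ (by norm_num)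
              rw [← Real.rpow_add hN0]
              apply Real.rpow_le_rpow_of_exponent_le hNr
              nlinarith
      have z4 : ∑ j, 1 / ((A j).card : ℝ) + K * (((2 * (h * R * N) + 1 : ℕ) : ℝ) +
          2 ^ r / a * Γ) ≤ (N : ℝ) ^ (-(6 * m * η)) := by
        rw [mul_add]
        linarith
      have z5 : ‖Sm A B v ((k : ℝ) / q * α) cc‖ ^ m ≤ (T.card * (N : ℝ) ^ (-(4 * η)) / 8) ^ m := by
        refine hbd.trans ?_
        have y1 : (N : ℝ) ^ (-(6 * m * η)) = ((N : ℝ) ^ (-(6 * η))) ^ m := by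
          rw [← Real.rpow_natCast, ← Real.rpow_mul hN0.le]
          congr 1
          ring
        calc (I * J * a) ^ m * (∑ j, 1 / ((A j).card : ℝ) + K * (((2 * (h * R * N) + 1 : ℕ) : ℝ) +
              2 ^ r / a * Γ)) ≤ (I * J * a) ^ m * (N : ℝ) ^ (-(6 * m * η)) :=
              mul_le_mul_of_nonneg_left z4 (by positivity)
          _ = (I * J * a * (N : ℝ) ^ (-(6 * η))) ^ m := by rw [y1, ← mul_pow]
          _ ≤ _ := by
              apply pow_le_pow_left₀ (by positivity)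
              have y2 : (N : ℝ) ^ (-(6 * η)) = (N : ℝ) ^ (-η) * (N : ℝ) ^ (-(4 * η)) * (N : ℝ) ^ (-η) := by
                rw [← Real.rpow_add hN0, ← Real.rpow_add hN0]
                congr 1
                ring
              have y3 : (N : ℝ) ^ (-η) ≤ 1 / 8 := by
                rw [Real.rpow_neg hN0.le, ← one_div]
                exact one_div_le_one_div_of_le (by norm_num) hN8
              calc I * J * a * (N : ℝ) ^ (-(6 * η)) = (I * J * a * (N : ℝ) ^ (-η)) * (N : ℝ) ^ (-(4 * η)) * (N : ℝ) ^ (-η) := by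
                    rw [y2]; ring
                _ ≤ T.card * (N : ℝ) ^ (-(4 * η)) * (1 / 8) := by
                    apply mul_le_mul _ y3 (by positivity) (by positivity)
                    exact mul_le_mul_of_nonneg_right hTc (by positivity)
                _ = _ := by ring
      exact (pow_le_pow_iff_left₀ (norm_nonneg _) (by positivity) (by omega)).mp z5)
  refine ⟨T', hT'1, ?_, fun t ht q hq => hT'3 t ht q hq⟩
  refine le_trans ?_ hT'2
  have h4 : (N : ℝ) ^ (-ε) ≤ (N : ℝ) ^ (-(4 * η)) / 2 := by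
    calc (N : ℝ) ^ (-ε) ≤ (N : ℝ) ^ (-(4 * η) - η) := by
          apply Real.rpow_le_rpow_of_exponent_le hNr
          nlinarith
      _ = (N : ℝ) ^ (-(4 * η)) / (N : ℝ) ^ η := Real.rpow_sub hN0 _ _
      _ ≤ _ := by
          apply div_le_div_of_nonneg_left (by positivity) (by norm_num)
          linarith
  calc (T.card : ℝ) * (N : ℝ) ^ (-ε) ≤ T.card * ((N : ℝ) ^ (-(4 * η)) / 2) := by gcongr
    _ = _ := by ring

end Pool.Agent.W5h23.HG
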