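import Pool.Agent.W5h23.HG.Sum

set_option autoImplicit false

/-!
The recursion for the multilinear sums.
-/

namespace Pool.Agent.W5h23.HG

open Finset Filter
open Pool.Agent.H469R2.NK (e norm_e e_add conj_e e_zero)
open Pool.Agent.W5h23.RG

section

variable {ι : Type} [Fintype ι]

/-- the arithmetic of the step -/
lemma step_arith (m : ℕ) (hm : 1 ≤ m) (S P a s K W Q G T D : ℝ) (ha : 0 < a) (hP : 0 ≤ P) (hS : 0 ≤ S) (hT : 0 ≤ T)
    (h1 : S ^ 2 ≤ P * T) (h2 : T ^ m ≤ (a ^ 2) ^ (m - 1) * D)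
    (h3 : D ≤ P ^ m * (a + a * (a * (s + K * W) + K * Q * (2 * G)))) :
    S ^ (2 * m) ≤ (P * a) ^ (2 * m) * ((1 / a + s) + K * (W + 2 * Q * G / a)) := by
  calc S ^ (2 * m) = (S ^ 2) ^ m := by rw [pow_mul]
    _ ≤ (P * T) ^ m := pow_le_pow_left₀ (by positivity) h1 m
    _ = P ^ m * T ^ m := mul_pow _ _ _
    _ ≤ P ^ m * ((a ^ 2) ^ (m - 1) * D) := mul_le_mul_of_nonneg_left h2 (by positivity)
    _ ≤ P ^ m * ((a ^ 2) ^ (m - 1) * (P ^ m * (a + a * (a * (s + K * W) + K * Q * (2 * G))))) := by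
        apply mul_le_mul_of_nonneg_left _ (by positivity)
        exact mul_le_mul_of_nonneg_left h3 (by positivity)
    _ = (P ^ m) ^ 2 * ((a ^ 2) ^ (m - 1) * a ^ 2) * ((1 / a + s) + K * (W + 2 * Q * G / a)) := by
        field_simp
        ring
    _ = _ := by
        rw [← pow_succ, show m - 1 + 1 = m by omega, mul_pow P a (2 * m), ← pow_mul, ← pow_mul, mul_comm m 2]

theorem Sm_bound (h H N : ℕ) (hh : 1 ≤ h) (v : ι → ℤ) (hv : ∀ x : Fin h → ι, |∑ j, v (x j)| ≤ H)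
    (B : Finset ℕ) (hB : ∀ b ∈ B, b ≤ N) (hi0 : 0 < Fintype.card ι) (hb0 : 0 < B.card) (K : ℝ) (hK0 : 0 ≤ K)
    (hK : 2 * (energy h v : ℝ) ≤ K * ((Fintype.card ι : ℝ) ^ (2 * h) * B.card)) :
    ∀ (r : ℕ) (A : Fin r → Finset ℕ) (U : Fin r → ℕ), (∀ j, ∀ a ∈ A j, a ≤ U j) → (∀ j, 0 < (A j).card) →
      ∀ (θ : ℝ) (c : (Fin r → ℕ) → ι → ℕ → ℂ), Cyl c →
      ‖Sm A B v θ c‖ ^ (4 * h * 2 ^ r) ≤ ((Fintype.card ι : ℝ) * B.card * ∏ j, ((A j).card : ℝ)) ^ (4 * h * 2 ^ r) *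
        (∑ j, 1 / ((A j).card : ℝ) + K * ((2 * H + 1 : ℕ) + 2 ^ r / (∏ j, ((A j).card : ℝ)) * Gs U H N θ)) := by
  classical
  intro r
  induction r with
  | zero =>
    intro A U _ _ θ c hc
    obtain ⟨C, C', C'', h1, h2, h3, h4, h5⟩ := hc
    obtain ⟨x0, -⟩ : ∃ x0 : Fin 0 → ℕ, True := ⟨Fin.elim0, trivial⟩
    have hpi : ∀ W : Fin 0 → Finset ℕ, Fintype.piFinset W = {x0} := by
      intro W
      ext y
      rw [Fintype.mem_piFinset, mem_singleton]
      exact ⟨fun _ => Subsingleton.elim _ _, fun _ j => Fin.elim0 j⟩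
    have e1 : Sm A B v θ c = ∑ i, ∑ b ∈ B, C' x0 i * C'' x0 b * e (θ * v i * b) := by
      unfold Sm
      rw [hpi, sum_singleton]
      refine sum_congr rfl fun i _ => sum_congr rfl fun b _ => ?_
      rw [h5, univ_eq_empty, prod_empty, prod_empty, one_mul, mul_one]
    have e2 : Gs U H N θ = ∑ d ∈ Finset.Icc 1 N, ker H (θ * d) := by
      unfold Gs
      rw [hpi, sum_singleton]
      refine sum_congr rfl fun d _ => ?_
      rw [univ_eq_empty, prod_empty, mul_one]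
    have key := bilinK h H N hh θ v hv B hB (fun i => C' x0 i) (fun b => C'' x0 b) (fun i => h2 _ _)
      (fun b => h3 _ _) hi0 hb0 K hK
    rw [e1, e2]
    simpa using key
  | succ r ih =>
    intro A U hA hA0 θ c hc
    obtain ⟨D, hD, hstep⟩ := Sm_step A B v θ c hc
    have ha0 : (0 : ℝ) < (A 0).card := by exact_mod_cast hA0 0
    have hP0 : (0 : ℝ) < (Fintype.card ι : ℝ) * B.card * ∏ j : Fin r, ((A j.succ).card : ℝ) := by
      apply mul_pos (mul_pos (by exact_mod_cast hi0) (by exact_mod_cast hb0))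
      exact prod_pos fun j _ => by exact_mod_cast hA0 j.succ
    have hQ0 : (0 : ℝ) < ∏ j : Fin r, ((A j.succ).card : ℝ) := prod_pos fun j _ => by exact_mod_cast hA0 j.succ
    -- the moments
    have h3 : ∑ p ∈ A 0 ×ˢ A 0, ‖Sm (fun j => A j.succ) B v (θ * ((p.1 : ℝ) - p.2)) (D p.1 p.2)‖ ^ (4 * h * 2 ^ r) ≤
        ((Fintype.card ι : ℝ) * B.card * ∏ j : Fin r, ((A j.succ).card : ℝ)) ^ (4 * h * 2 ^ r) *
          ((A 0).card + (A 0).card * ((A 0).card * (∑ j : Fin r, 1 / ((A j.succ).card : ℝ) + K * (2 * H + 1 : ℕ)) +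
            K * (2 ^ r / (∏ j : Fin r, ((A j.succ).card : ℝ))) * (2 * Gs U H N θ))) := by
      rw [sum_product]
      have h4 : ∀ a ∈ A 0, ∑ a' ∈ A 0, ‖Sm (fun j => A j.succ) B v (θ * ((a : ℝ) - a')) (D a a')‖ ^ (4 * h * 2 ^ r) ≤
          ((Fintype.card ι : ℝ) * B.card * ∏ j : Fin r, ((A j.succ).card : ℝ)) ^ (4 * h * 2 ^ r) *
            (1 + ((A 0).card * (∑ j : Fin r, 1 / ((A j.succ).card : ℝ) + K * (2 * H + 1 : ℕ)) +
              K * (2 ^ r / (∏ j : Fin r, ((A j.succ).card : ℝ))) * (2 * Gs U H N θ))) := by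
        intro a ha
        rw [← add_sum_erase _ _ ha]
        have t1 : ‖Sm (fun j => A j.succ) B v (θ * ((a : ℝ) - a)) (D a a)‖ ^ (4 * h * 2 ^ r) ≤
            ((Fintype.card ι : ℝ) * B.card * ∏ j : Fin r, ((A j.succ).card : ℝ)) ^ (4 * h * 2 ^ r) * 1 := by
          rw [mul_one]
          exact pow_le_pow_left₀ (norm_nonneg _) (Sm_trivial _ _ _ _ _ (hD a a)) _
        have t2 : ∀ a' ∈ (A 0).erase a, ‖Sm (fun j => A j.succ) B v (θ * ((a : ℝ) - a')) (D a a')‖ ^ (4 * h * 2 ^ r) ≤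
            ((Fintype.card ι : ℝ) * B.card * ∏ j : Fin r, ((A j.succ).card : ℝ)) ^ (4 * h * 2 ^ r) *
            ((∑ j : Fin r, 1 / ((A j.succ).card : ℝ) + K * (2 * H + 1 : ℕ)) +
              K * (2 ^ r / (∏ j : Fin r, ((A j.succ).card : ℝ))) * Gs (fun j => U j.succ) H N (θ * ((a : ℝ) - a'))) := by
          intro a' _
          refine (ih (fun j => A j.succ) (fun j => U j.succ) (fun j => hA j.succ) (fun j => hA0 j.succ) _ _
            (hD a a')).trans (le_of_eq ?_)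
          ring
        have t3 : ∑ a' ∈ (A 0).erase a, Gs (fun j => U j.succ) H N (θ * ((a : ℝ) - a')) ≤ 2 * Gs U H N θ := by
          rw [Gs_succ]
          exact diff_sum (fun t => Gs (fun j => U j.succ) H N t) (fun t => Gs_nonneg _ _ _ _) (fun t => Gs_neg _ _ _ _)
            (U 0) (A 0) (hA 0) θ a (hA 0 a ha)
        have t4 : ∑ a' ∈ (A 0).erase a, ((∑ j : Fin r, 1 / ((A j.succ).card : ℝ) + K * (2 * H + 1 : ℕ)) +
              K * (2 ^ r / (∏ j : Fin r, ((A j.succ).card : ℝ))) * Gs (fun j => U j.succ) H N (θ * ((a : ℝ) - a'))) ≤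
            (A 0).card * (∑ j : Fin r, 1 / ((A j.succ).card : ℝ) + K * (2 * H + 1 : ℕ)) +
              K * (2 ^ r / (∏ j : Fin r, ((A j.succ).card : ℝ))) * (2 * Gs U H N θ) := by
          rw [sum_add_distrib, ← mul_sum, sum_const, nsmul_eq_mul]
          apply add_le_add
          · apply mul_le_mul_of_nonneg_right
            · exact_mod_cast card_le_card (erase_subset _ _)
            · apply add_nonneg
              · exact sum_nonneg fun j _ => by positivity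
              · positivity
          · apply mul_le_mul_of_nonneg_left t3
            positivity
        calc _ ≤ ((Fintype.card ι : ℝ) * B.card * ∏ j : Fin r, ((A j.succ).card : ℝ)) ^ (4 * h * 2 ^ r) * 1 +
              ∑ a' ∈ (A 0).erase a, ((Fintype.card ι : ℝ) * B.card * ∏ j : Fin r, ((A j.succ).card : ℝ)) ^ (4 * h * 2 ^ r) *
              ((∑ j : Fin r, 1 / ((A j.succ).card : ℝ) + K * (2 * H + 1 : ℕ)) +
              K * (2 ^ r / (∏ j : Fin r, ((A j.succ).card : ℝ))) * Gs (fun j => U j.succ) H N (θ * ((a : ℝ) - a'))) :=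
              add_le_add t1 (sum_le_sum t2)
          _ ≤ _ := by
              rw [← mul_sum, ← mul_add]
              apply mul_le_mul_of_nonneg_left _ (by positivity)
              exact add_le_add le_rfl t4
      refine (sum_le_sum h4).trans (le_of_eq ?_)
      rw [sum_const, nsmul_eq_mul]
      ring
    have h2 : (∑ p ∈ A 0 ×ˢ A 0, ‖Sm (fun j => A j.succ) B v (θ * ((p.1 : ℝ) - p.2)) (D p.1 p.2)‖) ^ (4 * h * 2 ^ r) ≤
        ((((A 0).card : ℝ)) ^ 2) ^ (4 * h * 2 ^ r - 1) *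
        ∑ p ∈ A 0 ×ˢ A 0, ‖Sm (fun j => A j.succ) B v (θ * ((p.1 : ℝ) - p.2)) (D p.1 p.2)‖ ^ (4 * h * 2 ^ r) := by
      have hm : 1 ≤ 4 * h * 2 ^ r := Nat.one_le_iff_ne_zero.mpr (by positivity)
      have e2 := pow_sum_div_card_le_sum_pow (s := A 0 ×ˢ A 0)
        (f := fun p : ℕ × ℕ => ‖Sm (fun j => A j.succ) B v (θ * ((p.1 : ℝ) - p.2)) (D p.1 p.2)‖)
        (fun _ _ => norm_nonneg _) (4 * h * 2 ^ r - 1)
      rw [show 4 * h * 2 ^ r - 1 + 1 = 4 * h * 2 ^ r by omega, card_product] at e2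
      have hc0 : (0 : ℝ) < (((A 0).card * (A 0).card : ℕ) : ℝ) := by
        push_cast
        exact mul_pos ha0 ha0
      rw [div_le_iff₀ (pow_pos hc0 _)] at e2
      refine e2.trans (le_of_eq ?_)
      push_cast
      ring
    have hm : 1 ≤ 4 * h * 2 ^ r := Nat.one_le_iff_ne_zero.mpr (by positivity)
    have e1 : ∑ a ∈ A 0, ∑ a' ∈ A 0, ‖Sm (fun j => A j.succ) B v (θ * ((a : ℝ) - a')) (D a a')‖ =
        ∑ p ∈ A 0 ×ˢ A 0, ‖Sm (fun j => A j.succ) B v (θ * ((p.1 : ℝ) - p.2)) (D p.1 p.2)‖ := by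
      rw [sum_product]
    rw [e1] at hstep
    have key := step_arith (4 * h * 2 ^ r) hm _ _ _ _ K _ _ _ _ _ ha0 hP0.le (norm_nonneg _)
      (sum_nonneg fun _ _ => norm_nonneg _) hstep h2 h3
    have e3 : 4 * h * 2 ^ (r + 1) = 2 * (4 * h * 2 ^ r) := by ring
    rw [e3]
    refine key.trans (le_of_eq ?_)
    rw [Fin.prod_univ_succ, Fin.sum_univ_succ]
    have hQ := hQ0.ne'
    congr 1
    · congr 1
      ring
    · congr 2
      rw [pow_succ]
      field_simp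

end

end Pool.Agent.W5h23.HG
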