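import Pool.Agent.W5h23.RG.Main
import Pool.Agent.H369R2.S6a

set_option autoImplicit false

/-!
Multilinear sums `∑ c(x, i, b) e(θ x₁ ⋯ x_r v(i) b)` whose coefficients are products of functions each of which does not
depend on one of the variables.
-/

namespace Pool.Agent.W5h23.HG

open Finset Filter
open Pool.Agent.H469R2.NK (e norm_e e_add conj_e e_zero)
open Pool.Agent.W5h23.RG

section

variable {ι : Type} [Fintype ι]

/-- **The bilinear inequality**, with coefficients. -/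
theorem bilinC (h H N : ℕ) (hh : 1 ≤ h) (θ G : ℝ)
    (hG : ∑ d ∈ Finset.Icc 1 N, ‖∑ j ∈ range (2 * H + 1), e (j * (θ * d))‖ ≤ G)
    (v : ι → ℤ) (hv : ∀ x : Fin h → ι, |∑ j, v (x j)| ≤ H)
    (B : Finset ℕ) (hB : ∀ b ∈ B, b ≤ N) (f : ι → ℂ) (g : ℕ → ℂ) (hf : ∀ i, ‖f i‖ ≤ 1) (hg : ∀ b, ‖g b‖ ≤ 1) :
    ‖∑ i, ∑ b ∈ B, f i * g b * e (θ * v i * b)‖ ^ (4 * h) ≤
      (Fintype.card ι : ℝ) ^ (2 * h) * (B.card : ℝ) ^ (4 * h - 1) * (2 * ((2 * H + 1 : ℕ) + G) * energy h v) := by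
  classical
  set S : ℂ := ∑ i, ∑ b ∈ B, f i * g b * e (θ * v i * b) with hS
  set T : ℝ := ∑ b₀ ∈ B, ∑ b ∈ B, ‖V v (θ * ((b : ℝ) - b₀))‖ with hT
  have hT0 : 0 ≤ T := sum_nonneg fun _ _ => sum_nonneg fun _ _ => norm_nonneg _
  -- Cauchy and Schwarz
  have h1 : ‖S‖ ^ 2 ≤ (Fintype.card ι : ℝ) * T := by
    have e1 : ‖S‖ ≤ ∑ i, 1 * ‖∑ b ∈ B, g b * e (θ * v i * b)‖ := by
      rw [hS]
      refine (norm_sum_le _ _).trans (sum_le_sum fun i _ => ?_)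
      have e2 : ∑ b ∈ B, f i * g b * e (θ * v i * b) = f i * ∑ b ∈ B, g b * e (θ * v i * b) := by
        rw [mul_sum]
        refine sum_congr rfl fun b _ => ?_
        ring
      rw [e2, norm_mul]
      exact mul_le_mul_of_nonneg_right (hf i) (norm_nonneg _)
    have e3 : ‖S‖ ^ 2 ≤ (∑ _i : ι, (1 : ℝ) ^ 2) * ∑ i, ‖∑ b ∈ B, g b * e (θ * v i * b)‖ ^ 2 :=
      (pow_le_pow_left₀ (norm_nonneg _) e1 2).trans (sum_mul_sq_le_sq_mul_sq _ _ _)
    have e4 : (∑ _i : ι, (1 : ℝ) ^ 2) = Fintype.card ι := by simp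
    rw [e4] at e3
    refine e3.trans (mul_le_mul_of_nonneg_left ?_ (Nat.cast_nonneg _))
    have e5 : ((∑ i, ‖∑ b ∈ B, g b * e (θ * v i * b)‖ ^ 2 : ℝ) : ℂ) =
        ∑ b₀ ∈ B, ∑ b ∈ B, g b * (starRingEnd ℂ) (g b₀) * V v (θ * ((b : ℝ) - b₀)) := by
      push_cast
      have e6 : ∀ i : ι, ((‖∑ b ∈ B, g b * e (θ * v i * b)‖ : ℂ)) ^ 2 =
          ∑ b ∈ B, ∑ b₀ ∈ B, g b * (starRingEnd ℂ) (g b₀) * e (θ * ((b : ℝ) - b₀) * v i) := by
        intro i
        rw [← Complex.mul_conj', map_sum, sum_mul_sum]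
        refine sum_congr rfl fun b _ => sum_congr rfl fun b₀ _ => ?_
        rw [map_mul, conj_e]
        have : e (θ * ((b : ℝ) - b₀) * v i) = e (θ * v i * b) * e (-(θ * v i * b₀)) := by
          rw [← e_add]
          congr 1
          ring
        rw [this]
        ring
      rw [sum_congr rfl fun i _ => e6 i, sum_comm]
      have e7 : ∀ b ∈ B, ∑ i : ι, ∑ b₀ ∈ B, g b * (starRingEnd ℂ) (g b₀) * e (θ * ((b : ℝ) - b₀) * v i) =
          ∑ b₀ ∈ B, g b * (starRingEnd ℂ) (g b₀) * V v (θ * ((b : ℝ) - b₀)) := by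
        intro b _
        rw [sum_comm]
        refine sum_congr rfl fun b₀ _ => ?_
        rw [← mul_sum]
        rfl
      rw [sum_congr rfl e7, sum_comm]
    have e8 : ∑ i, ‖∑ b ∈ B, g b * e (θ * v i * b)‖ ^ 2 =
        ‖((∑ i, ‖∑ b ∈ B, g b * e (θ * v i * b)‖ ^ 2 : ℝ) : ℂ)‖ := by
      rw [Complex.norm_real, Real.norm_eq_abs, abs_of_nonneg (by positivity)]
    rw [e8, e5]
    refine (norm_sum_le _ _).trans (sum_le_sum fun b₀ _ => (norm_sum_le _ _).trans (sum_le_sum fun b _ => ?_))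
    rw [norm_mul, norm_mul, RCLike.norm_conj]
    have : ‖g b‖ * ‖g b₀‖ ≤ 1 := mul_le_one₀ (hg b) (norm_nonneg _) (hg b₀)
    exact mul_le_of_le_one_left (norm_nonneg _) this
  -- the power mean
  have h2 : T ^ (2 * h) ≤ ((B.card : ℝ) ^ 2) ^ (2 * h - 1) * (B.card * (2 * ((2 * H + 1 : ℕ) + G) * energy h v)) := by
    have e1 : T = ∑ p ∈ B ×ˢ B, ‖V v (θ * ((p.2 : ℝ) - p.1))‖ := by
      rw [hT, sum_product]
    have e2 := pow_sum_div_card_le_sum_pow (s := B ×ˢ B) (f := fun p : ℕ × ℕ => ‖V v (θ * ((p.2 : ℝ) - p.1))‖)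
      (fun _ _ => norm_nonneg _) (2 * h - 1)
    rw [← e1, show 2 * h - 1 + 1 = 2 * h by omega, card_product, sum_product] at e2
    have e3 : ∑ b₀ ∈ B, ∑ b ∈ B, ‖V v (θ * ((b : ℝ) - b₀))‖ ^ (2 * h) ≤
        B.card * (2 * ((2 * H + 1 : ℕ) + G) * energy h v) := by
      calc _ ≤ ∑ b₀ ∈ B, (2 * ((2 * H + 1 : ℕ) + G) * energy h v) :=
            sum_le_sum fun b₀ _ => moment h H N θ G hG v hv B hB b₀
        _ = _ := by rw [sum_const, nsmul_eq_mul]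
    rcases Nat.eq_zero_or_pos B.card with h0 | h0
    · have hB0 : B = ∅ := card_eq_zero.1 h0
      have hT' : T = 0 := by rw [hT, hB0, sum_empty]
      have hG0 : 0 ≤ G := le_trans (sum_nonneg fun _ _ => norm_nonneg _) hG
      rw [hT', zero_pow (by omega)]
      positivity
    · have h0' : (0 : ℝ) < B.card := by exact_mod_cast h0
      rw [div_le_iff₀ (by positivity)] at e2
      refine (e2.trans (mul_le_mul_of_nonneg_right e3 (by positivity))).trans (le_of_eq ?_)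
      push_cast
      ring
  calc ‖S‖ ^ (4 * h) = (‖S‖ ^ 2) ^ (2 * h) := by rw [← pow_mul]; congr 1; omega
    _ ≤ ((Fintype.card ι : ℝ) * T) ^ (2 * h) := pow_le_pow_left₀ (by positivity) h1 _
    _ = (Fintype.card ι : ℝ) ^ (2 * h) * T ^ (2 * h) := mul_pow _ _ _
    _ ≤ (Fintype.card ι : ℝ) ^ (2 * h) * (((B.card : ℝ) ^ 2) ^ (2 * h - 1) *
          (B.card * (2 * ((2 * H + 1 : ℕ) + G) * energy h v))) := mul_le_mul_of_nonneg_left h2 (by positivity)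
    _ = _ := by
        have e1 : ((B.card : ℝ) ^ 2) ^ (2 * h - 1) * B.card = (B.card : ℝ) ^ (4 * h - 1) := by
          rw [← pow_mul, ← pow_succ]
          congr 1
          omega
        rw [← e1]
        ring

/-- the normalized form -/
theorem bilinK (h H N : ℕ) (hh : 1 ≤ h) (θ : ℝ)
    (v : ι → ℤ) (hv : ∀ x : Fin h → ι, |∑ j, v (x j)| ≤ H)
    (B : Finset ℕ) (hB : ∀ b ∈ B, b ≤ N) (f : ι → ℂ) (g : ℕ → ℂ) (hf : ∀ i, ‖f i‖ ≤ 1) (hg : ∀ b, ‖g b‖ ≤ 1)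
    (hi0 : 0 < Fintype.card ι) (hb0 : 0 < B.card) (K : ℝ)
    (hK : 2 * (energy h v : ℝ) ≤ K * ((Fintype.card ι : ℝ) ^ (2 * h) * B.card)) :
    ‖∑ i, ∑ b ∈ B, f i * g b * e (θ * v i * b)‖ ^ (4 * h) ≤
      ((Fintype.card ι : ℝ) * B.card) ^ (4 * h) * (K * ((2 * H + 1 : ℕ) + ∑ d ∈ Finset.Icc 1 N, ker H (θ * d))) := by
  have h1 := bilinC h H N hh θ (∑ d ∈ Finset.Icc 1 N, ker H (θ * d)) (le_of_eq rfl) v hv B hB f g hf hg
  refine h1.trans ?_
  set G : ℝ := ∑ d ∈ Finset.Icc 1 N, ker H (θ * d) with hGd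
  have hG0 : 0 ≤ G := sum_nonneg fun _ _ => ker_nonneg _ _
  set I : ℝ := (Fintype.card ι : ℝ) with hI
  set J : ℝ := (B.card : ℝ) with hJ
  have hI0 : 0 < I := by rw [hI]; exact_mod_cast hi0
  have hJ0 : 0 < J := by rw [hJ]; exact_mod_cast hb0
  have a1 : J ^ (4 * h - 1) * J = J ^ (4 * h) := by
    rw [← pow_succ]
    congr 1
    omega
  have a2 : I ^ (2 * h) * I ^ (2 * h) = I ^ (4 * h) := by
    rw [← pow_add]
    congr 1
    omega
  calc I ^ (2 * h) * J ^ (4 * h - 1) * (2 * ((2 * H + 1 : ℕ) + G) * energy h v) =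
      I ^ (2 * h) * J ^ (4 * h - 1) * ((2 * H + 1 : ℕ) + G) * (2 * energy h v) := by ring
    _ ≤ I ^ (2 * h) * J ^ (4 * h - 1) * ((2 * H + 1 : ℕ) + G) * (K * (I ^ (2 * h) * J)) :=
        mul_le_mul_of_nonneg_left hK (by positivity)
    _ = _ := by
        rw [mul_pow, ← a1, ← a2]
        ring

end

/-- the coefficients: products of functions of absolute value at most one, each of which does not depend on one of the
variables -/
def Cyl {r : ℕ} {ι : Type} (c : (Fin r → ℕ) → ι → ℕ → ℂ) : Prop :=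
  ∃ (C : Fin r → (Fin r → ℕ) → ι → ℕ → ℂ) (C' : (Fin r → ℕ) → ι → ℂ) (C'' : (Fin r → ℕ) → ℕ → ℂ),
    (∀ j x i b, ‖C j x i b‖ ≤ 1) ∧ (∀ x i, ‖C' x i‖ ≤ 1) ∧ (∀ x b, ‖C'' x b‖ ≤ 1) ∧
    (∀ j x t, C j (Function.update x j t) = C j x) ∧
    ∀ x i b, c x i b = (∏ j, C j x i b) * C' x i * C'' x b

/-- the sum -/
noncomputable def Sm {r : ℕ} {ι : Type} [Fintype ι] (A : Fin r → Finset ℕ) (B : Finset ℕ) (v : ι → ℤ) (θ : ℝ)
    (c : (Fin r → ℕ) → ι → ℕ → ℂ) : ℂ :=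
  ∑ x ∈ Fintype.piFinset A, ∑ i, ∑ b ∈ B, c x i b * e (θ * (∏ j, (x j : ℝ)) * v i * b)

/-- the sum of the geometric sums -/
noncomputable def Gs {r : ℕ} (U : Fin r → ℕ) (H N : ℕ) (θ : ℝ) : ℝ :=
  ∑ x ∈ Fintype.piFinset (fun j => Finset.Icc 1 (U j)), ∑ d ∈ Finset.Icc 1 N, ker H (θ * (∏ j, (x j : ℝ)) * d)

lemma Gs_nonneg {r : ℕ} (U : Fin r → ℕ) (H N : ℕ) (θ : ℝ) : 0 ≤ Gs U H N θ :=
  sum_nonneg fun _ _ => sum_nonneg fun _ _ => ker_nonneg _ _

lemma Gs_neg {r : ℕ} (U : Fin r → ℕ) (H N : ℕ) (θ : ℝ) : Gs U H N (-θ) = Gs U H N θ := by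
  unfold Gs
  refine sum_congr rfl fun x _ => sum_congr rfl fun d _ => ?_
  rw [← ker_neg]
  congr 1
  ring

lemma sum_pi_succ {r : ℕ} {M : Type} [AddCommMonoid M] (A : Fin (r + 1) → Finset ℕ) (φ : (Fin (r + 1) → ℕ) → M) :
    ∑ x ∈ Fintype.piFinset A, φ x = ∑ y ∈ Fintype.piFinset (fun j => A j.succ), ∑ a ∈ A 0, φ (Fin.cons a y) := by
  rw [sum_sigma']
  symm
  apply sum_bij' (fun (p : (_ : Fin r → ℕ) × ℕ) _ => (Fin.cons p.2 p.1 : Fin (r + 1) → ℕ))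
    (fun x _ => (⟨fun j => x j.succ, x 0⟩ : (_ : Fin r → ℕ) × ℕ))
  · rintro ⟨y, a⟩ h
    rw [mem_sigma, Fintype.mem_piFinset] at h
    rw [Fintype.mem_piFinset]
    intro j
    refine Fin.cases ?_ (fun j => ?_) j
    · simpa using h.2
    · simpa using h.1 j
  · intro x h
    rw [Fintype.mem_piFinset] at h
    rw [mem_sigma, Fintype.mem_piFinset]
    exact ⟨fun j => h j.succ, h 0⟩
  · rintro ⟨y, a⟩ _
    simp
  · intro x _
    funext j
    refine Fin.cases ?_ (fun j => ?_) j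
    · simp
    · simp
  · rintro ⟨y, a⟩ _
    rfl

lemma Gs_succ {r : ℕ} (U : Fin (r + 1) → ℕ) (H N : ℕ) (θ : ℝ) :
    Gs U H N θ = ∑ a ∈ Finset.Icc 1 (U 0), Gs (fun j => U j.succ) H N (θ * a) := by
  unfold Gs
  rw [sum_pi_succ, sum_comm]
  refine sum_congr rfl fun a _ => sum_congr rfl fun y _ => sum_congr rfl fun d _ => ?_
  congr 1
  rw [Fin.prod_univ_succ]
  simp only [Fin.cons_zero, Fin.cons_succ]
  ring

lemma diff_sum (F : ℝ → ℝ) (hF : ∀ t, 0 ≤ F t) (hneg : ∀ t, F (-t) = F t) (U : ℕ) (A : Finset ℕ) (hA : ∀ a ∈ A, a ≤ U)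
    (θ : ℝ) (a : ℕ) (ha : a ≤ U) :
    ∑ a' ∈ A.erase a, F (θ * ((a : ℝ) - a')) ≤ 2 * ∑ d ∈ Finset.Icc 1 U, F (θ * d) := by
  classical
  have h1 : A.erase a ⊆ range (U + 1) := by
    intro a' h
    have := hA a' (mem_of_mem_erase h)
    rw [mem_range]
    omega
  set Gf : ℕ → ℝ := fun d => if d = 0 then 0 else F (θ * d) with hGf
  have hGf0 : ∀ d, 0 ≤ Gf d := by
    intro d
    rw [hGf]
    dsimp only
    split_ifs
    · exact le_rfl
    · exact hF _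
  have h2 : ∑ a' ∈ A.erase a, F (θ * ((a : ℝ) - a')) =
      ∑ a' ∈ A.erase a, (if a' ≤ a then Gf (a - a') else Gf (a' - a)) := by
    refine sum_congr rfl fun a' h => ?_
    have hne := ne_of_mem_erase h
    split_ifs with h'
    · have h0 : a - a' ≠ 0 := by omega
      rw [hGf]
      dsimp only
      rw [if_neg h0, Nat.cast_sub h']
    · have h0 : a' - a ≠ 0 := by omega
      rw [hGf]
      dsimp only
      rw [if_neg h0, Nat.cast_sub (by omega), ← hneg]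
      congr 1
      ring
  rw [h2]
  have h3 := Pool.Agent.TH668.Bil.dist_sum Gf hGf0 U a ha
  have h4 : ∑ d ∈ range (U + 1), Gf d = ∑ d ∈ Finset.Icc 1 U, F (θ * d) := by
    rw [sum_range_succ', Finset.range_eq_Ico, Finset.sum_Ico_add' Gf 0 U 1]
    have : Gf 0 = 0 := by rw [hGf]; simp
    rw [this, add_zero]
    have h5 : Finset.Ico (0 + 1) (U + 1) = Finset.Icc 1 U := by
      ext x
      simp only [Finset.mem_Ico, Finset.mem_Icc]
      omega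
    rw [h5]
    refine sum_congr rfl fun d hd => ?_
    rw [Finset.mem_Icc] at hd
    rw [hGf]
    dsimp only
    rw [if_neg (by omega)]
  rw [h4] at h3
  refine le_trans (sum_le_sum_of_subset_of_nonneg h1 fun a' _ _ => ?_) h3
  split_ifs
  · exact hGf0 _
  · exact hGf0 _

section

variable {ι : Type} [Fintype ι]

lemma Cyl.norm_le {r : ℕ} {c : (Fin r → ℕ) → ι → ℕ → ℂ} (hc : Cyl c) (x : Fin r → ℕ) (i : ι) (b : ℕ) : ‖c x i b‖ ≤ 1 := by
  obtain ⟨C, C', C'', h1, h2, h3, h4, h5⟩ := hc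
  rw [h5, norm_mul, norm_mul, norm_prod]
  have h6 : ∏ j, ‖C j x i b‖ ≤ 1 := prod_le_one (fun _ _ => norm_nonneg _) fun j _ => h1 j x i b
  have h7 : (∏ j, ‖C j x i b‖) * ‖C' x i‖ ≤ 1 := mul_le_one₀ h6 (norm_nonneg _) (h2 x i)
  exact mul_le_one₀ h7 (norm_nonneg _) (h3 x b)

lemma card_pi {r : ℕ} (A : Fin r → Finset ℕ) : ((Fintype.piFinset A).card : ℝ) = ∏ j, ((A j).card : ℝ) := by
  rw [Fintype.card_piFinset]
  push_cast
  rfl

lemma Sm_trivial {r : ℕ} (A : Fin r → Finset ℕ) (B : Finset ℕ) (v : ι → ℤ) (θ : ℝ) (c : (Fin r → ℕ) → ι → ℕ → ℂ)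
    (hc : Cyl c) : ‖Sm A B v θ c‖ ≤ (Fintype.card ι : ℝ) * B.card * ∏ j, ((A j).card : ℝ) := by
  unfold Sm
  have h1 : ∀ x ∈ Fintype.piFinset A, ‖∑ i, ∑ b ∈ B, c x i b * e (θ * (∏ j, (x j : ℝ)) * v i * b)‖ ≤
      (Fintype.card ι : ℝ) * B.card := by
    intro x _
    refine (norm_sum_le _ _).trans ?_
    calc _ ≤ ∑ _i : ι, (B.card : ℝ) := by
          refine sum_le_sum fun i _ => (norm_sum_le _ _).trans ?_
          calc _ ≤ ∑ _b ∈ B, (1 : ℝ) := by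
                refine sum_le_sum fun b _ => ?_
                rw [norm_mul, norm_e, mul_one]
                exact hc.norm_le x i b
            _ = _ := by rw [sum_const, nsmul_eq_mul, mul_one]
      _ = _ := by rw [sum_const, card_univ, nsmul_eq_mul]
  refine (norm_sum_le _ _).trans ((sum_le_sum h1).trans (le_of_eq ?_))
  rw [sum_const, nsmul_eq_mul, card_pi]
  ring

/-- the step of the recursion -/
lemma Sm_step {r : ℕ} (A : Fin (r + 1) → Finset ℕ) (B : Finset ℕ) (v : ι → ℤ) (θ : ℝ)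
    (c : (Fin (r + 1) → ℕ) → ι → ℕ → ℂ) (hc : Cyl c) :
    ∃ D : ℕ → ℕ → (Fin r → ℕ) → ι → ℕ → ℂ, (∀ a a', Cyl (D a a')) ∧
      ‖Sm A B v θ c‖ ^ 2 ≤ ((Fintype.card ι : ℝ) * B.card * ∏ j : Fin r, ((A j.succ).card : ℝ)) *
        ∑ a ∈ A 0, ∑ a' ∈ A 0, ‖Sm (fun j => A j.succ) B v (θ * ((a : ℝ) - a')) (D a a')‖ := by
  classical
  obtain ⟨C, C', C'', h1, h2, h3, h4, h5⟩ := hc
  -- the coefficients without the first factor
  set F : ℕ → (Fin r → ℕ) → ι → ℕ → ℂ := fun a y i b =>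
    (∏ j : Fin r, C j.succ (Fin.cons a y) i b) * C' (Fin.cons a y) i * C'' (Fin.cons a y) b with hF
  have hcF : ∀ a y i b, c (Fin.cons a y) i b = C 0 (Fin.cons 0 y) i b * F a y i b := by
    intro a y i b
    have e1 : C 0 (Fin.cons a y) = C 0 (Fin.cons 0 y) := by
      have := h4 0 (Fin.cons a y) 0
      rw [Fin.update_cons_zero] at this
      exact this.symm
    rw [h5, Fin.prod_univ_succ, e1, hF]
    ring
  refine ⟨fun a a' y i b => F a y i b * (starRingEnd ℂ) (F a' y i b), ?_, ?_⟩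
  · intro a a'
    refine ⟨fun j y i b => C j.succ (Fin.cons a y) i b * (starRingEnd ℂ) (C j.succ (Fin.cons a' y) i b),
      fun y i => C' (Fin.cons a y) i * (starRingEnd ℂ) (C' (Fin.cons a' y) i),
      fun y b => C'' (Fin.cons a y) b * (starRingEnd ℂ) (C'' (Fin.cons a' y) b), ?_, ?_, ?_, ?_, ?_⟩
    · intro j y i b
      rw [norm_mul, RCLike.norm_conj]
      exact mul_le_one₀ (h1 _ _ _ _) (norm_nonneg _) (h1 _ _ _ _)
    · intro y i
      rw [norm_mul, RCLike.norm_conj]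
      exact mul_le_one₀ (h2 _ _) (norm_nonneg _) (h2 _ _)
    · intro y b
      rw [norm_mul, RCLike.norm_conj]
      exact mul_le_one₀ (h3 _ _) (norm_nonneg _) (h3 _ _)
    · intro j y t
      funext i b
      have e1 : ∀ a : ℕ, C j.succ (Fin.cons a (Function.update y j t)) = C j.succ (Fin.cons a y) := by
        intro a
        rw [Fin.cons_update]
        exact h4 j.succ (Fin.cons a y) t
      show C j.succ (Fin.cons a (Function.update y j t)) i b * (starRingEnd ℂ) (C j.succ (Fin.cons a' (Function.update y j t)) i b) = _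
      rw [e1, e1]
    · intro y i b
      simp only [hF, map_mul, map_prod, prod_mul_distrib]
      ring
  · -- Cauchy and Schwarz
    have e1 : Sm A B v θ c = ∑ y ∈ Fintype.piFinset (fun j => A j.succ), ∑ i, ∑ b ∈ B,
        C 0 (Fin.cons 0 y) i b * ∑ a ∈ A 0, F a y i b * e (θ * a * (∏ j, (y j : ℝ)) * v i * b) := by
      unfold Sm
      rw [sum_pi_succ]
      refine sum_congr rfl fun y _ => ?_
      rw [sum_comm]
      refine sum_congr rfl fun i _ => ?_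
      rw [sum_comm]
      refine sum_congr rfl fun b _ => ?_
      rw [mul_sum]
      refine sum_congr rfl fun a _ => ?_
      rw [hcF, Fin.prod_univ_succ]
      simp only [Fin.cons_zero, Fin.cons_succ]
      have : θ * ((a : ℝ) * ∏ j, (y j : ℝ)) * v i * b = θ * a * (∏ j, (y j : ℝ)) * v i * b := by ring
      rw [this]
      ring
    set Ω : Finset ((Fin r → ℕ) × ι × ℕ) := (Fintype.piFinset (fun j => A j.succ)) ×ˢ ((univ : Finset ι) ×ˢ B) with hΩ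
    have hΩc : (Ω.card : ℝ) = (Fintype.card ι : ℝ) * B.card * ∏ j : Fin r, ((A j.succ).card : ℝ) := by
      rw [hΩ, card_product, card_product, card_univ]
      push_cast
      rw [card_pi]
      ring
    have e2 : ‖Sm A B v θ c‖ ≤ ∑ p ∈ Ω, 1 * ‖∑ a ∈ A 0, F a p.1 p.2.1 p.2.2 * e (θ * a * (∏ j, (p.1 j : ℝ)) * v p.2.1 * p.2.2)‖ := by
      rw [e1, hΩ, sum_product]
      refine (norm_sum_le _ _).trans (sum_le_sum fun y _ => ?_)
      rw [sum_product]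
      refine (norm_sum_le _ _).trans (sum_le_sum fun i _ => (norm_sum_le _ _).trans (sum_le_sum fun b _ => ?_))
      rw [norm_mul]
      exact mul_le_mul_of_nonneg_right (h1 _ _ _ _) (norm_nonneg _)
    have e3 : ‖Sm A B v θ c‖ ^ 2 ≤ (∑ _p ∈ Ω, (1 : ℝ) ^ 2) *
        ∑ p ∈ Ω, ‖∑ a ∈ A 0, F a p.1 p.2.1 p.2.2 * e (θ * a * (∏ j, (p.1 j : ℝ)) * v p.2.1 * p.2.2)‖ ^ 2 :=
      (pow_le_pow_left₀ (norm_nonneg _) e2 2).trans (sum_mul_sq_le_sq_mul_sq _ _ _)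
    have e4 : (∑ _p ∈ Ω, (1 : ℝ) ^ 2) = Ω.card := by
      rw [sum_const, nsmul_eq_mul, one_pow, mul_one]
    rw [e4, hΩc] at e3
    refine e3.trans (mul_le_mul_of_nonneg_left ?_
      (mul_nonneg (mul_nonneg (Nat.cast_nonneg _) (Nat.cast_nonneg _)) (prod_nonneg fun _ _ => Nat.cast_nonneg _)))
    have e5 : ((∑ p ∈ Ω, ‖∑ a ∈ A 0, F a p.1 p.2.1 p.2.2 * e (θ * a * (∏ j, (p.1 j : ℝ)) * v p.2.1 * p.2.2)‖ ^ 2 : ℝ) : ℂ) =
        ∑ a ∈ A 0, ∑ a' ∈ A 0, Sm (fun j => A j.succ) B v (θ * ((a : ℝ) - a')) (fun y i b => F a y i b * (starRingEnd ℂ) (F a' y i b)) := by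
      push_cast
      have e6 : ∀ p : (Fin r → ℕ) × ι × ℕ,
          ((‖∑ a ∈ A 0, F a p.1 p.2.1 p.2.2 * e (θ * a * (∏ j, (p.1 j : ℝ)) * v p.2.1 * p.2.2)‖ : ℂ)) ^ 2 =
          ∑ a ∈ A 0, ∑ a' ∈ A 0, F a p.1 p.2.1 p.2.2 * (starRingEnd ℂ) (F a' p.1 p.2.1 p.2.2) *
            e (θ * ((a : ℝ) - a') * (∏ j, (p.1 j : ℝ)) * v p.2.1 * p.2.2) := by
        intro p
        rw [← Complex.mul_conj', map_sum, sum_mul_sum]
        refine sum_congr rfl fun a _ => sum_congr rfl fun a' _ => ?_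
        rw [map_mul, conj_e]
        have : e (θ * ((a : ℝ) - a') * (∏ j, (p.1 j : ℝ)) * v p.2.1 * p.2.2) =
            e (θ * a * (∏ j, (p.1 j : ℝ)) * v p.2.1 * p.2.2) * e (-(θ * a' * (∏ j, (p.1 j : ℝ)) * v p.2.1 * p.2.2)) := by
          rw [← e_add]
          congr 1
          ring
        rw [this]
        ring
      rw [sum_congr rfl fun p _ => e6 p, sum_comm]
      refine sum_congr rfl fun a _ => ?_
      rw [sum_comm]
      refine sum_congr rfl fun a' _ => ?_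
      unfold Sm
      rw [hΩ, sum_product]
      refine sum_congr rfl fun y _ => ?_
      rw [sum_product]
    have e8 : ∑ p ∈ Ω, ‖∑ a ∈ A 0, F a p.1 p.2.1 p.2.2 * e (θ * a * (∏ j, (p.1 j : ℝ)) * v p.2.1 * p.2.2)‖ ^ 2 =
        ‖((∑ p ∈ Ω, ‖∑ a ∈ A 0, F a p.1 p.2.1 p.2.2 * e (θ * a * (∏ j, (p.1 j : ℝ)) * v p.2.1 * p.2.2)‖ ^ 2 : ℝ) : ℂ)‖ := by
      rw [Complex.norm_real, Real.norm_eq_abs, abs_of_nonneg (sum_nonneg fun _ _ => sq_nonneg _)]
    rw [e8, e5]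
    exact (norm_sum_le _ _).trans (sum_le_sum fun a _ => norm_sum_le _ _)

end

end Pool.Agent.W5h23.HG
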